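import Pool.Agent.H89.Imm.Roles

set_option autoImplicit false
set_option linter.unusedSectionVars false
set_option linter.unusedVariables false
set_option linter.unusedSimpArgs false

namespace Pool.Agent.H89.Imm

open Finset SimpleGraph

variable {V : Type*} [DecidableEq V] [Fintype V]

/-- a `K_k`-immersion in `G` with all vertices in `U` -/
def ImmIn {V : Type*} (k : ℕ) (G : SimpleGraph V) (U : Finset V) : Prop :=
  ∃ f : Fin k → V, Function.Injective f ∧ (∀ i, f i ∈ U) ∧
    ∃ P : ∀ i j : Fin k, G.Walk (f i) (f j),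
      (∀ i j, i < j → (P i j).IsPath) ∧
      (∀ i j, i < j → ∀ v ∈ (P i j).support, v ∈ U) ∧
      (∀ i j i' j' : Fin k, i < j → i' < j' → (i ≠ i' ∨ j ≠ j') →
        (P i j).edges.Disjoint (P i' j').edges)

/-- average degree above `d0` forces a `K_k`-immersion -/
def ImmProp (k : ℕ) (d0 : ℝ) : Prop :=
  ∀ (m : ℕ) (H : SimpleGraph (Fin m)), d0 < 2 * (H.edgeSet.ncard : ℝ) / (m : ℝ) →
    ∃ f : Fin k → Fin m, Function.Injective f ∧
      ∃ P : ∀ i j : Fin k, H.Walk (f i) (f j),
        (∀ i j : Fin k, i < j → (P i j).IsPath) ∧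
        (∀ i j i' j' : Fin k, i < j → i' < j' → (i ≠ i' ∨ j ≠ j') →
          (P i j).edges.Disjoint (P i' j').edges)

/-- an immersion is given by its paths `P i j`, `i < j` -/
lemma immIn_of {k : ℕ} {G : SimpleGraph V} {U : Finset V} (f : Fin k → V)
    (hf : Function.Injective f) (hfU : ∀ i, f i ∈ U)
    (hP : ∃ P : ∀ i j : Fin k, i < j → G.Walk (f i) (f j),
      (∀ i j (h : i < j), (P i j h).IsPath) ∧
      (∀ i j (h : i < j), ∀ v ∈ (P i j h).support, v ∈ U) ∧
      (∀ i j i' j' (h : i < j) (h' : i' < j'), (i ≠ i' ∨ j ≠ j') →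
        (P i j h).edges.Disjoint (P i' j' h').edges)) : ImmIn k G U := by
  obtain ⟨P, h1, h2, h3⟩ := hP
  let P' : ∀ i j : Fin k, G.Walk (f i) (f j) := fun i j =>
    if h : i < j then P i j h else if h' : j < i then (P j i h').reverse else
      (Walk.nil : G.Walk (f i) (f i)).copy rfl (by rw [le_antisymm (not_lt.1 h') (not_lt.1 h)])
  have hP' : ∀ i j (h : i < j), P' i j = P i j h := by
    intro i j h
    simp only [P', dif_pos h]
  refine ⟨f, hf, hfU, P', ?_, ?_, ?_⟩
  · intro i j h; rw [hP' i j h]; exact h1 i j h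
  · intro i j h; rw [hP' i j h]; exact h2 i j h
  · intro i j i' j' h h' hne
    rw [hP' i j h, hP' i' j' h']; exact h3 i j i' j' h h' hne

lemma ec_univ (G : SimpleGraph V) : ec G univ univ = 2 * G.edgeSet.ncard := by
  classical
  have h1 := G.sum_degrees_eq_twice_card_edges
  have h2 : G.edgeSet.ncard = G.edgeFinset.card := by
    rw [← SimpleGraph.coe_edgeFinset, Set.ncard_coe_finset]
  rw [h2, ← h1]
  have h3 : (ec G univ univ : ℤ) = ∑ v : V, (G.degree v : ℤ) := by
    rw [ec_eq]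
    refine Finset.sum_congr rfl (fun v _ => ?_)
    rw [← SimpleGraph.card_neighborFinset_eq_degree, SimpleGraph.neighborFinset_eq_filter,
      Finset.card_filter]
    push_cast
    refine Finset.sum_congr rfl (fun u _ => ?_)
    unfold ad
    congr
  exact_mod_cast h3

/-- dense vertex sets contain immersions -/
theorem dense_imm {k : ℕ} {d0 : ℝ} (hk : ImmProp k d0) (G : SimpleGraph V) (W : Finset V)
    (hW : W.Nonempty) (hd : d0 * W.card < ec G W W) : ImmIn k G W := by
  classical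
  let e := W.equivFin.symm
  let φ : Fin W.card → V := fun i => (e i : V)
  have hφ : Function.Injective φ := fun i j h => e.injective (Subtype.ext h)
  have hφW : ∀ i, φ i ∈ W := fun i => (e i).2
  set G' : SimpleGraph (Fin W.card) := G.comap φ with hG'
  have hec : ec G' univ univ = ec G W W := by
    unfold ec
    refine Finset.card_bij (fun p _ => (φ p.1, φ p.2)) ?_ ?_ ?_
    · rintro ⟨i, j⟩ hp
      rw [mem_prs] at hp ⊢
      exact ⟨hφW i, hφW j, hp.2.2⟩
    · rintro ⟨i, j⟩ _ ⟨i', j'⟩ _ h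
      simp only [Prod.mk.injEq] at h
      rw [hφ h.1, hφ h.2]
    · rintro ⟨x, y⟩ hp
      rw [mem_prs] at hp
      obtain ⟨hx, hy, hxy⟩ := hp
      refine ⟨(e.symm ⟨x, hx⟩, e.symm ⟨y, hy⟩), ?_, ?_⟩
      · rw [mem_prs]
        refine ⟨Finset.mem_univ _, Finset.mem_univ _, ?_⟩
        rw [hG', SimpleGraph.comap_adj]
        simp only [φ, Equiv.apply_symm_apply]
        exact hxy
      · simp [φ]
  have hcard : (0 : ℝ) < W.card := by exact_mod_cast hW.card_pos
  obtain ⟨f, hf, P, hP1, hP2⟩ := hk W.card G' (by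
    rw [lt_div_iff₀ hcard]
    have : (ec G' univ univ : ℝ) = 2 * (G'.edgeSet.ncard : ℝ) := by exact_mod_cast ec_univ G'
    rw [← this, hec]
    exact hd)
  let ψ : G' →g G := ⟨φ, fun h => h⟩
  refine ⟨fun i => φ (f i), hφ.comp hf, fun i => hφW _, fun i j => (P i j).map ψ, ?_, ?_, ?_⟩
  · intro i j hij
    exact Walk.IsPath.map hφ (hP1 i j hij)
  · intro i j hij v hv
    rw [Walk.support_map, List.mem_map] at hv
    obtain ⟨x, -, rfl⟩ := hv
    exact hφW x
  · intro i j i' j' hij hij' hne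
    have h1 := hP2 i j i' j' hij hij' hne
    intro g hg hg'
    rw [Walk.edges_map, List.mem_map] at hg hg'
    obtain ⟨a, ha, rfl⟩ := hg
    obtain ⟨a', ha', haa⟩ := hg'
    have : a' = a := Sym2.map.injective hφ haa
    subst this
    exact h1 ha ha'

/-- walks of `F0` expand to paths of `H` -/
lemma expand {F0 H : SimpleGraph V} {Lab : Sym2 V → Set (Sym2 V)} {U : Set V}
    (h1 : ∀ x y, F0.Adj x y → ∃ p : H.Walk x y, (∀ e ∈ p.edges, e ∈ Lab s(x, y)) ∧
      ∀ v ∈ p.support, v ∈ U) :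
    ∀ {u v : V} (p : F0.Walk u v), u ∈ U → ∃ q : H.Walk u v,
      (∀ e ∈ q.edges, ∃ e' ∈ p.edges, e ∈ Lab e') ∧ ∀ x ∈ q.support, x ∈ U := by
  intro u v p
  induction p with
  | nil =>
    intro hu
    exact ⟨Walk.nil, by simp, by simpa using hu⟩
  | @cons a b c h p ih =>
    intro hu
    obtain ⟨q1, hq1, hq2⟩ := h1 a b h
    obtain ⟨q, hq3, hq4⟩ := ih (hq2 b q1.end_mem_support)
    refine ⟨q1.append q, ?_, ?_⟩
    · intro e he
      rw [Walk.edges_append, List.mem_append] at he
      rcases he with he | he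
      · exact ⟨s(a, b), by simp, hq1 e he⟩
      · obtain ⟨e', he', h2⟩ := hq3 e he
        exact ⟨e', by simp [he'], h2⟩
    · intro x hx
      rw [Walk.mem_support_append_iff] at hx
      rcases hx with hx | hx
      · exact hq2 x hx
      · exact hq4 x hx

/-- composition of immersions -/
theorem compose {k : ℕ} {F0 H : SimpleGraph V} {W U : Finset V} (hWU : W ⊆ U)
    {Lab : Sym2 V → Set (Sym2 V)}
    (h1 : ∀ x y, F0.Adj x y → ∃ p : H.Walk x y, (∀ e ∈ p.edges, e ∈ Lab s(x, y)) ∧
      ∀ v ∈ p.support, v ∈ (U : Set V))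
    (h2 : ∀ e ∈ F0.edgeSet, ∀ e' ∈ F0.edgeSet, e ≠ e' → Disjoint (Lab e) (Lab e'))
    (hF : ImmIn k F0 W) : ImmIn k H U := by
  classical
  obtain ⟨f, hf, hfW, P, hP1, hP2, hP3⟩ := hF
  have hex : ∀ i j : Fin k, i < j → ∃ q : H.Walk (f i) (f j),
      (∀ e ∈ q.edges, ∃ e' ∈ (P i j).edges, e ∈ Lab e') ∧ ∀ x ∈ q.support, x ∈ (U : Set V) :=
    fun i j _ => expand h1 (P i j) (hWU (hfW i))
  choose Q hQ1 hQ2 using hex
  refine immIn_of f hf (fun i => hWU (hfW i)) ⟨fun i j h => (Q i j h).bypass, ?_, ?_, ?_⟩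
  · intro i j h; exact (Q i j h).bypass_isPath
  · intro i j h v hv
    exact hQ2 i j h v ((Q i j h).support_bypass_subset_support hv)
  · intro i j i' j' h h' hne e he he'
    obtain ⟨g, hg, heg⟩ := hQ1 i j h e ((Q i j h).edges_bypass_subset_edges he)
    obtain ⟨g', hg', heg'⟩ := hQ1 i' j' h' e ((Q i' j' h').edges_bypass_subset_edges he')
    have hgg : g ≠ g' := by
      rintro rfl
      exact hP3 i j i' j' h h' hne hg hg'
    exact Set.disjoint_left.1 (h2 g (Walk.edges_subset_edgeSet _ hg) g'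
      (Walk.edges_subset_edgeSet _ hg') hgg) heg heg'

/-- partner role -/
def par (t0 : ℕ) {b : ℕ} (r : Bool × ZMod t0) (j : Fin b) : Bool × ZMod t0 :=
  if r.1 then (false, r.2 - ((j : ℕ) : ZMod t0)) else (true, r.2 + ((j : ℕ) : ZMod t0))

lemma par_ne {t0 b : ℕ} (r : Bool × ZMod t0) (j : Fin b) : par t0 r j ≠ r := by
  obtain ⟨x, a⟩ := r
  cases x <;> simp [par]

lemma par_inj {t0 b : ℕ} [NeZero t0] (hb : b ≤ t0) (r : Bool × ZMod t0) {j j' : Fin b}
    (h : par t0 r j = par t0 r j') : j = j' := by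
  have hcast : ((j : ℕ) : ZMod t0) = ((j' : ℕ) : ZMod t0) → j = j' := by
    intro hjj
    rw [ZMod.natCast_eq_natCast_iff'] at hjj
    rw [Nat.mod_eq_of_lt (by omega), Nat.mod_eq_of_lt (by omega)] at hjj
    exact Fin.ext hjj
  obtain ⟨x, a⟩ := r
  apply hcast
  cases x <;> simpa [par] using h

/-- assembling the pieces -/
theorem assemble {k : ℕ} {d0 y : ℝ} (hd0 : 0 ≤ d0) (hk : ImmProp k d0) (H : SimpleGraph V) {t0 b K : ℕ} [NeZero t0]
    (hbt : b ≤ t0) (S : Bool × ZMod t0 → Finset V) (Γ : Finset V)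
    (hSS : ∀ r s, r ≠ s → Disjoint (S r) (S s)) (hSΓ : ∀ r, Disjoint (S r) Γ)
    (hSne : ∀ r, (S r).Nonempty)
    (σ : Bool × ZMod t0 → Fin b → V) (hb : Fin b → ZMod t0 → V)
    (P : (r : Bool × ZMod t0) → (j : Fin b) → H.Walk (hb j (sig t0 r j)) (σ r j))
    (hσ : ∀ r j, σ r j ∈ S r) (hlen : ∀ r j, (P r j).length ≤ K)
    (hown : ∀ r j, ∀ x ∈ S r, ∀ z, (z ∈ S r ∨ z ∈ Γ) → s(x, z) ∉ (P r j).edges)
    (htch : ∀ r s, r ≠ s → ∀ j, ∀ e ∈ (P r j).edges, e ∉ tch (S s))
    (hdis : ∀ r j s j', (r ≠ s ∨ j ≠ j') → ¬ (j = j' ∧ sig t0 r j = sig t0 s j') →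
        List.Disjoint (P r j).edges (P s j').edges)
    (hy : ∀ r, y * (S r).card ≤ ec H (S r) (S r) + 2 * ec H (S r) Γ + b)
    (hd : d0 * Γ.card < (y - d0) * (2 * t0)) (hyd : d0 ≤ y) {s : ℕ} (hs : ∀ r, (S r).card ≤ s) :
    ∃ U : Finset V, U.card ≤ 2 * t0 * s + Γ.card + 2 * t0 * b * (K + 1) ∧ ImmIn k H U := by
  classical
  have hcardR : Fintype.card (Bool × ZMod t0) = 2 * t0 := by
    rw [Fintype.card_prod, ZMod.card]; simp
  set W : Finset V := (univ.biUnion S) ∪ Γ with hW
  set U : Finset V := W ∪ univ.biUnion (fun p : (Bool × ZMod t0) × Fin b => (P p.1 p.2).support.toFinset)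
    with hU
  have hSW : ∀ r, S r ⊆ W := fun r x hx => by
    rw [hW, Finset.mem_union, Finset.mem_biUnion]; left; exact ⟨r, Finset.mem_univ _, hx⟩
  have hΓW : Γ ⊆ W := Finset.subset_union_right
  have hWU : W ⊆ U := Finset.subset_union_left
  have hPU : ∀ r j, ∀ v ∈ (P r j).support, v ∈ U := by
    intro r j v hv
    rw [hU, Finset.mem_union, Finset.mem_biUnion]
    right; exact ⟨(r, j), Finset.mem_univ _, by simpa using hv⟩
  have hUcard : U.card ≤ 2 * t0 * s + Γ.card + 2 * t0 * b * (K + 1) := by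
    refine (Finset.card_union_le _ _).trans ?_
    refine add_le_add ((Finset.card_union_le _ _).trans (add_le_add ?_ le_rfl)) ?_
    · refine Finset.card_biUnion_le.trans ?_
      calc ∑ r, (S r).card ≤ ∑ r : Bool × ZMod t0, s := Finset.sum_le_sum (fun r _ => hs r)
        _ = 2 * t0 * s := by rw [Finset.sum_const, Finset.card_univ, hcardR, smul_eq_mul]
    · refine Finset.card_biUnion_le.trans ?_
      calc ∑ p : (Bool × ZMod t0) × Fin b, (P p.1 p.2).support.toFinset.card
          ≤ ∑ p : (Bool × ZMod t0) × Fin b, (K + 1) := Finset.sum_le_sum (fun p _ => by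
            refine (List.toFinset_card_le _).trans ?_
            rw [Walk.length_support]
            have := hlen p.1 p.2
            omega)
        _ = 2 * t0 * b * (K + 1) := by
            rw [Finset.sum_const, Finset.card_univ, Fintype.card_prod, hcardR, Fintype.card_fin,
              smul_eq_mul]
  refine ⟨U, hUcard, ?_⟩
  -- the small graph
  let ow : Set (Sym2 V) := {e | e ∈ H.edgeSet ∧ ∃ r, (∃ x ∈ S r, x ∈ e) ∧ ∀ x ∈ e, x ∈ S r ∨ x ∈ Γ}
  let lk : ZMod t0 → Fin b → Sym2 V := fun a j => s(σ (false, a) j, σ (true, a + ((j : ℕ) : ZMod t0)) j)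
  let F0 : SimpleGraph V := SimpleGraph.fromEdgeSet (ow ∪ {e | ∃ a j, e = lk a j})
  let Lab : Sym2 V → Set (Sym2 V) := fun e => {g | (g = e ∧ e ∈ ow) ∨
    ∃ a j, e = lk a j ∧ (g ∈ (P (false, a) j).edges ∨ g ∈ (P (true, a + ((j : ℕ) : ZMod t0)) j).edges)}
  have hsigf : ∀ (a : ZMod t0) (j : Fin b), sig t0 (false, a) j = a := by
    intro a j; simp [sig]
  have hsigt : ∀ (a : ZMod t0) (j : Fin b), sig t0 (true, a + ((j : ℕ) : ZMod t0)) j = a := by
    intro a j; simp [sig]
  have hadjF : ∀ x y, F0.Adj x y ↔ (s(x, y) ∈ ow ∨ ∃ a j, s(x, y) = lk a j) ∧ x ≠ y := by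
    intro x y
    simp only [F0, SimpleGraph.fromEdgeSet_adj]
    rfl
  -- link walks
  have hlink : ∀ a j, ∃ p : H.Walk (σ (false, a) j) (σ (true, a + ((j : ℕ) : ZMod t0)) j),
      (∀ e ∈ p.edges, e ∈ (P (false, a) j).edges ∨ e ∈ (P (true, a + ((j : ℕ) : ZMod t0)) j).edges) ∧
      ∀ v ∈ p.support, v ∈ U := by
    intro a j
    have heq : hb j (sig t0 (true, a + ((j : ℕ) : ZMod t0)) j) = hb j (sig t0 (false, a) j) := by
      rw [hsigt, hsigf]
    refine ⟨(P (false, a) j).reverse.append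
      ((P (true, a + ((j : ℕ) : ZMod t0)) j).copy heq rfl), ?_, ?_⟩
    · intro e he
      rw [Walk.edges_append, List.mem_append, Walk.edges_reverse, List.mem_reverse,
        Walk.edges_copy] at he
      exact he
    · intro v hv
      rw [Walk.mem_support_append_iff, Walk.support_reverse, List.mem_reverse,
        Walk.support_copy] at hv
      rcases hv with hv | hv
      · exact hPU _ _ v hv
      · exact hPU _ _ v hv
  have hreal : ∀ x y, F0.Adj x y → ∃ p : H.Walk x y, (∀ e ∈ p.edges, e ∈ Lab s(x, y)) ∧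
      ∀ v ∈ p.support, v ∈ (U : Set V) := by
    intro x y hxy
    rw [hadjF] at hxy
    obtain ⟨hxy | ⟨a, j, haj⟩, hne⟩ := hxy
    · have how : s(x, y) ∈ ow := hxy
      obtain ⟨hH, r, -, hr2⟩ := hxy
      have hadj : H.Adj x y := hH
      refine ⟨Walk.cons hadj Walk.nil, ?_, ?_⟩
      · intro e he
        simp only [Walk.edges_cons, Walk.edges_nil, List.mem_cons, List.not_mem_nil, or_false] at he
        left
        rw [he]
        exact ⟨rfl, how⟩
      · intro v hv
        simp only [Walk.support_cons, Walk.support_nil, List.mem_cons, List.not_mem_nil, or_false] at hv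
        have hall : ∀ z, z ∈ s(x, y) → z ∈ (U : Set V) := by
          intro z hz
          apply hWU
          rcases hr2 z hz with h | h
          · exact hSW r h
          · exact hΓW h
        rcases hv with rfl | rfl
        · exact hall _ (by simp)
        · exact hall _ (by simp)
    · obtain ⟨p, hp1, hp2⟩ := hlink a j
      have haj' := haj
      simp only [lk] at haj
      rw [Sym2.eq_iff] at haj
      rcases haj with ⟨hx, hy1⟩ | ⟨hx, hy1⟩
      · refine ⟨p.copy hx.symm hy1.symm, ?_, ?_⟩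
        · intro e he
          rw [Walk.edges_copy] at he
          right
          exact ⟨a, j, haj', hp1 e he⟩
        · intro v hv
          rw [Walk.support_copy] at hv
          exact hp2 v hv
      · refine ⟨p.reverse.copy hx.symm hy1.symm, ?_, ?_⟩
        · intro e he
          rw [Walk.edges_copy, Walk.edges_reverse, List.mem_reverse] at he
          right
          exact ⟨a, j, haj', hp1 e he⟩
        · intro v hv
          rw [Walk.support_copy, Walk.support_reverse, List.mem_reverse] at hv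
          exact hp2 v hv
  -- labels are disjoint
  have howP : ∀ e ∈ ow, ∀ r j, e ∉ (P r j).edges := by
    rintro e ⟨heH, r0, ⟨x, hx, hxe⟩, hr⟩ r j heP
    by_cases hrr : r = r0
    · subst hrr
      obtain ⟨z, rfl⟩ := Sym2.mem_iff_exists.1 hxe
      exact hown r j x hx z (hr z (by simp)) heP
    · exact htch r r0 hrr j e heP (mem_tch.2 ⟨x, hx, hxe⟩)
  have hlab : ∀ e ∈ F0.edgeSet, ∀ e' ∈ F0.edgeSet, e ≠ e' → Disjoint (Lab e) (Lab e') := by
    intro e _ e' _ hne
    rw [Set.disjoint_left]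
    rintro g (⟨rfl, hg⟩ | ⟨a, j, rfl, hg⟩) (⟨hge, hg'⟩ | ⟨a', j', rfl, hg'⟩)
    · exact hne hge
    · rcases hg' with hg' | hg'
      · exact howP _ hg _ _ hg'
      · exact howP _ hg _ _ hg'
    · subst hge
      rcases hg with hg | hg
      · exact howP _ hg' _ _ hg
      · exact howP _ hg' _ _ hg
    · have key : ∀ r s, sig t0 r j = a → sig t0 s j' = a' → g ∈ (P r j).edges → g ∈ (P s j').edges →
          False := by
        intro r s hr hs' h1 h2
        have hns : ¬ (j = j' ∧ sig t0 r j = sig t0 s j') := by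
          rintro ⟨rfl, h3⟩
          rw [hr, hs'] at h3
          subst h3
          exact hne rfl
        have hor : r ≠ s ∨ j ≠ j' := by
          by_contra hc
          push Not at hc
          obtain ⟨rfl, rfl⟩ := hc
          exact hns ⟨rfl, rfl⟩
        exact hdis r j s j' hor hns h1 h2
      rcases hg with hg | hg <;> rcases hg' with hg' | hg'
      · exact key _ _ (hsigf a j) (hsigf a' j') hg hg'
      · exact key _ _ (hsigf a j) (hsigt a' j') hg hg'
      · exact key _ _ (hsigt a j) (hsigf a' j') hg hg'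
      · exact key _ _ (hsigt a j) (hsigt a' j') hg hg'
  refine compose hWU hreal hlab ?_
  -- density
  have hlkadj : ∀ r j, F0.Adj (σ r j) (σ (par t0 r j) j) := by
    intro r j
    rw [hadjF]
    refine ⟨Or.inr ?_, ?_⟩
    · obtain ⟨x, a⟩ := r
      cases x
      · exact ⟨a, j, by simp [lk, par]⟩
      · refine ⟨a - ((j : ℕ) : ZMod t0), j, ?_⟩
        simp only [lk, par, if_true, sub_add_cancel]
        rw [Sym2.eq_swap]
    · intro heq
      have h1 := hσ r j
      have h2 := hσ (par t0 r j) j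
      rw [← heq] at h2
      exact Finset.disjoint_left.1 (hSS _ _ (par_ne r j)) h2 h1
  let A : Bool × ZMod t0 → Finset (V × V) := fun r =>
    (prs H (S r) (S r) ∪ prs H (S r) Γ) ∪ (prs H Γ (S r) ∪
      univ.image (fun j : Fin b => (σ r j, σ (par t0 r j) j)))
  have hAcard : ∀ r, (A r).card = ec H (S r) (S r) + 2 * ec H (S r) Γ + b := by
    intro r
    have d1 : Disjoint (prs H (S r) (S r)) (prs H (S r) Γ) := by
      rw [Finset.disjoint_left]
      rintro ⟨x, z⟩ h1 h2
      rw [mem_prs] at h1 h2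
      exact Finset.disjoint_left.1 (hSΓ r) h1.2.1 h2.2.1
    have d2 : Disjoint (prs H Γ (S r)) (univ.image (fun j : Fin b => (σ r j, σ (par t0 r j) j))) := by
      rw [Finset.disjoint_left]
      rintro ⟨x, z⟩ h1 h2
      rw [mem_prs] at h1
      rw [Finset.mem_image] at h2
      obtain ⟨j, -, hj⟩ := h2
      simp only [Prod.mk.injEq] at hj
      exact Finset.disjoint_left.1 (hSΓ r) (by rw [← hj.1]; exact hσ r j) h1.1
    have d3 : Disjoint (prs H (S r) (S r) ∪ prs H (S r) Γ) (prs H Γ (S r) ∪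
        univ.image (fun j : Fin b => (σ r j, σ (par t0 r j) j))) := by
      rw [Finset.disjoint_left]
      rintro ⟨x, z⟩ h1 h2
      rw [Finset.mem_union, mem_prs, mem_prs] at h1
      rw [Finset.mem_union, mem_prs, Finset.mem_image] at h2
      have hx : x ∈ S r := by rcases h1 with h1 | h1 <;> exact h1.1
      rcases h2 with h2 | ⟨j, -, hj⟩
      · exact Finset.disjoint_left.1 (hSΓ r) hx h2.1
      · simp only [Prod.mk.injEq] at hj
        have hz : z ∈ S (par t0 r j) := by rw [← hj.2]; exact hσ _ j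
        rcases h1 with h1 | h1
        · exact Finset.disjoint_left.1 (hSS _ _ (par_ne r j)) hz h1.2.1
        · exact Finset.disjoint_left.1 (hSΓ _) hz h1.2.1
    have himg : (univ.image (fun j : Fin b => (σ r j, σ (par t0 r j) j))).card = b := by
      rw [Finset.card_image_of_injective, Finset.card_univ, Fintype.card_fin]
      intro j j' hjj
      simp only [Prod.mk.injEq] at hjj
      apply par_inj hbt r
      by_contra hne
      have h1 := hσ (par t0 r j) j
      rw [hjj.2] at h1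
      exact Finset.disjoint_left.1 (hSS _ _ hne) h1 (hσ _ j')
    simp only [A]
    rw [Finset.card_union_of_disjoint d3, Finset.card_union_of_disjoint d1,
      Finset.card_union_of_disjoint d2, himg]
    have h5 : (prs H Γ (S r)).card = (prs H (S r) Γ).card := ec_comm H Γ (S r)
    unfold ec
    rw [h5]; ring
  have hAsub : ∀ r, A r ⊆ prs F0 W W := by
    intro r
    rintro ⟨x, z⟩ hxz
    simp only [A] at hxz
    rw [Finset.mem_union, Finset.mem_union, Finset.mem_union, mem_prs, mem_prs, mem_prs,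
      Finset.mem_image] at hxz
    rw [mem_prs]
    rcases hxz with (h | h) | (h | ⟨j, -, hj⟩)
    · refine ⟨hSW r h.1, hSW r h.2.1, (hadjF x z).2 ⟨Or.inl ⟨h.2.2, r, ⟨x, h.1, by simp⟩, ?_⟩, h.2.2.ne⟩⟩
      intro v hv
      rw [Sym2.mem_iff] at hv
      rcases hv with rfl | rfl
      · left; exact h.1
      · left; exact h.2.1
    · refine ⟨hSW r h.1, hΓW h.2.1, (hadjF x z).2 ⟨Or.inl ⟨h.2.2, r, ⟨x, h.1, by simp⟩, ?_⟩, h.2.2.ne⟩⟩
      intro v hv
      rw [Sym2.mem_iff] at hv
      rcases hv with rfl | rfl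
      · left; exact h.1
      · right; exact h.2.1
    · refine ⟨hΓW h.1, hSW r h.2.1, (hadjF x z).2 ⟨Or.inl ⟨h.2.2, r, ⟨z, h.2.1, by simp⟩, ?_⟩, h.2.2.ne⟩⟩
      intro v hv
      rw [Sym2.mem_iff] at hv
      rcases hv with rfl | rfl
      · right; exact h.1
      · left; exact h.2.1
    · simp only [Prod.mk.injEq] at hj
      rw [← hj.1, ← hj.2]
      exact ⟨hSW _ (hσ r j), hSW _ (hσ _ j), hlkadj r j⟩
  have hAdis : ∀ r ∈ (univ : Finset (Bool × ZMod t0)), ∀ s ∈ (univ : Finset (Bool × ZMod t0)), r ≠ s →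
      Disjoint (A r) (A s) := by
    intro r _ s _ hrs
    have hchar : ∀ r, ∀ x z, (x, z) ∈ A r → x ∈ S r ∨ (x ∈ Γ ∧ z ∈ S r) := by
      intro r x z hxz
      simp only [A] at hxz
      rw [Finset.mem_union, Finset.mem_union, Finset.mem_union, mem_prs, mem_prs, mem_prs,
        Finset.mem_image] at hxz
      rcases hxz with (h | h) | (h | ⟨j, -, hj⟩)
      · left; exact h.1
      · left; exact h.1
      · right; exact ⟨h.1, h.2.1⟩
      · simp only [Prod.mk.injEq] at hj
        left; rw [← hj.1]; exact hσ r j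
    rw [Finset.disjoint_left]
    rintro ⟨x, z⟩ h1 h2
    rcases hchar r x z h1 with h1 | ⟨h1, h1'⟩ <;> rcases hchar s x z h2 with h2 | ⟨h2, h2'⟩
    · exact Finset.disjoint_left.1 (hSS r s hrs) h1 h2
    · exact Finset.disjoint_left.1 (hSΓ r) h1 h2
    · exact Finset.disjoint_left.1 (hSΓ s) h2 h1
    · exact Finset.disjoint_left.1 (hSS r s hrs) h1' h2'
  have hcount : ∑ r, (ec H (S r) (S r) + 2 * ec H (S r) Γ + b) ≤ ec F0 W W := by
    have h1 : (univ.biUnion A).card = ∑ r, (A r).card := Finset.card_biUnion hAdis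
    have h2 : univ.biUnion A ⊆ prs F0 W W := by
      intro p hp
      rw [Finset.mem_biUnion] at hp
      obtain ⟨r, -, hr⟩ := hp
      exact hAsub r hr
    have h3 := Finset.card_le_card h2
    rw [h1] at h3
    simp only [hAcard] at h3
    exact h3
  have hWcard : W.card = ∑ r, (S r).card + Γ.card := by
    rw [hW, Finset.card_union_of_disjoint, Finset.card_biUnion (fun r _ s _ hrs => hSS r s hrs)]
    rw [Finset.disjoint_left]
    intro x hx hx'
    rw [Finset.mem_biUnion] at hx
    obtain ⟨r, -, hr⟩ := hx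
    exact Finset.disjoint_left.1 (hSΓ r) hr hx'
  have hSig : (2 * t0 : ℝ) ≤ ∑ r, ((S r).card : ℝ) := by
    calc (2 * t0 : ℝ) = ∑ r : Bool × ZMod t0, (1 : ℝ) := by
          rw [Finset.sum_const, Finset.card_univ, hcardR]; simp
      _ ≤ _ := Finset.sum_le_sum (fun r _ => by exact_mod_cast (hSne r).card_pos)
  apply dense_imm hk F0 W
  · obtain ⟨x, hx⟩ := hSne (false, 0)
    exact ⟨x, hSW _ hx⟩
  · have h1 : (∑ r, ((ec H (S r) (S r) : ℝ) + 2 * ec H (S r) Γ + b)) ≤ ec F0 W W := by
      exact_mod_cast hcount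
    have h2 : y * ∑ r, ((S r).card : ℝ) ≤ ∑ r, ((ec H (S r) (S r) : ℝ) + 2 * ec H (S r) Γ + b) := by
      rw [Finset.mul_sum]
      exact Finset.sum_le_sum (fun r _ => hy r)
    have h3 : (W.card : ℝ) = ∑ r, ((S r).card : ℝ) + Γ.card := by
      rw [hWcard]; push_cast; ring
    rw [h3]
    have h4 : (y - d0) * (2 * t0) ≤ (y - d0) * ∑ r, ((S r).card : ℝ) := by
      have : 0 ≤ y - d0 := by linarith
      gcongr
    linarith

end Pool.Agent.H89.Imm
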