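import Pool.Agent.H89.Imm.Prob

set_option autoImplicit false
set_option linter.unusedSectionVars false
set_option linter.unusedVariables false
set_option linter.unusedSimpArgs false

namespace Pool.Agent.H89.Imm

open Finset

/-- index of the `j`-th hub of the role `r`; the roles `(false, a)` and `(true, a + j)` share the hub
`(j, a)` -/
def sig (t0 : ℕ) {b : ℕ} (r : Bool × ZMod t0) (j : Fin b) : ZMod t0 :=
  if r.1 then r.2 - ((j : ℕ) : ZMod t0) else r.2

lemma share_unique {t0 b : ℕ} [NeZero t0] (hb : b ≤ t0) {r s : Bool × ZMod t0} (hrs : r ≠ s)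
    {j j' : Fin b} (h : sig t0 r j = sig t0 s j) (h' : sig t0 r j' = sig t0 s j') : j = j' := by
  have hcast : ((j : ℕ) : ZMod t0) = ((j' : ℕ) : ZMod t0) → j = j' := by
    intro hjj
    rw [ZMod.natCast_eq_natCast_iff'] at hjj
    rw [Nat.mod_eq_of_lt (by omega), Nat.mod_eq_of_lt (by omega)] at hjj
    exact Fin.ext hjj
  obtain ⟨x, a⟩ := r
  obtain ⟨y, c⟩ := s
  unfold sig at h h'
  cases x <;> cases y <;> simp at h h'
  · exfalso; apply hrs; rw [h]
  · apply hcast
    rw [h] at h'
    exact sub_right_injective h'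
  · apply hcast
    rw [← h] at h'
    exact (sub_right_injective h').symm
  · exfalso; apply hrs; rw [h]

section

variable {Ω V E : Type*} [Fintype Ω] [Nonempty Ω] [DecidableEq Ω] [Fintype V] [Nonempty V]
  [DecidableEq V] [Fintype E] [DecidableEq E]

/-- hub tuple of a role -/
def hub {t0 b : ℕ} (r : Bool × ZMod t0) (H : Fin b → ZMod t0 → V) : Fin b → V :=
  fun j => H j (sig t0 r j)

open Classical in
/-- real indicator -/
noncomputable def ID (p : Prop) : ℝ := if p then 1 else 0

lemma ID_nonneg (p : Prop) : 0 ≤ ID p := by unfold ID; split_ifs <;> simp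
lemma ID_le_one (p : Prop) : ID p ≤ 1 := by unfold ID; split_ifs <;> simp
lemma ID_true {p : Prop} (h : p) : ID p = 1 := by unfold ID; rw [if_pos h]
lemma ID_false {p : Prop} (h : ¬ p) : ID p = 0 := by unfold ID; rw [if_neg h]

lemma sum_ID_mem (s : Finset E) : ∑ e : E, ID (e ∈ s) = (s.card : ℝ) := by
  rw [← Finset.sum_subset (Finset.subset_univ s) (fun e _ he => ID_false he)]
  rw [Finset.sum_congr rfl (fun e he => ID_true he)]
  simp

lemma av_coord {R : Type*} [Fintype R] [DecidableEq R] (r : R) (φ : Ω → ℝ) :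
    av (fun ω : R → Ω => φ (ω r)) = av φ := by
  have h := av_pi_prod (ι := R) (fun i x => if i = r then φ x else 1)
  have h1 : ∀ ω : R → Ω, ∏ i, (if i = r then φ (ω i) else 1) = φ (ω r) := by
    intro ω; rw [Finset.prod_ite_eq' univ r (fun i => φ (ω i))]; simp
  simp only [h1] at h
  rw [h]
  rw [Finset.prod_eq_single r]
  · simp
  · intro i _ hi
    simp only [if_neg hi]; exact av_const 1
  · intro hr; exact absurd (Finset.mem_univ r) hr

lemma av_coord2 {R : Type*} [Fintype R] [DecidableEq R] {r s : R} (hrs : r ≠ s) (φ ψ : Ω → ℝ) :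
    av (fun ω : R → Ω => φ (ω r) * ψ (ω s)) = av φ * av ψ := by
  rw [indep (J := R) (W := Ω) {r} {s} (by simpa using hrs) (fun ω => φ (ω r)) (fun ω => ψ (ω s))
    (fun H H' h => by rw [h r rfl]) (fun H H' h => by rw [h s rfl]), av_coord, av_coord]

/-- independence for the hub tuples of two roles -/
lemma indep_hub {t0 b : ℕ} [NeZero t0] (r s : Bool × ZMod t0) (A : Set (Fin b))
    (hA : ∀ j ∈ A, sig t0 r j ≠ sig t0 s j) (φ ψ : (Fin b → V) → ℝ)
    (hφ : ∀ h h' : Fin b → V, (∀ j ∈ A, h j = h' j) → φ h = φ h') :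
    av (fun H : Fin b → ZMod t0 → V => φ (hub r H) * ψ (hub s H)) = av φ * av ψ := by
  have e : (Fin b × ZMod t0 → V) ≃ (Fin b → ZMod t0 → V) := Equiv.curry (Fin b) (ZMod t0) V
  rw [← av_equiv (Equiv.curry (Fin b) (ZMod t0) V)]
  have h1 := indep (J := Fin b × ZMod t0) (W := V) ((fun j : Fin b => (j, sig t0 r j)) '' A)
    (Set.range (fun j : Fin b => (j, sig t0 s j))) ?_
    (fun H => φ (fun j => H (j, sig t0 r j))) (fun H => ψ (fun j => H (j, sig t0 s j))) ?_ ?_
  · have h2 := marginal (J := Fin b × ZMod t0) (K := Fin b) (W := V) (fun j => (j, sig t0 r j))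
      (fun j j' h => by simpa using congrArg Prod.fst h) φ
    have h3 := marginal (J := Fin b × ZMod t0) (K := Fin b) (W := V) (fun j => (j, sig t0 s j))
      (fun j j' h => by simpa using congrArg Prod.fst h) ψ
    rw [h2, h3] at h1
    exact h1
  · rw [Set.disjoint_left]
    rintro ⟨j, a⟩ ⟨j', hj', heq⟩ ⟨j'', heq'⟩
    simp only [Prod.mk.injEq] at heq heq'
    obtain ⟨rfl, h4⟩ := heq
    obtain ⟨rfl, h5⟩ := heq'
    exact hA _ hj' (h4.trans h5.symm)
  · intro H H' h
    apply hφ
    intro j hj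
    exact h (j, sig t0 r j) ⟨j, hj, rfl⟩
  · intro H H' h
    congr 1
    funext j
    exact h (j, sig t0 s j) ⟨j, rfl⟩

/-- collision probability of two roles -/
lemma coll {t0 b : ℕ} [NeZero t0] {r s : Bool × ZMod t0} (hrs : r ≠ s) (A : Set (Fin b))
    (hA : ∀ j ∈ A, sig t0 r j ≠ sig t0 s j) (U F : Ω → (Fin b → V) → Finset E)
    (hU : ∀ ω, ∀ h h' : Fin b → V, (∀ j ∈ A, h j = h' j) → U ω h = U ω h') {K κc : ℝ}
    (hκ : 0 ≤ κc) (hF : ∀ ω h, ((F ω h).card : ℝ) ≤ K)
    (hUe : ∀ e, av (fun h : Fin b → V => av (fun ω : Ω => ID (e ∈ U ω h))) ≤ κc) :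
    av (fun H : Fin b → ZMod t0 → V => av (fun ω : Bool × ZMod t0 → Ω =>
      ID (¬ Disjoint (U (ω r) (hub r H)) (F (ω s) (hub s H))))) ≤ κc * K := by
  classical
  have h1 : ∀ (H : Fin b → ZMod t0 → V) (ω : Bool × ZMod t0 → Ω),
      ID (¬ Disjoint (U (ω r) (hub r H)) (F (ω s) (hub s H)))
      ≤ ∑ e : E, ID (e ∈ U (ω r) (hub r H)) * ID (e ∈ F (ω s) (hub s H)) := by
    intro H ω
    by_cases h : ¬ Disjoint (U (ω r) (hub r H)) (F (ω s) (hub s H))
    · rw [ID_true h]
      rw [Finset.not_disjoint_iff] at h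
      obtain ⟨e, he1, he2⟩ := h
      calc (1 : ℝ) = ID (e ∈ U (ω r) (hub r H)) * ID (e ∈ F (ω s) (hub s H)) := by
            rw [ID_true he1, ID_true he2, mul_one]
        _ ≤ _ := Finset.single_le_sum (f := fun e => ID (e ∈ U (ω r) (hub r H)) * ID (e ∈ F (ω s) (hub s H)))
            (fun e _ => mul_nonneg (ID_nonneg _) (ID_nonneg _)) (Finset.mem_univ e)
    · rw [ID_false h]
      exact Finset.sum_nonneg (fun e _ => mul_nonneg (ID_nonneg _) (ID_nonneg _))
  calc av (fun H : Fin b → ZMod t0 → V => av (fun ω : Bool × ZMod t0 → Ω =>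
      ID (¬ Disjoint (U (ω r) (hub r H)) (F (ω s) (hub s H)))))
      ≤ av (fun H : Fin b → ZMod t0 → V => av (fun ω : Bool × ZMod t0 → Ω =>
          ∑ e : E, ID (e ∈ U (ω r) (hub r H)) * ID (e ∈ F (ω s) (hub s H)))) :=
        av_mono (fun H => av_mono (fun ω => h1 H ω))
    _ = ∑ e : E, av (fun H : Fin b → ZMod t0 → V =>
          (av (fun ω : Ω => ID (e ∈ U ω (hub r H)))) * (av (fun ω : Ω => ID (e ∈ F ω (hub s H))))) := by
        rw [← av_sum]
        congr 1
        funext H
        rw [av_sum]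
        refine Finset.sum_congr rfl (fun e _ => ?_)
        exact av_coord2 hrs (fun ω => ID (e ∈ U ω (hub r H))) (fun ω => ID (e ∈ F ω (hub s H)))
    _ = ∑ e : E, av (fun h : Fin b → V => av (fun ω : Ω => ID (e ∈ U ω h))) *
          av (fun h : Fin b → V => av (fun ω : Ω => ID (e ∈ F ω h))) := by
        refine Finset.sum_congr rfl (fun e _ => ?_)
        refine indep_hub r s A hA (fun h => av (fun ω : Ω => ID (e ∈ U ω h)))
          (fun h => av (fun ω : Ω => ID (e ∈ F ω h))) ?_
        intro h h' hh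
        congr 1
        funext ω
        rw [hU ω h h' hh]
    _ ≤ ∑ e : E, κc * av (fun h : Fin b → V => av (fun ω : Ω => ID (e ∈ F ω h))) := by
        refine Finset.sum_le_sum (fun e _ => ?_)
        exact mul_le_mul_of_nonneg_right (hUe e) (av_nonneg (fun h => av_nonneg (fun ω => ID_nonneg _)))
    _ = κc * av (fun h : Fin b → V => av (fun ω : Ω => ∑ e : E, ID (e ∈ F ω h))) := by
        rw [← Finset.mul_sum]
        congr 1
        rw [← av_sum]
        congr 1
        funext h
        rw [av_sum]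
    _ ≤ κc * K := by
        refine mul_le_mul_of_nonneg_left ?_ hκ
        have h2 : ∀ (h : Fin b → V) (ω : Ω), ∑ e : E, ID (e ∈ F ω h) ≤ K := by
          intro h ω
          rw [sum_ID_mem]; exact hF ω h
        calc av (fun h : Fin b → V => av (fun ω : Ω => ∑ e : E, ID (e ∈ F ω h)))
            ≤ av (fun _ : Fin b → V => av (fun _ : Ω => K)) := av_mono (fun h => av_mono (fun ω => h2 h ω))
          _ = K := by rw [av_const, av_const]

/-- existence of a good configuration of roles -/
theorem config {I : Type*} {t0 b : ℕ} [NeZero t0] (hb : b ≤ t0)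
    (Succ : Ω → (Fin b → V) → Prop) (F Gn : Ω → (Fin b → V) → Finset E)
    (C : Fin b → Ω → (Fin b → V) → Finset E)
    (hC : ∀ j ω, ∀ h h' : Fin b → V, (∀ j' ≠ j, h j' = h' j') → C j ω h = C j ω h')
    (idf : Ω → I) {K κc p : ℝ} (hκ : 0 ≤ κc) (hK : 0 ≤ K) (hp : 0 ≤ p)
    (hF : ∀ ω h, ((F ω h).card : ℝ) ≤ K)
    (hGe : ∀ e, av (fun h : Fin b → V => av (fun ω : Ω => ID (e ∈ Gn ω h))) ≤ κc)
    (hCe : ∀ j, ∀ e, av (fun h : Fin b → V => av (fun ω : Ω => ID (e ∈ C j ω h))) ≤ κc)
    (hid : ∀ ω', av (fun ω : Ω => ID (idf ω = idf ω')) ≤ κc)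
    (hS : p ≤ av (fun h : Fin b → V => av (fun ω : Ω => ID (Succ ω h))))
    (hmain : (2 * t0 : ℝ) ^ 2 * (κc * (K + 1)) < p ^ (2 * t0 ^ (b + 1))) :
    ∃ (H : Fin b → ZMod t0 → V) (ω : Bool × ZMod t0 → Ω),
      (∀ r, Succ (ω r) (hub r H)) ∧
      (∀ r s, r ≠ s → idf (ω r) ≠ idf (ω s)) ∧
      (∀ r s, r ≠ s → (∀ j : Fin b, sig t0 r j ≠ sig t0 s j) →
        Disjoint (Gn (ω r) (hub r H)) (F (ω s) (hub s H))) ∧
      (∀ r s, r ≠ s → ∀ j : Fin b, sig t0 r j = sig t0 s j →
        Disjoint (C j (ω r) (hub r H)) (F (ω s) (hub s H))) := by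
  classical
  have hcardR : Fintype.card (Bool × ZMod t0) = 2 * t0 := by
    rw [Fintype.card_prod, ZMod.card]; simp
  -- bad event of a pair
  let bad : (Bool × ZMod t0) → (Bool × ZMod t0) → (Fin b → ZMod t0 → V) →
      (Bool × ZMod t0 → Ω) → Prop := fun r s H ω =>
    r ≠ s ∧ (idf (ω r) = idf (ω s) ∨
      ((∀ j : Fin b, sig t0 r j ≠ sig t0 s j) ∧ ¬ Disjoint (Gn (ω r) (hub r H)) (F (ω s) (hub s H))) ∨
      ∃ j : Fin b, sig t0 r j = sig t0 s j ∧ ¬ Disjoint (C j (ω r) (hub r H)) (F (ω s) (hub s H)))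
  have hbad : ∀ r s, av (fun H : Fin b → ZMod t0 → V => av (fun ω : Bool × ZMod t0 → Ω =>
      ID (bad r s H ω))) ≤ κc * (K + 1) := by
    intro r s
    by_cases hrs : r = s
    · have : ∀ H ω, ID (bad r s H ω) = 0 := fun H ω => ID_false (fun h => h.1 hrs)
      simp only [this]
      rw [av_const, av_const]; positivity
    · have hidp : av (fun H : Fin b → ZMod t0 → V => av (fun ω : Bool × ZMod t0 → Ω =>
          ID (idf (ω r) = idf (ω s)))) ≤ κc := by
        rw [av_const]
        -- average over ω r first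
        have h1 : ∀ ω : Bool × ZMod t0 → Ω, ID (idf (ω r) = idf (ω s))
            = ∑ x : Ω, ID (idf (ω r) = idf x) * ID (ω s = x) := by
          intro ω
          rw [Finset.sum_eq_single (ω s)]
          · rw [ID_true (rfl : ω s = ω s), mul_one]
          · intro x _ hx
            rw [ID_false (fun h : ω s = x => hx h.symm), mul_zero]
          · intro h; exact absurd (Finset.mem_univ _) h
        simp only [h1]
        rw [av_sum]
        calc ∑ x : Ω, av (fun ω : Bool × ZMod t0 → Ω => ID (idf (ω r) = idf x) * ID (ω s = x))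
            = ∑ x : Ω, av (fun ω : Ω => ID (idf ω = idf x)) * av (fun ω : Ω => ID (ω = x)) :=
              Finset.sum_congr rfl (fun x _ => av_coord2 hrs (fun ω => ID (idf ω = idf x))
                (fun ω => ID (ω = x)))
          _ ≤ ∑ x : Ω, κc * av (fun ω : Ω => ID (ω = x)) := by
              refine Finset.sum_le_sum (fun x _ => ?_)
              exact mul_le_mul_of_nonneg_right (hid x) (av_nonneg (fun ω => ID_nonneg _))
          _ = κc * av (fun ω : Ω => ∑ x : Ω, ID (ω = x)) := by
              rw [← Finset.mul_sum, ← av_sum]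
          _ = κc := by
              have : ∀ ω : Ω, ∑ x : Ω, ID (ω = x) = 1 := by
                intro ω
                rw [Finset.sum_eq_single ω]
                · exact ID_true rfl
                · intro x _ hx; exact ID_false (fun h => hx h.symm)
                · intro h; exact absurd (Finset.mem_univ _) h
              simp only [this]
              rw [av_const, mul_one]
      by_cases hsh : ∃ j : Fin b, sig t0 r j = sig t0 s j
      · obtain ⟨j, hj⟩ := hsh
        have huniq : ∀ j', sig t0 r j' = sig t0 s j' → j' = j := fun j' hj' =>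
          share_unique hb hrs hj' hj
        have h2 := coll (Ω := Ω) (V := V) (E := E) hrs {j' | j' ≠ j}
          (fun j' hj' h => hj' (huniq j' h)) (C j) F
          (fun ω h h' hh => hC j ω h h' (fun j' hj' => hh j' hj')) hκ hF (hCe j)
        have h3 : ∀ H ω, ID (bad r s H ω) ≤ ID (idf (ω r) = idf (ω s)) +
            ID (¬ Disjoint (C j (ω r) (hub r H)) (F (ω s) (hub s H))) := by
          intro H ω
          by_cases hb1 : bad r s H ω
          · rw [ID_true hb1]
            rcases hb1.2 with h | ⟨h, -⟩ | ⟨j', hj', h⟩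
            · rw [ID_true h]; linarith [ID_nonneg (¬ Disjoint (C j (ω r) (hub r H)) (F (ω s) (hub s H)))]
            · exact absurd hj (h j)
            · have := huniq j' hj'
              subst this
              rw [ID_true h]; linarith [ID_nonneg (idf (ω r) = idf (ω s))]
          · rw [ID_false hb1]; exact add_nonneg (ID_nonneg _) (ID_nonneg _)
        calc _ ≤ av (fun H : Fin b → ZMod t0 → V => av (fun ω : Bool × ZMod t0 → Ω =>
              ID (idf (ω r) = idf (ω s)) +
              ID (¬ Disjoint (C j (ω r) (hub r H)) (F (ω s) (hub s H))))) :=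
              av_mono (fun H => av_mono (fun ω => h3 H ω))
          _ = av (fun H : Fin b → ZMod t0 → V => av (fun ω : Bool × ZMod t0 → Ω =>
              ID (idf (ω r) = idf (ω s)))) + av (fun H : Fin b → ZMod t0 → V =>
              av (fun ω : Bool × ZMod t0 → Ω =>
              ID (¬ Disjoint (C j (ω r) (hub r H)) (F (ω s) (hub s H))))) := by
              simp only [av, Finset.sum_add_distrib, add_div]
          _ ≤ κc + κc * K := add_le_add hidp h2
          _ = _ := by ring
      · push Not at hsh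
        have h2 := coll (Ω := Ω) (V := V) (E := E) hrs Set.univ
          (fun j' _ => hsh j') Gn F
          (fun ω h h' hh => by
            have : h = h' := funext (fun j => hh j (Set.mem_univ j))
            rw [this]) hκ hF hGe
        have h3 : ∀ H ω, ID (bad r s H ω) ≤ ID (idf (ω r) = idf (ω s)) +
            ID (¬ Disjoint (Gn (ω r) (hub r H)) (F (ω s) (hub s H))) := by
          intro H ω
          by_cases hb1 : bad r s H ω
          · rw [ID_true hb1]
            rcases hb1.2 with h | ⟨-, h⟩ | ⟨j', hj', h⟩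
            · rw [ID_true h]; linarith [ID_nonneg (¬ Disjoint (Gn (ω r) (hub r H)) (F (ω s) (hub s H)))]
            · rw [ID_true h]; linarith [ID_nonneg (idf (ω r) = idf (ω s))]
            · exact absurd hj' (hsh j')
          · rw [ID_false hb1]; exact add_nonneg (ID_nonneg _) (ID_nonneg _)
        calc _ ≤ av (fun H : Fin b → ZMod t0 → V => av (fun ω : Bool × ZMod t0 → Ω =>
              ID (idf (ω r) = idf (ω s)) +
              ID (¬ Disjoint (Gn (ω r) (hub r H)) (F (ω s) (hub s H))))) :=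
              av_mono (fun H => av_mono (fun ω => h3 H ω))
          _ = av (fun H : Fin b → ZMod t0 → V => av (fun ω : Bool × ZMod t0 → Ω =>
              ID (idf (ω r) = idf (ω s)))) + av (fun H : Fin b → ZMod t0 → V =>
              av (fun ω : Bool × ZMod t0 → Ω =>
              ID (¬ Disjoint (Gn (ω r) (hub r H)) (F (ω s) (hub s H))))) := by
              simp only [av, Finset.sum_add_distrib, add_div]
          _ ≤ κc + κc * K := add_le_add hidp h2
          _ = _ := by ring
  -- success
  let gbar : (Fin b → V) → ℝ := fun h => av (fun ω : Ω => ID (Succ ω h))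
  have hg0 : ∀ h, 0 ≤ gbar h := fun h => av_nonneg (fun ω => ID_nonneg _)
  have hg1 : ∀ h, gbar h ≤ 1 := fun h => av_le_one (fun ω => ID_le_one _)
  have hsucc : p ^ (2 * t0 ^ (b + 1)) ≤ av (fun H : Fin b → ZMod t0 → V =>
      av (fun ω : Bool × ZMod t0 → Ω => ∏ r, ID (Succ (ω r) (hub r H)))) := by
    have h1 : ∀ H : Fin b → ZMod t0 → V,
        av (fun ω : Bool × ZMod t0 → Ω => ∏ r, ID (Succ (ω r) (hub r H))) = ∏ r, gbar (hub r H) := by
      intro H
      exact av_pi_prod (fun r ω => ID (Succ ω (hub r H)))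
    simp only [h1]
    have hbox := box (V := V) (ι := ZMod t0) b gbar hg0
    rw [ZMod.card] at hbox
    set G : (Fin b → ZMod t0 → V) → ℝ := fun H => ∏ τ : Fin b → ZMod t0, gbar (fun j => H j (τ j)) with hG
    have hG0 : ∀ H, 0 ≤ G H := fun H => Finset.prod_nonneg (fun τ _ => hg0 _)
    have hG1 : ∀ H, G H ≤ 1 := fun H => Finset.prod_le_one (fun τ _ => hg0 _) (fun τ _ => hg1 _)
    have ht0 : 1 ≤ t0 := NeZero.one_le
    have hside : ∀ (x : Bool) (H : Fin b → ZMod t0 → V), G H ^ t0 ≤ ∏ a : ZMod t0, gbar (hub (x, a) H) := by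
      intro x H
      by_cases hb0 : b = 0
      · subst hb0
        have h2 : ∀ h h' : Fin 0 → V, h = h' := fun h h' => funext (fun j => j.elim0)
        have h3 : ∀ a : ZMod t0, gbar (hub (x, a) H) = G H := by
          intro a
          rw [hG]
          simp only
          rw [Fintype.prod_unique]
          exact congrArg gbar (h2 _ _)
        simp only [h3]
        rw [Finset.prod_const, Finset.card_univ, ZMod.card]
      · have hinj : Function.Injective (fun (a : ZMod t0) (j : Fin b) => sig t0 (x, a) j) := by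
          intro a a' haa
          have h3 := congrFun haa ⟨0, Nat.pos_of_ne_zero hb0⟩
          unfold sig at h3
          cases x <;> simpa using h3
        have h4 : ∏ a : ZMod t0, gbar (hub (x, a) H)
            = ∏ τ ∈ univ.image (fun (a : ZMod t0) (j : Fin b) => sig t0 (x, a) j),
              gbar (fun j => H j (τ j)) := by
          rw [Finset.prod_image (fun a _ a' _ h => hinj h)]
          rfl
        have h5 : G H ≤ ∏ a : ZMod t0, gbar (hub (x, a) H) := by
          rw [h4, hG]
          simp only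
          rw [← Finset.prod_mul_prod_compl (univ.image (fun (a : ZMod t0) (j : Fin b) => sig t0 (x, a) j))]
          refine mul_le_of_le_one_right (Finset.prod_nonneg (fun τ _ => hg0 _)) ?_
          exact Finset.prod_le_one (fun τ _ => hg0 _) (fun τ _ => hg1 _)
        exact (pow_le_of_le_one (hG0 H) (hG1 H) (by omega)).trans h5
    have hprod : ∀ H : Fin b → ZMod t0 → V, G H ^ (2 * t0) ≤ ∏ r, gbar (hub r H) := by
      intro H
      rw [Fintype.prod_prod_type, Fintype.prod_bool, two_mul, pow_add]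
      exact mul_le_mul (hside true H) (hside false H) (pow_nonneg (hG0 H) _)
        (Finset.prod_nonneg (fun a _ => hg0 _))
    calc p ^ (2 * t0 ^ (b + 1)) = ((p ^ (t0 ^ b))) ^ (2 * t0) := by
          rw [← pow_mul]; congr 1; ring
      _ ≤ (av gbar ^ (t0 ^ b)) ^ (2 * t0) := by gcongr
      _ ≤ (av G) ^ (2 * t0) := by
          refine pow_le_pow_left₀ (pow_nonneg (av_nonneg hg0) _) hbox _
      _ ≤ av (fun H => G H ^ (2 * t0)) := pow_av_le hG0 _
      _ ≤ _ := av_mono hprod
  -- compare
  have hbadsum : av (fun H : Fin b → ZMod t0 → V => av (fun ω : Bool × ZMod t0 → Ω =>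
      ∑ r, ∑ s, ID (bad r s H ω))) ≤ (2 * t0 : ℝ) ^ 2 * (κc * (K + 1)) := by
    have h1 : av (fun H : Fin b → ZMod t0 → V => av (fun ω : Bool × ZMod t0 → Ω =>
        ∑ r, ∑ s, ID (bad r s H ω))) = ∑ r, ∑ s, av (fun H : Fin b → ZMod t0 → V =>
          av (fun ω : Bool × ZMod t0 → Ω => ID (bad r s H ω))) := by
      have h2 : ∀ H : Fin b → ZMod t0 → V, av (fun ω : Bool × ZMod t0 → Ω =>
          ∑ r, ∑ s, ID (bad r s H ω)) = ∑ r, ∑ s, av (fun ω : Bool × ZMod t0 → Ω =>
            ID (bad r s H ω)) := by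
        intro H
        rw [av_sum]
        refine Finset.sum_congr rfl (fun r _ => ?_)
        rw [av_sum]
      simp only [h2]
      rw [av_sum]
      refine Finset.sum_congr rfl (fun r _ => ?_)
      rw [av_sum]
    rw [h1]
    calc _ ≤ ∑ r : Bool × ZMod t0, ∑ s : Bool × ZMod t0, κc * (K + 1) :=
          Finset.sum_le_sum (fun r _ => Finset.sum_le_sum (fun s _ => hbad r s))
      _ = _ := by
          rw [Finset.sum_const, Finset.sum_const, Finset.card_univ, hcardR, nsmul_eq_mul,
            nsmul_eq_mul]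
          push_cast
          ring
  have hcomp := lt_of_le_of_lt hbadsum (lt_of_lt_of_le hmain hsucc)
  obtain ⟨H, hH⟩ := exists_lt_of_av_lt hcomp
  obtain ⟨ω, hω⟩ := exists_lt_of_av_lt hH
  have hnn : ∀ r s, 0 ≤ ID (bad r s H ω) := fun r s => ID_nonneg _
  have hprodpos : 0 < ∏ r, ID (Succ (ω r) (hub r H)) :=
    lt_of_le_of_lt (Finset.sum_nonneg (fun r _ => Finset.sum_nonneg (fun s _ => hnn r s))) hω
  have hS1 : ∀ r, Succ (ω r) (hub r H) := by
    intro r
    by_contra hr
    have : ∏ r, ID (Succ (ω r) (hub r H)) = 0 := Finset.prod_eq_zero (Finset.mem_univ r) (ID_false hr)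
    linarith
  have hP1 : ∏ r, ID (Succ (ω r) (hub r H)) ≤ 1 :=
    Finset.prod_le_one (fun r _ => ID_nonneg _) (fun r _ => ID_le_one _)
  have hnb : ∀ r s, ¬ bad r s H ω := by
    intro r s hb1
    have h1 : ID (bad r s H ω) ≤ ∑ r, ∑ s, ID (bad r s H ω) :=
      (Finset.single_le_sum (f := fun s => ID (bad r s H ω)) (fun s _ => hnn r s)
        (Finset.mem_univ s)).trans (Finset.single_le_sum (f := fun r => ∑ s, ID (bad r s H ω))
        (fun r _ => Finset.sum_nonneg (fun s _ => hnn r s)) (Finset.mem_univ r))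
    rw [ID_true hb1] at h1
    linarith
  refine ⟨H, ω, hS1, ?_, ?_, ?_⟩
  · intro r s hrs h
    exact hnb r s ⟨hrs, Or.inl h⟩
  · intro r s hrs hns
    by_contra h
    exact hnb r s ⟨hrs, Or.inr (Or.inl ⟨hns, h⟩)⟩
  · intro r s hrs j hj
    by_contra h
    exact hnb r s ⟨hrs, Or.inr (Or.inr ⟨j, hj, h⟩)⟩

end

end Pool.Agent.H89.Imm
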