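import Pool.Agent.H89.Imm.Compose

set_option autoImplicit false
set_option linter.unusedSectionVars false
set_option linter.unusedVariables false
set_option linter.unusedSimpArgs false

namespace Pool.Agent.H89.Imm

open Finset SimpleGraph

/-- slowly increasing density function -/
noncomputable def psi (N δ x : ℝ) : ℝ :=
  1 + δ * (Real.log x / Real.log N) + δ * (1 - 1 / (1 + Real.log x))

lemma psi_diff {N δ x y : ℝ} (hδ : 0 ≤ δ) (hN : 1 < N) (hx : 1 ≤ x) (hxy : x ≤ y) :
    δ * Real.log (y / x) * (1 / Real.log N + 1 / (1 + Real.log y) ^ 2) ≤ psi N δ y - psi N δ x := by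
  have hlN : 0 < Real.log N := Real.log_pos hN
  have hlx : 0 ≤ Real.log x := Real.log_nonneg hx
  have hlxy : Real.log x ≤ Real.log y := Real.log_le_log (by linarith) hxy
  have hly : 0 ≤ Real.log y := hlx.trans hlxy
  have hdiv : Real.log (y / x) = Real.log y - Real.log x := Real.log_div (by linarith) (by linarith)
  rw [hdiv]
  unfold psi
  set a := Real.log x
  set c := Real.log y
  have h1 : 1 / (1 + a) - 1 / (1 + c) = (c - a) / ((1 + a) * (1 + c)) := by
    have : 1 + a ≠ 0 := by positivity
    have : 1 + c ≠ 0 := by positivity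
    field_simp
    ring
  have h2 : (c - a) / (1 + c) ^ 2 ≤ (c - a) / ((1 + a) * (1 + c)) := by
    apply div_le_div_of_nonneg_left (by linarith) (by positivity)
    nlinarith
  have h3 : 1 + δ * (c / Real.log N) + δ * (1 - 1 / (1 + c)) - (1 + δ * (a / Real.log N) + δ * (1 - 1 / (1 + a)))
      = δ * ((c - a) / Real.log N + (1 / (1 + a) - 1 / (1 + c))) := by
    field_simp
    ring
  rw [h3, h1]
  have h4 : δ * (c - a) * (1 / Real.log N + 1 / (1 + c) ^ 2) = δ * ((c - a) / Real.log N + (c - a) / (1 + c) ^ 2) := by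
    ring
  rw [h4]
  gcongr

lemma psi_mono {N δ x y : ℝ} (hδ : 0 ≤ δ) (hN : 1 < N) (hx : 1 ≤ x) (hxy : x ≤ y) :
    psi N δ x ≤ psi N δ y := by
  have h := psi_diff hδ hN hx hxy
  have h1 : 0 ≤ Real.log (y / x) := Real.log_nonneg (by rw [le_div_iff₀ (by linarith)]; linarith)
  have h2 : 0 < Real.log N := Real.log_pos hN
  have : 0 ≤ δ * Real.log (y / x) * (1 / Real.log N + 1 / (1 + Real.log y) ^ 2) := by positivity
  linarith

lemma psi_ge {N δ x : ℝ} (hδ : 0 ≤ δ) (hN : 1 < N) (hx : 1 ≤ x) : 1 ≤ psi N δ x := by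
  have h := psi_mono hδ hN le_rfl hx
  have : psi N δ 1 = 1 := by unfold psi; simp
  linarith

lemma psi_le {N δ x : ℝ} (hδ : 0 ≤ δ) (hN : 1 < N) (hx : 1 ≤ x) (hxN : x ≤ N) :
    psi N δ x ≤ 1 + 2 * δ := by
  have hlN : 0 < Real.log N := Real.log_pos hN
  have hlx : 0 ≤ Real.log x := Real.log_nonneg hx
  have hlxy : Real.log x ≤ Real.log N := Real.log_le_log (by linarith) hxN
  unfold psi
  have h1 : Real.log x / Real.log N ≤ 1 := by rw [div_le_one hlN]; exact hlxy
  have h2 : 0 ≤ 1 / (1 + Real.log x) := by positivity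
  have h3 : δ * (Real.log x / Real.log N) ≤ δ * 1 := by gcongr
  have h4 : δ * (1 - 1 / (1 + Real.log x)) ≤ δ * 1 := by gcongr; linarith
  linarith

variable {V : Type*} [DecidableEq V] [Fintype V]

lemma ec_split (G : SimpleGraph V) (X : Finset V) :
    ec G univ univ = ec G X X + ec G Xᶜ Xᶜ + 2 * cut G X := by
  have h1 : ec G univ univ = vol G X + vol G Xᶜ := by
    unfold vol
    rw [← ec_union_left G disjoint_compl_right, Finset.union_compl]
  rw [h1, vol_eq, vol_eq]
  have h2 : cut G Xᶜ = cut G X := by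
    unfold cut; rw [compl_compl, ec_comm]
  rw [h2]; ring

/-- a minimal dense piece of `G` -/
theorem extremal (G : SimpleGraph V) {a δ : ℝ} (ha : 0 < a) (hδ : 0 < δ)
    (hn : 2 ≤ Fintype.card V) (hG : a * Fintype.card V ≤ ec G univ univ) :
    ∃ W : Finset V, W.Nonempty ∧ ∃ H : SimpleGraph W, H ≤ G.comap (fun x : W => (x : V)) ∧
      (∀ X : Finset W, (ec H X X : ℝ) ≤ (a + 2) * X.card) ∧
      (∀ X : Finset W, a / (1 + 2 * δ) * (Fintype.card W - X.card) ≤ (ec H univ univ : ℝ) - ec H X X) ∧
      (∀ X : Finset W, ∀ q : ℝ, 1 < q → X.card * q ≤ Fintype.card W →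
        a / (1 + 2 * δ) / 2 * (δ * Real.log q * (1 / Real.log (Fintype.card V) +
          1 / (1 + Real.log (Fintype.card W)) ^ 2)) * X.card ≤ cut H X) := by
  classical
  set n : ℝ := ((Fintype.card V : ℕ) : ℝ) with hn'
  set lam : ℝ := a / (1 + 2 * δ) with hlam
  have hlam0 : 0 < lam := by rw [hlam]; positivity
  have hn1 : (1 : ℝ) < n := by
    rw [hn']; exact_mod_cast (by omega : 1 < Fintype.card V)
  have hlama : lam * (1 + 2 * δ) = a := by
    rw [hlam]; field_simp
  let th : ℕ → ℝ := fun x => lam * x * psi n δ x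
  have hth_ub : ∀ x : ℕ, 1 ≤ x → x ≤ Fintype.card V → th x ≤ a * x := by
    intro x h1 h2
    have h3 : psi n δ x ≤ 1 + 2 * δ := psi_le hδ.le hn1 (by exact_mod_cast h1)
      (by rw [hn']; exact_mod_cast h2)
    calc th x = lam * x * psi n δ x := rfl
      _ ≤ lam * x * (1 + 2 * δ) := by gcongr
      _ = (lam * (1 + 2 * δ)) * x := by ring
      _ = a * x := by rw [hlama]
  -- minimal `W`
  have hex : (univ.filter (fun W : Finset V => W.Nonempty ∧ th W.card ≤ ec G W W)).Nonempty := by
    refine ⟨univ, ?_⟩
    rw [Finset.mem_filter]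
    refine ⟨Finset.mem_univ _, ?_, ?_⟩
    · rw [← Finset.card_pos, Finset.card_univ]; omega
    · rw [Finset.card_univ]
      exact (hth_ub _ (by omega) le_rfl).trans hG
  obtain ⟨W, hW, hmin⟩ := Finset.exists_min_image _ (fun W : Finset V => W.card) hex
  rw [Finset.mem_filter] at hW
  obtain ⟨-, hWne, hWth⟩ := hW
  have hsmall : ∀ X : Finset V, X.Nonempty → X.card < W.card → (ec G X X : ℝ) < th X.card := by
    intro X hX hXW
    by_contra hcon
    push Not at hcon
    have := hmin X (by rw [Finset.mem_filter]; exact ⟨Finset.mem_univ _, hX, hcon⟩)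
    omega
  set m : ℕ := Fintype.card W with hm
  have hmW : m = W.card := by rw [hm, Fintype.card_coe]
  have hm1 : 1 ≤ m := by rw [hmW]; exact hWne.card_pos
  have hmn : m ≤ Fintype.card V := by rw [hmW]; exact Finset.card_le_univ W
  let φ : W → V := fun x => (x : V)
  have hφ : Function.Injective φ := Subtype.val_injective
  have himg : ∀ X : Finset W, (X.image φ).card = X.card := fun X =>
    Finset.card_image_of_injective X hφ
  have hecle : ∀ (H : SimpleGraph W), H ≤ G.comap φ → ∀ X Y : Finset W,
      ec H X Y ≤ ec G (X.image φ) (Y.image φ) := by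
    intro H hH X Y
    unfold ec
    refine Finset.card_le_card_of_injOn (fun p => (φ p.1, φ p.2)) ?_ ?_
    · rintro ⟨x, y⟩ hp
      rw [Finset.mem_coe, mem_prs] at hp
      rw [Finset.mem_coe]
      show (φ x, φ y) ∈ _
      rw [mem_prs]
      exact ⟨Finset.mem_image_of_mem φ hp.1, Finset.mem_image_of_mem φ hp.2.1, hH hp.2.2⟩
    · rintro ⟨x, y⟩ _ ⟨x', y'⟩ _ h
      simp only [Prod.mk.injEq] at h
      rw [hφ h.1, hφ h.2]
  -- minimal `H`
  have hexH : (univ.filter (fun H : SimpleGraph W => H ≤ G.comap φ ∧ th m ≤ ec H univ univ)).Nonempty := by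
    refine ⟨G.comap φ, ?_⟩
    rw [Finset.mem_filter]
    refine ⟨Finset.mem_univ _, le_rfl, ?_⟩
    have h1 : ec (G.comap φ) univ univ = ec G W W := by
      unfold ec
      refine Finset.card_bij (fun p _ => (φ p.1, φ p.2)) ?_ ?_ ?_
      · rintro ⟨x, y⟩ hp
        rw [mem_prs] at hp ⊢
        exact ⟨x.2, y.2, hp.2.2⟩
      · rintro ⟨x, y⟩ _ ⟨x', y'⟩ _ h
        simp only [Prod.mk.injEq] at h
        rw [hφ h.1, hφ h.2]
      · rintro ⟨x, y⟩ hp
        rw [mem_prs] at hp
        refine ⟨(⟨x, hp.1⟩, ⟨y, hp.2.1⟩), ?_, rfl⟩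
        rw [mem_prs]
        exact ⟨Finset.mem_univ _, Finset.mem_univ _, hp.2.2⟩
    rw [h1, hmW]; exact hWth
  obtain ⟨H, hH, hminH⟩ := Finset.exists_min_image _ (fun H : SimpleGraph W => ec H univ univ) hexH
  rw [Finset.mem_filter] at hH
  obtain ⟨-, hHG, hHth⟩ := hH
  have hthm0 : 0 ≤ th m := by
    have : 1 ≤ psi n δ m := psi_ge hδ.le hn1 (by exact_mod_cast hm1)
    simp only [th]; positivity
  have hHub : (ec H univ univ : ℝ) ≤ th m + 2 := by
    by_contra hcon
    push Not at hcon
    have hpos : 0 < H.edgeSet.ncard := by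
      have h1 := ec_univ H
      have h2 : (0 : ℝ) < ec H univ univ := by linarith
      have h3 : 0 < ec H univ univ := by exact_mod_cast h2
      omega
    obtain ⟨e, he⟩ := (Set.ncard_pos (Set.toFinite _)).1 hpos
    set H' := H.deleteEdges {e} with hH'
    have h1 : ec H' univ univ + 2 = ec H univ univ := by
      rw [ec_univ, ec_univ, hH', SimpleGraph.edgeSet_deleteEdges,
        Set.ncard_sdiff_singleton_of_mem he]
      omega
    have h2 := hminH H' (by
      rw [Finset.mem_filter]
      refine ⟨Finset.mem_univ _, (SimpleGraph.deleteEdges_le _).trans hHG, ?_⟩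
      have h3 : (ec H' univ univ : ℝ) + 2 = ec H univ univ := by exact_mod_cast h1
      linarith)
    omega
  have hproper : ∀ X : Finset W, X.Nonempty → X.card < m → (ec H X X : ℝ) < th X.card := by
    intro X hX hXm
    have h1 := hecle H hHG X X
    have h2 := hsmall (X.image φ) (hX.image φ) (by rw [himg]; omega)
    rw [himg] at h2
    have h3 : (ec H X X : ℝ) ≤ ec G (X.image φ) (X.image φ) := by exact_mod_cast h1
    linarith
  have hfull : ∀ X : Finset W, X.card = m → X = univ := by
    intro X hX
    exact (Finset.card_eq_iff_eq_univ X).1 hX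
  have hcardle : ∀ X : Finset W, X.card ≤ m := fun X => Finset.card_le_univ X
  refine ⟨W, hWne, H, hHG, ?_, ?_, ?_⟩
  · intro X
    rcases Finset.eq_empty_or_nonempty X with rfl | hX
    · have : ec H ∅ ∅ = 0 := by
        unfold ec; rw [Finset.card_eq_zero]; ext ⟨x, y⟩; simp [mem_prs]
      rw [this]; simp
    · have hX1 : (1 : ℝ) ≤ X.card := by exact_mod_cast hX.card_pos
      rcases lt_or_eq_of_le (hcardle X) with h | h
      · have h1 := hproper X hX h
        have h2 := hth_ub X.card hX.card_pos (by omega)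
        linarith
      · have hXu := hfull X h
        subst hXu
        have h2 := hth_ub m hm1 hmn
        rw [h] at hX1 ⊢
        linarith
  · intro X
    rcases Finset.eq_empty_or_nonempty X with rfl | hX
    · have : ec H ∅ ∅ = 0 := by
        unfold ec; rw [Finset.card_eq_zero]; ext ⟨x, y⟩; simp [mem_prs]
      rw [this]
      have h1 : 1 ≤ psi n δ m := psi_ge hδ.le hn1 (by exact_mod_cast hm1)
      have h2 : lam * m * 1 ≤ lam * m * psi n δ m := by gcongr
      simp only [Finset.card_empty, Nat.cast_zero, sub_zero]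
      simp only [th] at hHth
      linarith
    · rcases lt_or_eq_of_le (hcardle X) with h | h
      · have h1 := hproper X hX h
        have hx1 : (1 : ℝ) ≤ X.card := by exact_mod_cast hX.card_pos
        have hxm : (X.card : ℝ) ≤ m := by exact_mod_cast h.le
        have h2 : psi n δ X.card ≤ psi n δ m := psi_mono hδ.le hn1 hx1 hxm
        have h3 : 1 ≤ psi n δ m := psi_ge hδ.le hn1 (by exact_mod_cast hm1)
        have h4 : lam * X.card * psi n δ X.card ≤ lam * X.card * psi n δ m := by gcongr
        have h5 : lam * (m - X.card) * 1 ≤ lam * (m - X.card) * psi n δ m := by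
          have : 0 ≤ lam * ((m : ℝ) - X.card) := mul_nonneg hlam0.le (by linarith)
          gcongr
        simp only [th] at hHth h1
        have h6 : lam * m * psi n δ m = lam * X.card * psi n δ m + lam * (m - X.card) * psi n δ m := by ring
        linarith
      · have hXu := hfull X h
        subst hXu
        have h7 : ((Fintype.card W : ℕ) : ℝ) - ((univ : Finset W).card : ℝ) = 0 := by
          rw [Finset.card_univ]; ring
        rw [h7]; simp
  · intro X q hq hXq
    rcases Finset.eq_empty_or_nonempty X with rfl | hX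
    · simp
    · have hx1 : (1 : ℝ) ≤ X.card := by exact_mod_cast hX.card_pos
      have hxm : (X.card : ℝ) < m := by nlinarith
      have hxm' : X.card < m := by exact_mod_cast hxm
      have hc1 : (Xᶜ).card = m - X.card := by rw [Finset.card_compl]
      have hcne : (Xᶜ).Nonempty := by rw [← Finset.card_pos, hc1]; omega
      have h1 := hproper X hX hxm'
      have h2 := hproper Xᶜ hcne (by rw [hc1]; have := hX.card_pos; omega)
      have h3 : (ec H univ univ : ℝ) = ec H X X + ec H Xᶜ Xᶜ + 2 * cut H X := by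
        exact_mod_cast ec_split H X
      have hcr : ((Xᶜ).card : ℝ) = m - X.card := by rw [hc1, Nat.cast_sub hxm'.le]
      have h4 : psi n δ (Xᶜ).card ≤ psi n δ m := by
        apply psi_mono hδ.le hn1
        · exact_mod_cast hcne.card_pos
        · rw [hcr]; linarith
      have h5 := psi_diff hδ.le hn1 hx1 hxm.le
      have hql : Real.log q ≤ Real.log ((m : ℝ) / X.card) := by
        apply Real.log_le_log (by linarith)
        rw [le_div_iff₀ (by linarith)]
        linarith
      have hlogn : 0 < Real.log n := Real.log_pos hn1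
      have h6 : δ * Real.log q * (1 / Real.log n + 1 / (1 + Real.log m) ^ 2) ≤
          psi n δ m - psi n δ X.card := by
        refine le_trans ?_ h5
        gcongr
      simp only [th] at hHth h1 h2
      have h7 : lam * (Xᶜ).card * psi n δ (Xᶜ).card ≤ lam * (Xᶜ).card * psi n δ m := by gcongr
      rw [hcr] at h7 h2
      have h8 : lam * m * psi n δ m = lam * X.card * psi n δ m + lam * (m - X.card) * psi n δ m := by ring
      have h9 : lam * X.card * (δ * Real.log q * (1 / Real.log n + 1 / (1 + Real.log m) ^ 2)) ≤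
          lam * X.card * (psi n δ m - psi n δ X.card) := by gcongr
      have h10 : lam * X.card * (psi n δ m - psi n δ X.card) ≤ 2 * cut H X := by
        have : lam * X.card * (psi n δ m - psi n δ X.card) =
          lam * X.card * psi n δ m - lam * X.card * psi n δ X.card := by ring
        linarith
      have h11 : lam / 2 * (δ * Real.log q * (1 / Real.log n + 1 / (1 + Real.log m) ^ 2)) * X.card
          = (lam * X.card * (δ * Real.log q * (1 / Real.log n + 1 / (1 + Real.log m) ^ 2))) / 2 := by ring
      rw [h11]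
      linarith

end Pool.Agent.H89.Imm
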