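import Pool.Agent.H89.Imm.Finish
import Pool.Agent.H89.Imm.Extremal

set_option autoImplicit false
set_option linter.unusedSectionVars false
set_option linter.unusedVariables false
set_option linter.unusedSimpArgs false

namespace Pool.Agent.H89.Imm

open Finset SimpleGraph

variable {V : Type*} [DecidableEq V] [Fintype V]

lemma ec_biUnion (H : SimpleGraph V) (PP : Finset (Finset V))
    (hPP : ∀ P ∈ PP, ∀ Q ∈ PP, P ≠ Q → Disjoint P Q) (Y : Finset V) :
    ec H (PP.biUnion id) Y = ∑ P ∈ PP, ec H P Y := by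
  classical
  have h1 : prs H (PP.biUnion id) Y = PP.biUnion (fun P => prs H P Y) := by
    ext ⟨x, z⟩
    rw [mem_prs, Finset.mem_biUnion, Finset.mem_biUnion]
    constructor
    · rintro ⟨⟨P, hP, hx⟩, hz, hxz⟩
      exact ⟨P, hP, mem_prs.2 ⟨hx, hz, hxz⟩⟩
    · rintro ⟨P, hP, h⟩
      rw [mem_prs] at h
      exact ⟨⟨P, hP, h.1⟩, h.2.1, h.2.2⟩
  unfold ec
  rw [h1, Finset.card_biUnion]
  intro P hP Q hQ hne
  show Disjoint (prs H P Y) (prs H Q Y)
  rw [Finset.disjoint_left]
  rintro ⟨x, z⟩ h h'
  rw [mem_prs] at h h'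
  exact Finset.disjoint_left.1 (hPP P hP Q hQ hne) h.1 h'.1

/-- both cases of the argument -/
theorem core {k : ℕ} {d0 y lam : ℝ} (hd0 : 0 ≤ d0) (hk : ImmProp k d0) (hyd : d0 < y) (hlam : y < lam)
    (H : SimpleGraph V) {M B q a s L t0 : ℕ} {κ K1 : ℝ} (hκ : 0 < κ) (hκ1 : κ ≤ 1) (hu : 1 / κ ≤ q)
    (hK1 : 0 ≤ K1) (hu2 : K1 + 3 ≤ q) (hBq : B + 1 ≤ q)
    (hexp : ∀ X : Finset V, X.card ≤ M → 2 * κ * X.card ≤ cut H X)
    (hin : ∀ X : Finset V, (ec H X X : ℝ) ≤ K1 * X.card)
    (hdens : ∀ X : Finset V, lam * (Fintype.card V - X.card) ≤ (ec H univ univ : ℝ) - ec H X X)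
    (hM : M = Fintype.card V / q)
    (ha : a = (2 * B + 1) * (2 * t0 ^ (B + 1)) + 4)
    (hq5 : 5 ≤ q) (hqt : (2 * t0) ^ 2 ≤ q) (hqK : (B + 1) * (B * L + 6 * (B * L) ^ 2) + 1 ≤ q)
    (hsq : s ≤ q) (hs1 : 1 ≤ s) (hyB : y ≤ B) (hsB : (B : ℝ) ≤ 2 * κ * s)
    (hgap : d0 * B < (y - d0) * (2 * t0)) (hlamq : 2 ≤ (lam - y) * q) (hwq : K1 * s + 2 * B ≤ q)
    (hL : K1 * Fintype.card V < (1 + κ / (2 * (K1 + 1) * (B + 1))) ^ L)
    [NeZero t0] (hBt : B ≤ t0)
    (hm : q ^ ((2 * a + 8) * (B + 1) + 6 + a) ≤ Fintype.card V) :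
    ∃ U : Finset V, U.card ≤ 2 * t0 * s + B + 2 * t0 * B * (B * L + 1) ∧ ImmIn k H U := by
  classical
  have hpm : ∀ i j, i ≤ j → q ^ i ≤ q ^ j := fun i j h => Nat.pow_le_pow_right (by omega) h
  have hm8 : q ^ (a + 8) ≤ Fintype.card V := by
    refine le_trans (hpm _ _ ?_) hm
    nlinarith [Nat.zero_le (a * B), Nat.zero_le B]
  have hcardpos : 0 < Fintype.card V := lt_of_lt_of_le (by positivity) hm8
  have hneV : Nonempty V := Fintype.card_pos_iff.1 hcardpos
  have hMlow : q ^ (a + 7) ≤ M := by
    rw [hM, Nat.le_div_iff_mul_le (by omega)]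
    calc q ^ (a + 7) * q = q ^ (a + 8) := by ring
      _ ≤ _ := hm8
  have hM2q : 2 * q ≤ M := by
    have h1 : q ^ 2 ≤ q ^ (a + 7) := hpm _ _ (by omega)
    nlinarith
  have hM1 : 1 ≤ M := by omega
  set V1 : Finset V := univ.filter (fun v => ∀ X : Finset V, v ∈ X → X.card ≤ M → B ≤ cut H X) with hV1
  have hV1mem : ∀ v, v ∈ V1 ↔ ∀ X : Finset V, v ∈ X → X.card ≤ M → B ≤ cut H X := by
    intro v; rw [hV1, Finset.mem_filter]; simp
  have hBpos : (0 : ℝ) < B := lt_of_lt_of_le (lt_of_le_of_lt hd0 hyd) hyB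
  by_cases hcase : q ^ (2 * a + 8) ≤ V1.card
  · -- many vertices of large edge-connectivity
    obtain ⟨U, hU1, hU2⟩ := finish (y := y) hd0 hk H (M := M) (B := B) (b := B) (q := q) (a := a) (s := s)
      (L := L) (t0 := t0) hκ hκ1 hu hK1 hu2 hBq hexp hin hM ha hq5 hqt hqK hsq hm8
      (𝓕 := V1) (fun v => {(v : V)}) (fun v => {s((v : V), (v : V))}) (fun v => (v : V)) (fun _ => B)
      (fun v => ⟨by simp, le_rfl, fun X hX hXM => (hV1mem v).1 v.2 X hX hXM, fun D X hX => by
        refine Nat.add_le_add_right ?_ _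
        apply cut_mono_graph
        intro x z hxz
        rw [SimpleGraph.deleteEdges_adj] at hxz ⊢
        refine ⟨hxz.1, ?_⟩
        rintro (h | h)
        · exact hxz.2 h
        · simp only [Finset.coe_singleton, Set.mem_singleton_iff] at h
          rw [Sym2.eq_iff] at h
          have hne := hxz.1.ne
          rcases h with ⟨h1, h2⟩ | ⟨h1, h2⟩
          · exact hne (h1.trans h2.symm)
          · exact hne (h1.trans h2.symm)⟩)
      (fun i j hij => by
        rw [Finset.disjoint_singleton]
        exact fun h => hij (Subtype.ext h)) le_rfl (fun i => by simpa using hs1) hL hBt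
      (by rw [Fintype.card_coe]; exact hcase) ∅ (fun i => Finset.disjoint_empty_right _)
      (fun i x hx z hz => by
        rw [Finset.mem_singleton] at hx ⊢
        rcases hz with hz | hz
        · rw [Finset.mem_singleton] at hz
          rw [hx, hz]
        · exact absurd hz (Finset.notMem_empty z))
      (fun i => by
        have h1 : (0 : ℝ) ≤ ec H {(i : V)} {(i : V)} := Nat.cast_nonneg _
        have h2 : (0 : ℝ) ≤ ec H {(i : V)} ∅ := Nat.cast_nonneg _
        rw [Finset.card_singleton]
        push_cast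
        linarith)
      (by
        simp only [Finset.card_empty, Nat.cast_zero, mul_zero]
        have : 0 ≤ d0 * B := by positivity
        linarith) hyd.le
    refine ⟨U, hU1.trans ?_, hU2⟩
    rw [Finset.card_empty]
    omega
  · -- few such vertices: clusters
    push Not at hcase
    have hsmall : ∀ X : Finset V, X.card ≤ M → cut H X < B → X.card ≤ s := by
      intro X hX hcut
      have h1 := hexp X hX
      have h2 : (cut H X : ℝ) < B := by exact_mod_cast hcut
      have h3 : 2 * κ * (X.card : ℝ) < 2 * κ * s := by linarith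
      have h4 : (X.card : ℝ) < s := lt_of_mul_lt_mul_left h3 (by positivity)
      exact_mod_cast h4.le
    obtain ⟨PP, hP1, hP2, hP3⟩ := clusters H hM1 hsmall (by omega) V1 hV1mem
    have hPV1 : ∀ P ∈ PP, Disjoint P V1 := fun P hP => (hP1 P hP).2.2.1
    have hR : PP.biUnion id = V1ᶜ := by
      ext x
      rw [Finset.mem_biUnion, Finset.mem_compl]
      constructor
      · rintro ⟨P, hP, hx⟩ hx1
        exact Finset.disjoint_left.1 (hPV1 P hP) hx hx1
      · intro hx
        obtain ⟨P, hP, hxP⟩ := hP2 x hx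
        exact ⟨P, hP, hxP⟩
    -- weights
    let b2 : Finset V → ℕ := fun P => ec H P (V1ᶜ \ P)
    let w2 : Finset V → ℕ := fun P => ec H P P + 2 * ec H P V1 + b2 P
    have hPsub : ∀ P ∈ PP, P ⊆ V1ᶜ := by
      intro P hP x hx
      rw [Finset.mem_compl]
      exact Finset.disjoint_left.1 (hPV1 P hP) hx
    have hcutP : ∀ P ∈ PP, cut H P = ec H P V1 + b2 P := by
      intro P hP
      have h1 : Pᶜ = V1 ∪ (V1ᶜ \ P) := by
        ext x
        rw [Finset.mem_compl, Finset.mem_union, Finset.mem_sdiff, Finset.mem_compl]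
        constructor
        · intro hx
          by_cases hx1 : x ∈ V1
          · left; exact hx1
          · right; exact ⟨hx1, hx⟩
        · rintro (hx | hx) hxP
          · exact Finset.disjoint_left.1 (hPV1 P hP) hxP hx
          · exact hx.2 hxP
      unfold cut
      rw [h1, ec_union_right]
      rw [Finset.disjoint_left]
      intro x hx hx'
      rw [Finset.mem_sdiff, Finset.mem_compl] at hx'
      exact hx'.1 hx
    have hsumw : ∑ P ∈ PP, w2 P + ec H V1 V1 = ec H univ univ := by
      have h1 := ec_split H V1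
      have h2 : cut H V1 = ∑ P ∈ PP, ec H P V1 := by
        unfold cut
        rw [ec_comm, ← hR, ec_biUnion H PP hP3]
      have h3 : ec H V1ᶜ V1ᶜ = ∑ P ∈ PP, (ec H P P + b2 P) := by
        have : ec H V1ᶜ V1ᶜ = ∑ P ∈ PP, ec H P V1ᶜ := by
          conv_lhs => rw [← hR]
          rw [ec_biUnion H PP hP3, hR]
        rw [this]
        refine Finset.sum_congr rfl (fun P hP => ?_)
        have h4 : V1ᶜ = P ∪ (V1ᶜ \ P) := by
          rw [Finset.union_sdiff_of_subset (hPsub P hP)]
        conv_lhs => rw [h4]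
        rw [ec_union_right H P Finset.disjoint_sdiff]
      rw [h1, h2, h3]
      simp only [w2, Finset.sum_add_distrib, ← Finset.mul_sum]
      ring
    have hsumcard : ∑ P ∈ PP, P.card + V1.card = Fintype.card V := by
      have h1 : (PP.biUnion id).card = ∑ P ∈ PP, P.card := Finset.card_biUnion hP3
      rw [← h1, hR, Finset.card_compl]
      have := Finset.card_le_univ V1
      omega
    have hw2q : ∀ P ∈ PP, w2 P ≤ q := by
      intro P hP
      have h1 := hcutP P hP
      have h2 := (hP1 P hP).2.1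
      have h3 := hin P
      have h4 : (P.card : ℝ) ≤ s := by exact_mod_cast (hP1 P hP).1
      have h5 : K1 * (P.card : ℝ) ≤ K1 * s := by gcongr
      have h6 : 2 * ec H P V1 + b2 P ≤ 2 * B := by omega
      have h7 : (2 * (ec H P V1 : ℝ) + b2 P) ≤ 2 * B := by exact_mod_cast h6
      have h8 : (w2 P : ℝ) ≤ q := by
        simp only [w2]
        push_cast
        linarith
      exact_mod_cast h8
    -- good clusters
    set G : Finset (Finset V) := PP.filter (fun P => y * (P.card : ℝ) ≤ w2 P) with hG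
    have hGcard : Fintype.card V ≤ G.card * q ^ 2 := by
      have hV1r : (V1.card : ℝ) ≤ (Fintype.card V : ℝ) / 2 := by
        have h1 : 2 * V1.card ≤ Fintype.card V := by
          have h2 : 5 * q ^ (2 * a + 8) ≤ q ^ (2 * a + 9) := by
            calc 5 * q ^ (2 * a + 8) ≤ q * q ^ (2 * a + 8) := Nat.mul_le_mul_right _ hq5
              _ = q ^ (2 * a + 9) := by ring
          have h3 : q ^ (2 * a + 9) ≤ q ^ ((2 * a + 8) * (B + 1) + 6 + a) :=
            hpm _ _ (by nlinarith [Nat.zero_le (a * B), Nat.zero_le B])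
          omega
        have h2 : (2 * (V1.card : ℝ)) ≤ Fintype.card V := by exact_mod_cast h1
        linarith
      have h1 : (∑ P ∈ PP, (w2 P : ℝ)) = (ec H univ univ : ℝ) - ec H V1 V1 := by
        have : ((∑ P ∈ PP, w2 P + ec H V1 V1 : ℕ) : ℝ) = ec H univ univ := by rw [hsumw]
        push_cast at this
        linarith
      have h2 := hdens V1
      have h3 : (∑ P ∈ PP, (P.card : ℝ)) = (Fintype.card V : ℝ) - V1.card := by
        have : ((∑ P ∈ PP, P.card + V1.card : ℕ) : ℝ) = Fintype.card V := by rw [hsumcard]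
        push_cast at this
        linarith
      have h4 : (∑ P ∈ PP, (w2 P : ℝ)) = ∑ P ∈ G, (w2 P : ℝ) +
          ∑ P ∈ PP.filter (fun P => ¬ y * (P.card : ℝ) ≤ w2 P), (w2 P : ℝ) := by
        rw [hG, Finset.sum_filter_add_sum_filter_not]
      have hy0 : 0 ≤ y := by linarith
      have h5 : ∑ P ∈ PP.filter (fun P => ¬ y * (P.card : ℝ) ≤ w2 P), (w2 P : ℝ) ≤
          y * ((Fintype.card V : ℝ) - V1.card) := by
        rw [← h3, Finset.mul_sum]
        calc ∑ P ∈ PP.filter (fun P => ¬ y * (P.card : ℝ) ≤ w2 P), (w2 P : ℝ)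
            ≤ ∑ P ∈ PP.filter (fun P => ¬ y * (P.card : ℝ) ≤ w2 P), y * (P.card : ℝ) := by
              refine Finset.sum_le_sum (fun P hP => ?_)
              rw [Finset.mem_filter] at hP
              push Not at hP
              exact hP.2.le
          _ ≤ ∑ P ∈ PP, y * (P.card : ℝ) :=
              Finset.sum_le_sum_of_subset_of_nonneg (Finset.filter_subset _ _)
                (fun P _ _ => by positivity)
      have h6 : ∑ P ∈ G, (w2 P : ℝ) ≤ G.card * q := by
        calc ∑ P ∈ G, (w2 P : ℝ) ≤ ∑ P ∈ G, (q : ℝ) := by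
              refine Finset.sum_le_sum (fun P hP => ?_)
              rw [hG, Finset.mem_filter] at hP
              exact_mod_cast hw2q P hP.1
          _ = G.card * q := by rw [Finset.sum_const, nsmul_eq_mul]
      have h7 : (lam - y) * ((Fintype.card V : ℝ) / 2) ≤ G.card * q := by
        have h8 : (lam - y) * ((Fintype.card V : ℝ) / 2) ≤ (lam - y) * ((Fintype.card V : ℝ) - V1.card) := by
          have : 0 ≤ lam - y := by linarith
          gcongr
          linarith
        linarith
      have h8 : (Fintype.card V : ℝ) ≤ G.card * q ^ 2 := by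
        have hq0 : (0 : ℝ) ≤ q := Nat.cast_nonneg q
        have h9 : (lam - y) * ((Fintype.card V : ℝ) / 2) * q ≤ G.card * q * q := by gcongr
        have h10 : 2 * ((Fintype.card V : ℝ) / 2) ≤ ((lam - y) * q) * ((Fintype.card V : ℝ) / 2) := by gcongr
        nlinarith
      exact_mod_cast h8
    -- pigeonhole
    let Γf : Finset V → Finset V := fun P => V1.filter (fun z => ∃ x ∈ P, H.Adj x z)
    have hΓcard : ∀ P ∈ PP, (Γf P).card < B := by
      intro P hP
      have h1 : (Γf P).card ≤ ec H P V1 := by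
        have h2 : ∀ z ∈ Γf P, ∃ x, x ∈ P ∧ H.Adj x z := by
          intro z hz
          rw [Finset.mem_filter] at hz
          exact hz.2
        choose! x hx1 hx2 using h2
        unfold ec
        refine Finset.card_le_card_of_injOn (fun z => (x z, z)) ?_ ?_
        · intro z hz
          rw [Finset.mem_coe, mem_prs]
          exact ⟨hx1 z hz, (Finset.mem_filter.1 hz).1, hx2 z hz⟩
        · intro z _ z' _ h
          simp only [Prod.mk.injEq] at h
          exact h.2
      have h2 := hcutP P hP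
      have h3 := (hP1 P hP).2.1
      omega
    let tt : Finset (ℕ × Finset V) := (range B) ×ˢ ((range B).biUnion (fun j => V1.powersetCard j))
    have htt : tt.card ≤ q ^ 2 * (q ^ (2 * a + 8)) ^ B := by
      simp only [tt]
      rw [Finset.card_product, Finset.card_range]
      have h1 : ((range B).biUnion (fun j => V1.powersetCard j)).card ≤ B * (q ^ (2 * a + 8)) ^ B := by
        refine Finset.card_biUnion_le.trans ?_
        calc ∑ j ∈ range B, (V1.powersetCard j).card ≤ ∑ j ∈ range B, (q ^ (2 * a + 8)) ^ B := by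
              refine Finset.sum_le_sum (fun j hj => ?_)
              rw [Finset.mem_range] at hj
              rw [Finset.card_powersetCard]
              calc V1.card.choose j ≤ V1.card ^ j := Nat.choose_le_pow _ _
                _ ≤ (q ^ (2 * a + 8)) ^ j := Nat.pow_le_pow_left hcase.le _
                _ ≤ (q ^ (2 * a + 8)) ^ B :=
                  Nat.pow_le_pow_right (Nat.one_le_pow _ _ (by omega)) hj.le
          _ = B * (q ^ (2 * a + 8)) ^ B := by rw [Finset.sum_const, Finset.card_range, smul_eq_mul]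
      calc B * ((range B).biUnion (fun j => V1.powersetCard j)).card
          ≤ B * (B * (q ^ (2 * a + 8)) ^ B) := Nat.mul_le_mul_left _ h1
        _ = (B * B) * (q ^ (2 * a + 8)) ^ B := by ring
        _ ≤ q ^ 2 * (q ^ (2 * a + 8)) ^ B := by
            apply Nat.mul_le_mul_right
            nlinarith
    have hmaps : ∀ P ∈ G, (b2 P, Γf P) ∈ tt := by
      intro P hP
      rw [hG, Finset.mem_filter] at hP
      have h1 := hcutP P hP.1
      have h2 := (hP1 P hP.1).2.1
      simp only [tt, Finset.mem_product, Finset.mem_range, Finset.mem_biUnion, Finset.mem_powersetCard]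
      exact ⟨by omega, _, hΓcard P hP.1, Finset.filter_subset _ _, rfl⟩
    have hGbig : q ^ 2 * (q ^ (2 * a + 8)) ^ B * q ^ (2 * a + 8) ≤ G.card := by
      have h1 : q ^ 2 * (q ^ (2 * a + 8)) ^ B * q ^ (2 * a + 8) * q ^ 2 ≤ G.card * q ^ 2 := by
        refine le_trans ?_ hGcard
        refine le_trans ?_ hm
        have : q ^ 2 * (q ^ (2 * a + 8)) ^ B * q ^ (2 * a + 8) * q ^ 2 = q ^ ((2 * a + 8) * (B + 1) + 4) := by
          rw [← pow_mul, ← pow_add, ← pow_add, ← pow_add]
          congr 1; ring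
        rw [this]
        exact hpm _ _ (by omega)
      exact Nat.le_of_mul_le_mul_right h1 (by positivity)
    have hGne : G.Nonempty := by
      rw [← Finset.card_pos]
      exact lt_of_lt_of_le (by positivity) hGbig
    obtain ⟨P0, hP0⟩ := hGne
    obtain ⟨⟨b, Γ⟩, hkey, hfib⟩ := Finset.exists_le_card_fiber_of_mul_le_card_of_maps_to hmaps
      ⟨_, hmaps P0 hP0⟩ (n := q ^ (2 * a + 8)) (le_trans (Nat.mul_le_mul_right _ htt) hGbig)
    set F : Finset (Finset V) := G.filter (fun P => (b2 P, Γf P) = (b, Γ)) with hF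
    have hFP : ∀ P ∈ F, P ∈ PP ∧ y * (P.card : ℝ) ≤ w2 P ∧ b2 P = b ∧ Γf P = Γ := by
      intro P hP
      rw [hF, Finset.mem_filter, hG, Finset.mem_filter, Prod.mk.injEq] at hP
      exact ⟨hP.1.1, hP.1.2, hP.2.1, hP.2.2⟩
    have hFcard : q ^ (2 * a + 8) ≤ F.card := by
      refine hfib.trans (le_of_eq ?_)
      rw [hF]
    obtain ⟨P1, hP1F⟩ : F.Nonempty := by
      rw [← Finset.card_pos]
      exact lt_of_lt_of_le (by positivity) hFcard
    have hΓV1 : Γ ⊆ V1 := by
      rw [← (hFP P1 hP1F).2.2.2]; exact Finset.filter_subset _ _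
    have hΓB : Γ.card < B := by
      rw [← (hFP P1 hP1F).2.2.2]; exact hΓcard _ (hFP P1 hP1F).1
    have hbB : b ≤ B := by
      have h1 := hcutP _ (hFP P1 hP1F).1
      have h2 := (hP1 _ (hFP P1 hP1F).1).2.1
      rw [← (hFP P1 hP1F).2.2.1]
      omega
    -- representatives
    have hrep : ∀ P : F, ∃ w ∈ (P : Finset V), ∀ X : Finset V, w ∈ X → X.card ≤ M →
        cut H (P : Finset V) ≤ cut H X := fun P => (hP1 _ (hFP P P.2).1).2.2.2
    choose w hw1 hw2 using hrep
    have hecΓ : ∀ P ∈ F, ec H P Γ = ec H P V1 := by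
      intro P hP
      unfold ec
      congr 1
      ext ⟨x, z⟩
      rw [mem_prs, mem_prs]
      constructor
      · rintro ⟨hx, hz, hxz⟩; exact ⟨hx, hΓV1 hz, hxz⟩
      · rintro ⟨hx, hz, hxz⟩
        refine ⟨hx, ?_, hxz⟩
        rw [← (hFP P hP).2.2.2]
        exact Finset.mem_filter.2 ⟨hz, x, hx, hxz⟩
    let EE : F → Finset (Sym2 V) := fun P => univ.filter (fun e =>
      ∃ x ∈ (P : Finset V), ∃ z, (z ∈ (P : Finset V) ∨ z ∈ Γ) ∧ e = s(x, z))
    obtain ⟨U, hU1, hU2⟩ := finish (y := y) hd0 hk H (M := M) (B := B) (b := b) (q := q) (a := a) (s := s)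
      (L := L) (t0 := t0) hκ hκ1 hu hK1 hu2 hBq hexp hin hM ha hq5 hqt hqK hsq hm8
      (𝓕 := F) (fun P => (P : Finset V)) EE w (fun P => cut H (P : Finset V))
      (fun P => ⟨hw1 P, (hP1 _ (hFP P P.2).1).2.1.le, hw2 P, by
        intro D X hX
        show cut (H.deleteEdges (D : Set (Sym2 V))) X + b ≤
          cut (H.deleteEdges ((D : Set (Sym2 V)) ∪ (EE P : Set (Sym2 V)))) X + cut H (P : Finset V)
        have h1 : cut H (P : Finset V) = ec H (P : Finset V) Γ + b := by
          rw [hcutP _ (hFP P P.2).1, hecΓ _ P.2, (hFP P P.2).2.2.1]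
        have h2 : cut (H.deleteEdges (D : Set (Sym2 V))) X ≤
            cut (H.deleteEdges ((D : Set (Sym2 V)) ∪ (EE P : Set (Sym2 V)))) X +
            ec H (P : Finset V) Γ := by
          unfold cut ec
          refine le_trans (Finset.card_le_card ?_) (Finset.card_union_le _ _)
          rintro ⟨x, z⟩ hxz
          rw [mem_prs] at hxz
          obtain ⟨hx, hz, hadj⟩ := hxz
          rw [Finset.mem_union, mem_prs, mem_prs]
          rw [SimpleGraph.deleteEdges_adj] at hadj
          by_cases hE : s(x, z) ∈ EE P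
          · right
            simp only [EE, Finset.mem_filter, Finset.mem_univ, true_and] at hE
            obtain ⟨x', hx', z', hz', heq⟩ := hE
            rw [Sym2.eq_iff] at heq
            rw [Finset.mem_compl] at hz
            rcases heq with ⟨rfl, rfl⟩ | ⟨rfl, rfl⟩
            · rcases hz' with hz' | hz'
              · exact absurd (hX hz') hz
              · exact ⟨hx', hz', hadj.1⟩
            · exact absurd (hX hx') hz
          · left
            refine ⟨hx, hz, ?_⟩
            rw [SimpleGraph.deleteEdges_adj]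
            refine ⟨hadj.1, ?_⟩
            rintro (h | h)
            · exact hadj.2 h
            · exact hE (by simpa using h)
        omega⟩)
      (fun P Q hPQ => hP3 _ (hFP P P.2).1 _ (hFP Q Q.2).1 (fun h => hPQ (Subtype.ext h)))
      hbB (fun P => (hP1 _ (hFP P P.2).1).1) hL hBt
      (by rw [Fintype.card_coe]; exact hFcard) Γ
      (fun P => (hPV1 _ (hFP P P.2).1).mono_right hΓV1)
      (fun P x hx z hz => by
        simp only [EE, Finset.mem_filter, Finset.mem_univ, true_and]
        exact ⟨x, hx, z, hz, rfl⟩)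
      (fun P => by
        have h1 := (hFP P P.2).2.1
        have h2 := (hFP P P.2).2.2.1
        simp only [w2] at h1
        rw [h2, ← hecΓ _ P.2] at h1
        push_cast at h1
        exact h1)
      (by
        have : (Γ.card : ℝ) ≤ B := by exact_mod_cast hΓB.le
        have : d0 * (Γ.card : ℝ) ≤ d0 * B := by gcongr
        linarith) hyd.le
    refine ⟨U, hU1.trans ?_, hU2⟩
    have h1 : b * (b * L + 1) ≤ B * (B * L + 1) := by gcongr
    have h2 : 2 * t0 * b * (b * L + 1) ≤ 2 * t0 * B * (B * L + 1) := by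
      calc 2 * t0 * b * (b * L + 1) = 2 * t0 * (b * (b * L + 1)) := by ring
        _ ≤ 2 * t0 * (B * (B * L + 1)) := Nat.mul_le_mul_left _ h1
        _ = _ := by ring
    omega

end Pool.Agent.H89.Imm
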