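import Mathlib

set_option autoImplicit false
set_option linter.unusedSectionVars false
set_option linter.unusedVariables false
set_option linter.unusedSimpArgs false

namespace Pool.Agent.H89.Imm

open Finset SimpleGraph

variable {V : Type*} [DecidableEq V] [Fintype V]

open Classical in
/-- ordered pairs `(u,v)`, `u ∈ X`, `v ∈ Y` that are edges of `G` -/
noncomputable def prs (G : SimpleGraph V) (X Y : Finset V) : Finset (V × V) :=
  univ.filter (fun p => p.1 ∈ X ∧ p.2 ∈ Y ∧ G.Adj p.1 p.2)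

lemma mem_prs {G : SimpleGraph V} {X Y : Finset V} {u v : V} :
    (u, v) ∈ prs G X Y ↔ u ∈ X ∧ v ∈ Y ∧ G.Adj u v := by
  unfold prs; simp

/-- number of edges between `X` and `Y` (ordered pairs) -/
noncomputable def ec (G : SimpleGraph V) (X Y : Finset V) : ℕ := (prs G X Y).card

/-- size of the edge boundary of `X` -/
noncomputable def cut (G : SimpleGraph V) (X : Finset V) : ℕ := ec G X Xᶜ

open Classical in
/-- `0/1` adjacency -/
noncomputable def ad (G : SimpleGraph V) (u v : V) : ℤ := if G.Adj u v then 1 else 0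

lemma ad_comm (G : SimpleGraph V) (u v : V) : ad G u v = ad G v u := by
  unfold ad
  by_cases h : G.Adj u v
  · rw [if_pos h, if_pos h.symm]
  · rw [if_neg h, if_neg (fun h' => h h'.symm)]

lemma ad_nonneg (G : SimpleGraph V) (u v : V) : 0 ≤ ad G u v := by
  unfold ad; split_ifs <;> simp

lemma ec_eq (G : SimpleGraph V) (X Y : Finset V) : (ec G X Y : ℤ) = ∑ u ∈ X, ∑ v ∈ Y, ad G u v := by
  classical
  unfold ec prs ad
  rw [Finset.card_filter]
  push_cast
  rw [← Finset.univ_product_univ, Finset.sum_product]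
  have h1 : ∀ u v : V, (if u ∈ X ∧ v ∈ Y ∧ G.Adj u v then (1 : ℤ) else 0)
      = if u ∈ X then (if v ∈ Y then (if G.Adj u v then 1 else 0) else 0) else 0 := by
    intro u v; split_ifs <;> simp_all
  simp only [h1]
  rw [← Finset.sum_filter_add_sum_filter_not univ (fun u => u ∈ X)]
  have h2 : ∑ x ∈ univ.filter (fun u => ¬ u ∈ X), ∑ v : V,
      (if x ∈ X then (if v ∈ Y then (if G.Adj x v then (1 : ℤ) else 0) else 0) else 0) = 0 := by
    refine Finset.sum_eq_zero (fun x hx => ?_)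
    rw [Finset.mem_filter] at hx
    simp [hx.2]
  rw [h2, add_zero]
  have h3 : univ.filter (fun u => u ∈ X) = X := by ext; simp
  rw [h3]
  refine Finset.sum_congr rfl (fun x hx => ?_)
  simp only [if_pos hx]
  rw [← Finset.sum_filter]
  have h4 : univ.filter (fun u => u ∈ Y) = Y := by ext; simp
  rw [h4]

lemma ec_comm (G : SimpleGraph V) (X Y : Finset V) : ec G X Y = ec G Y X := by
  have : (ec G X Y : ℤ) = ec G Y X := by
    rw [ec_eq, ec_eq, Finset.sum_comm]
    refine Finset.sum_congr rfl (fun v _ => Finset.sum_congr rfl (fun u _ => ad_comm G u v))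
  exact_mod_cast this

lemma ec_union_left (G : SimpleGraph V) {X X' : Finset V} (h : Disjoint X X') (Y : Finset V) :
    ec G (X ∪ X') Y = ec G X Y + ec G X' Y := by
  have : (ec G (X ∪ X') Y : ℤ) = ec G X Y + ec G X' Y := by
    rw [ec_eq, ec_eq, ec_eq, Finset.sum_union h]
  exact_mod_cast this

lemma ec_union_right (G : SimpleGraph V) (X : Finset V) {Y Y' : Finset V} (h : Disjoint Y Y') :
    ec G X (Y ∪ Y') = ec G X Y + ec G X Y' := by
  rw [ec_comm, ec_union_left G h, ec_comm G Y, ec_comm G Y']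

lemma ec_mono (G : SimpleGraph V) {X X' Y Y' : Finset V} (h : X ⊆ X') (h' : Y ⊆ Y') :
    ec G X Y ≤ ec G X' Y' := by
  unfold ec
  apply Finset.card_le_card
  rintro ⟨u, v⟩ huv
  rw [mem_prs] at huv ⊢
  exact ⟨h huv.1, h' huv.2.1, huv.2.2⟩

lemma ec_mono_graph {G G' : SimpleGraph V} (h : G ≤ G') (X Y : Finset V) :
    ec G X Y ≤ ec G' X Y := by
  unfold ec
  apply Finset.card_le_card
  rintro ⟨u, v⟩ huv
  rw [mem_prs] at huv ⊢
  exact ⟨huv.1, huv.2.1, h huv.2.2⟩

/-- volume -/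
noncomputable def vol (G : SimpleGraph V) (X : Finset V) : ℕ := ec G X univ

lemma vol_eq (G : SimpleGraph V) (X : Finset V) : vol G X = ec G X X + cut G X := by
  unfold vol cut
  rw [← Finset.union_compl X, ec_union_right G X disjoint_compl_right]

lemma vol_mono (G : SimpleGraph V) {X X' : Finset V} (h : X ⊆ X') : vol G X ≤ vol G X' :=
  ec_mono G h (le_refl _)

/-- twice the cut, as a sum over all pairs -/
lemma two_cut (G : SimpleGraph V) (X : Finset V) :
    2 * (cut G X : ℤ) = ∑ u : V, ∑ v : V, ad G u v * (if (u ∈ X) ↔ (v ∈ X) then 0 else 1) := by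
  have h1 : (cut G X : ℤ) = ∑ u ∈ X, ∑ v ∈ Xᶜ, ad G u v := ec_eq G X Xᶜ
  have h2 : (cut G X : ℤ) = ∑ u ∈ Xᶜ, ∑ v ∈ X, ad G u v := by
    unfold cut; rw [ec_comm]; exact ec_eq G Xᶜ X
  have h3 : ∑ u : V, ∑ v : V, ad G u v * (if (u ∈ X) ↔ (v ∈ X) then 0 else 1)
      = ∑ u ∈ X, ∑ v : V, ad G u v * (if (u ∈ X) ↔ (v ∈ X) then 0 else 1)
        + ∑ u ∈ Xᶜ, ∑ v : V, ad G u v * (if (u ∈ X) ↔ (v ∈ X) then 0 else 1) := by
    rw [Finset.sum_add_sum_compl]
  have h4 : ∀ u ∈ X, ∑ v : V, ad G u v * (if (u ∈ X) ↔ (v ∈ X) then 0 else 1) = ∑ v ∈ Xᶜ, ad G u v := by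
    intro u hu
    rw [← Finset.sum_add_sum_compl X]
    have h5 : ∑ v ∈ X, ad G u v * (if (u ∈ X) ↔ (v ∈ X) then 0 else 1) = 0 :=
      Finset.sum_eq_zero (fun v hv => by simp [hu, hv])
    rw [h5, zero_add]
    refine Finset.sum_congr rfl (fun v hv => ?_)
    rw [Finset.mem_compl] at hv
    simp [hu, hv]
  have h6 : ∀ u ∈ Xᶜ, ∑ v : V, ad G u v * (if (u ∈ X) ↔ (v ∈ X) then 0 else 1) = ∑ v ∈ X, ad G u v := by
    intro u hu
    rw [Finset.mem_compl] at hu
    rw [← Finset.sum_add_sum_compl X]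
    have h5 : ∑ v ∈ Xᶜ, ad G u v * (if (u ∈ X) ↔ (v ∈ X) then 0 else 1) = 0 :=
      Finset.sum_eq_zero (fun v hv => by rw [Finset.mem_compl] at hv; simp [hu, hv])
    rw [h5, add_zero]
    refine Finset.sum_congr rfl (fun v hv => ?_)
    simp [hu, hv]
  rw [h3, Finset.sum_congr rfl h4, Finset.sum_congr rfl h6, ← h1, ← h2]
  ring

lemma cut_submod (G : SimpleGraph V) (X Y : Finset V) :
    cut G (X ∩ Y) + cut G (X ∪ Y) ≤ cut G X + cut G Y := by
  have key : 2 * ((cut G (X ∩ Y) : ℤ) + cut G (X ∪ Y)) ≤ 2 * ((cut G X : ℤ) + cut G Y) := by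
    rw [mul_add, mul_add, two_cut, two_cut, two_cut, two_cut, ← Finset.sum_add_distrib,
      ← Finset.sum_add_distrib]
    refine Finset.sum_le_sum (fun u _ => ?_)
    rw [← Finset.sum_add_distrib, ← Finset.sum_add_distrib]
    refine Finset.sum_le_sum (fun v _ => ?_)
    rw [← mul_add, ← mul_add]
    refine mul_le_mul_of_nonneg_left ?_ (ad_nonneg G u v)
    by_cases h1 : u ∈ X <;> by_cases h2 : u ∈ Y <;> by_cases h3 : v ∈ X <;> by_cases h4 : v ∈ Y <;>
      simp [h1, h2, h3, h4]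
  have : (cut G (X ∩ Y) : ℤ) + cut G (X ∪ Y) ≤ cut G X + cut G Y := by linarith
  exact_mod_cast this

lemma cut_posimod (G : SimpleGraph V) (X Y : Finset V) :
    cut G (X \ Y) + cut G (Y \ X) ≤ cut G X + cut G Y := by
  have key : 2 * ((cut G (X \ Y) : ℤ) + cut G (Y \ X)) ≤ 2 * ((cut G X : ℤ) + cut G Y) := by
    rw [mul_add, mul_add, two_cut, two_cut, two_cut, two_cut, ← Finset.sum_add_distrib,
      ← Finset.sum_add_distrib]
    refine Finset.sum_le_sum (fun u _ => ?_)
    rw [← Finset.sum_add_distrib, ← Finset.sum_add_distrib]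
    refine Finset.sum_le_sum (fun v _ => ?_)
    rw [← mul_add, ← mul_add]
    refine mul_le_mul_of_nonneg_left ?_ (ad_nonneg G u v)
    by_cases h1 : u ∈ X <;> by_cases h2 : u ∈ Y <;> by_cases h3 : v ∈ X <;> by_cases h4 : v ∈ Y <;>
      simp [h1, h2, h3, h4]
  have : (cut G (X \ Y) : ℤ) + cut G (Y \ X) ≤ cut G X + cut G Y := by linarith
  exact_mod_cast this

/-- cut of a disjoint union -/
lemma cut_union (G : SimpleGraph V) {X Y : Finset V} (h : Disjoint X Y) :
    (cut G (X ∪ Y) : ℤ) = cut G X + cut G Y - 2 * ec G X Y := by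
  have h0 : ∀ A : Finset V, (cut G A : ℤ) = vol G A - ec G A A := by
    intro A; rw [vol_eq]; push_cast; ring
  have h1 : (vol G (X ∪ Y) : ℤ) = vol G X + vol G Y := by
    unfold vol; rw [ec_union_left G h]; push_cast; ring
  have h2 : (ec G (X ∪ Y) (X ∪ Y) : ℤ) = ec G X X + ec G Y Y + 2 * ec G X Y := by
    rw [ec_union_left G h, ec_union_right G X h, ec_union_right G Y h, ec_comm G Y X]
    push_cast; ring
  rw [h0, h0 X, h0 Y, h1, h2]; ring

open Classical in
/-- deleting a set of edges changes a cut by at most its size -/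
lemma cut_delete (G : SimpleGraph V) (D : Finset (Sym2 V)) (X : Finset V) :
    cut G X ≤ cut (G.deleteEdges (D : Set (Sym2 V))) X + D.card := by
  unfold cut ec
  have hsub : prs G X Xᶜ ⊆ prs (G.deleteEdges (D : Set (Sym2 V))) X Xᶜ ∪
      (prs G X Xᶜ).filter (fun p => s(p.1, p.2) ∈ D) := by
    rintro ⟨u, v⟩ huv
    rw [Finset.mem_union, Finset.mem_filter]
    by_cases h : s(u, v) ∈ D
    · right; exact ⟨huv, h⟩
    · left
      rw [mem_prs] at huv ⊢
      refine ⟨huv.1, huv.2.1, ?_⟩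
      rw [SimpleGraph.deleteEdges_adj]
      exact ⟨huv.2.2, by simpa using h⟩
  refine (Finset.card_le_card hsub).trans ((Finset.card_union_le _ _).trans ?_)
  refine add_le_add le_rfl ?_
  refine Finset.card_le_card_of_injOn (fun p => s(p.1, p.2)) ?_ ?_
  · intro p hp
    simp only [Finset.coe_filter, Set.mem_ofPred_eq] at hp
    exact hp.2
  · rintro ⟨u, v⟩ h1 ⟨u', v'⟩ h2 h
    simp only [Finset.coe_filter, Set.mem_ofPred_eq, mem_prs, Finset.mem_compl] at h1 h2
    rw [Sym2.eq_iff] at h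
    rcases h with ⟨h3, h4⟩ | ⟨h3, h4⟩
    · simp only at h3 h4; rw [h3, h4]
    · exfalso
      simp only at h3 h4
      rw [h3] at h1
      exact h2.1.2.1 h1.1.1

lemma cut_mono_graph {G G' : SimpleGraph V} (h : G ≤ G') (X : Finset V) : cut G X ≤ cut G' X :=
  ec_mono_graph h X Xᶜ

end Pool.Agent.H89.Imm
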