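import Pool.Agent.H89.Imm.Compose

set_option autoImplicit false
set_option linter.unusedSectionVars false
set_option linter.unusedVariables false
set_option linter.unusedSimpArgs false

namespace Pool.Agent.H89.Imm

open Finset SimpleGraph

variable {V : Type*} [DecidableEq V] [Fintype V]

/-- numerical estimate for the main inequality -/
lemma main_ineq {B b L t0 q a c m F : ℕ} (ht0 : 1 ≤ t0) (hbB : b ≤ B) (hq5 : 5 ≤ q)
    (hqt : (2 * t0) ^ 2 ≤ q)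
    (hBq : B + 1 ≤ q) (hqK : (B + 1) * (B * L + 6 * (B * L) ^ 2) + 1 ≤ q)
    (ha : a = (2 * B + 1) * (2 * t0 ^ (B + 1)) + 4) (hm : 0 < m) (hcm : m ≤ c * q ^ 2)
    (hF : q ^ (2 * a + 8) ≤ F) :
    (2 * t0 : ℝ) ^ 2 * ((((q : ℝ) ^ a + (1 + b)) / ((q ^ (2 * a) : ℕ) : ℝ) + 2 / (F : ℝ)) *
      (((b * L : ℕ) : ℝ) + 1)) <
      (1 / 2 * ((c : ℝ) / m) ^ b) ^ (2 * t0 ^ (b + 1)) := by
  have hQ5 : (5 : ℝ) ≤ q := by exact_mod_cast hq5
  have hQ0 : (0 : ℝ) < q := by linarith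
  have hQ1 : (1 : ℝ) ≤ q := by linarith
  have ha1 : 1 ≤ a := by omega
  set Q : ℝ := (q : ℝ) with hQ
  have hqa : Q ≤ Q ^ a := by
    calc Q = Q ^ 1 := (pow_one Q).symm
      _ ≤ Q ^ a := pow_le_pow_right₀ hQ1 ha1
  have hbr : (1 : ℝ) + b ≤ Q := by
    have : b + 1 ≤ q := by omega
    have h2 : ((b : ℝ) + 1) ≤ q := by exact_mod_cast this
    rw [hQ]; linarith
  -- κc
  have h1 : (Q ^ a + (1 + b)) / ((q ^ (2 * a) : ℕ) : ℝ) ≤ 2 / Q ^ a := by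
    push_cast
    rw [← hQ, div_le_div_iff₀ (by positivity) (by positivity)]
    have : Q ^ (2 * a) = Q ^ a * Q ^ a := by rw [two_mul, pow_add]
    rw [this]
    have h2 : Q ^ a + (1 + b) ≤ 2 * Q ^ a := by linarith
    nlinarith [pow_pos hQ0 a]
  have h2 : 2 / (F : ℝ) ≤ 1 / Q ^ a := by
    have hF' : Q ^ (2 * a + 8) ≤ (F : ℝ) := by rw [hQ]; exact_mod_cast hF
    have h3 : 2 * Q ^ a ≤ Q ^ (2 * a + 8) := by
      calc 2 * Q ^ a ≤ Q * Q ^ a := by gcongr; linarith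
        _ = Q ^ (a + 1) := by ring
        _ ≤ Q ^ (2 * a + 8) := pow_le_pow_right₀ hQ1 (by omega)
    have hFpos : (0 : ℝ) < F := lt_of_lt_of_le (by positivity) hF'
    rw [div_le_div_iff₀ hFpos (by positivity)]
    linarith
  have h3 : (Q ^ a + (1 + b)) / ((q ^ (2 * a) : ℕ) : ℝ) + 2 / (F : ℝ) ≤ 3 / Q ^ a := by
    calc _ ≤ 2 / Q ^ a + 1 / Q ^ a := add_le_add h1 h2
      _ = 3 / Q ^ a := by ring
  have hK : ((b * L : ℕ) : ℝ) + 1 ≤ Q := by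
    have h4 : b * L + 1 ≤ q := by
      have h5 : b * L ≤ B * L := Nat.mul_le_mul_right _ hbB
      have h6 : B * L ≤ (B + 1) * (B * L + 6 * (B * L) ^ 2) := by
        calc B * L ≤ B * L + 6 * (B * L) ^ 2 := Nat.le_add_right _ _
          _ = 1 * (B * L + 6 * (B * L) ^ 2) := by ring
          _ ≤ _ := Nat.mul_le_mul_right _ (by omega)
      omega
    rw [hQ]; exact_mod_cast h4
  have ht : (2 * t0 : ℝ) ^ 2 ≤ Q := by rw [hQ]; exact_mod_cast hqt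
  have hlhs : (2 * t0 : ℝ) ^ 2 * (((Q ^ a + (1 + b)) / ((q ^ (2 * a) : ℕ) : ℝ) + 2 / (F : ℝ)) *
      (((b * L : ℕ) : ℝ) + 1)) ≤ Q ^ 3 / Q ^ a := by
    calc (2 * t0 : ℝ) ^ 2 * (((Q ^ a + (1 + b)) / ((q ^ (2 * a) : ℕ) : ℝ) + 2 / (F : ℝ)) *
        (((b * L : ℕ) : ℝ) + 1)) ≤ Q * ((3 / Q ^ a) * Q) := by gcongr
      _ = 3 * Q ^ 2 / Q ^ a := by ring
      _ ≤ Q ^ 3 / Q ^ a := by
          have : 3 * Q ^ 2 ≤ Q ^ 3 := by nlinarith [sq_nonneg Q, pow_pos hQ0 2]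
          gcongr
  refine lt_of_le_of_lt hlhs ?_
  -- right-hand side
  have hmr : (0 : ℝ) < m := by exact_mod_cast hm
  have hcm' : 1 / Q ^ 2 ≤ (c : ℝ) / m := by
    rw [div_le_div_iff₀ (by positivity) hmr]
    rw [one_mul, hQ]; exact_mod_cast hcm
  have hbase : 1 / Q ^ (2 * B + 1) ≤ 1 / 2 * ((c : ℝ) / m) ^ b := by
    calc 1 / Q ^ (2 * B + 1) = (1 / Q) * (1 / Q ^ 2) ^ B := by
          rw [div_pow, one_pow, ← pow_mul, div_mul_div_comm, one_mul]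
          congr 1; ring
      _ ≤ (1 / 2) * (1 / Q ^ 2) ^ b := by
          have h5 : 1 / Q ≤ 1 / 2 := by
            apply one_div_le_one_div_of_le (by norm_num); linarith
          have h6 : (1 / Q ^ 2) ^ B ≤ (1 / Q ^ 2) ^ b := by
            apply pow_le_pow_of_le_one (by positivity) _ hbB
            rw [div_le_one (by positivity)]
            exact one_le_pow₀ hQ1
          exact mul_le_mul h5 h6 (by positivity) (by norm_num)
      _ ≤ 1 / 2 * ((c : ℝ) / m) ^ b := by gcongr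
  have hb1 : 1 / Q ^ (2 * B + 1) ≤ 1 := by
    rw [div_le_one (by positivity)]; exact one_le_pow₀ hQ1
  calc Q ^ 3 / Q ^ a < Q ^ 4 / Q ^ a := by
        apply div_lt_div_of_pos_right _ (by positivity)
        exact pow_lt_pow_right₀ (by linarith) (by norm_num)
    _ = (1 / Q ^ (2 * B + 1)) ^ (2 * t0 ^ (B + 1)) := by
        rw [div_pow, one_pow, ← pow_mul, ha, pow_add]
        field_simp
    _ ≤ (1 / Q ^ (2 * B + 1)) ^ (2 * t0 ^ (b + 1)) := by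
        apply pow_le_pow_of_le_one (by positivity) hb1
        exact Nat.mul_le_mul_left _ (Nat.pow_le_pow_right ht0 (by omega))
    _ ≤ _ := by gcongr

/-- from a family of sources to an immersion -/
theorem finish {k : ℕ} {d0 y : ℝ} (hd0 : 0 ≤ d0) (hk : ImmProp k d0) (H : SimpleGraph V)
    {M B b q a s L t0 : ℕ} {κ K1 : ℝ} (hκ : 0 < κ) (hκ1 : κ ≤ 1) (hu : 1 / κ ≤ q) (hK1 : 0 ≤ K1)
    (hu2 : K1 + 3 ≤ q) (hBq : B + 1 ≤ q)
    (hexp : ∀ X : Finset V, X.card ≤ M → 2 * κ * X.card ≤ cut H X)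
    (hin : ∀ X : Finset V, (ec H X X : ℝ) ≤ K1 * X.card)
    (hM : M = Fintype.card V / q)
    (ha : a = (2 * B + 1) * (2 * t0 ^ (B + 1)) + 4)
    (hq5 : 5 ≤ q) (hqt : (2 * t0) ^ 2 ≤ q) (hqK : (B + 1) * (B * L + 6 * (B * L) ^ 2) + 1 ≤ q)
    (hsq : s ≤ q) (hm : q ^ (a + 8) ≤ Fintype.card V)
    {𝓕 : Type*} [Fintype 𝓕] [DecidableEq 𝓕] [Nonempty V]
    (S : 𝓕 → Finset V) (E : 𝓕 → Finset (Sym2 V)) (w : 𝓕 → V) (β : 𝓕 → ℕ)
    (hsrc : ∀ i, Src H M B b (S i) (E i) (w i) (β i))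
    (hdisj : ∀ i j, i ≠ j → Disjoint (S i) (S j)) (hbB : b ≤ B) (hs : ∀ i, (S i).card ≤ s)
    (hL : K1 * Fintype.card V < (1 + κ / (2 * (K1 + 1) * (B + 1))) ^ L)
    [NeZero t0] (hBt : B ≤ t0) (hfam : q ^ (2 * a + 8) ≤ Fintype.card 𝓕)
    (Γ : Finset V) (hSΓ : ∀ i, Disjoint (S i) Γ)
    (hE : ∀ i, ∀ x ∈ S i, ∀ z, (z ∈ S i ∨ z ∈ Γ) → s(x, z) ∈ E i)
    (hy : ∀ i, y * (S i).card ≤ ec H (S i) (S i) + 2 * ec H (S i) Γ + b)
    (hd : d0 * Γ.card < (y - d0) * (2 * t0)) (hyd : d0 ≤ y) :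
    ∃ U : Finset V, U.card ≤ 2 * t0 * s + Γ.card + 2 * t0 * b * (b * L + 1) ∧ ImmIn k H U := by
  classical
  have ht0 : 1 ≤ t0 := NeZero.one_le
  have hq1 : 1 ≤ q := by omega
  have hMlow : q ^ (a + 7) ≤ M := by
    rw [hM, Nat.le_div_iff_mul_le (by omega)]
    calc q ^ (a + 7) * q = q ^ (a + 8) := by ring
      _ ≤ _ := hm
  have hne𝓕 : Nonempty 𝓕 := by
    rw [← Fintype.card_pos_iff]
    exact lt_of_lt_of_le (by positivity) hfam
  have hpow : ∀ i, 5 * q ^ i ≤ q ^ (i + 1) := by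
    intro i
    calc 5 * q ^ i ≤ q * q ^ i := Nat.mul_le_mul_right _ hq5
      _ = q ^ (i + 1) := by ring
  have hpm : ∀ i j, i ≤ j → q ^ i ≤ q ^ j := fun i j h => Nat.pow_le_pow_right (by omega) h
  -- `M`
  have hM2 : 2 * (q ^ 3 * q ^ (a + 1)) ≤ M := by
    have h1 : q ^ 3 * q ^ (a + 1) = q ^ (a + 4) := by ring
    rw [h1]
    have h2 := hpow (a + 4)
    have h3 := hpm (a + 4 + 1) (a + 7) (by omega)
    omega
  have hfam2 : 2 * (q * q ^ (a + 1) + 2 * q ^ 5 * (q ^ (a + 1)) ^ 2) ≤ Fintype.card 𝓕 := by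
    have h1 : q * q ^ (a + 1) = q ^ (a + 2) := by ring
    have h2 : 2 * q ^ 5 * (q ^ (a + 1)) ^ 2 = 2 * q ^ (2 * a + 7) := by ring
    rw [h1, h2]
    have h3 : 5 * q ^ (2 * a + 7) ≤ q ^ (2 * a + 8) := hpow (2 * a + 7)
    have h4 := hpow (a + 2)
    have h5 := hpm (a + 2 + 1) (2 * a + 7) (by omega)
    omega
  have hc : M / 2 + s + b + q * q ^ (a + 1) ≤ M := by
    have h1 : q * q ^ (a + 1) = q ^ (a + 2) := by ring
    rw [h1]
    have h2 : q ≤ q ^ (a + 2) := by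
      calc q = q ^ 1 := (pow_one q).symm
        _ ≤ q ^ (a + 2) := hpm 1 (a + 2) (by omega)
    have h3 := hpow (a + 2)
    have h4 := hpow (a + 2 + 1)
    have h5 := hpm (a + 2 + 1 + 1) (a + 7) (by omega)
    omega
  have hTd : ((q ^ (2 * a) : ℕ) : ℝ) * (((b * L : ℕ) : ℝ) + b * (((b * L : ℕ) : ℝ) +
      2 * ((b * L : ℕ) : ℝ) * (3 * ((b * L : ℕ) : ℝ)))) ≤ (q : ℝ) ^ a * ((q ^ (a + 1) : ℕ) : ℝ) := by
    have h1 : (b * L) + b * ((b * L) + 2 * (b * L) * (3 * (b * L))) ≤ q := by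
      have h2 : b * L ≤ B * L := Nat.mul_le_mul_right _ hbB
      have h3 : (b * L) + b * ((b * L) + 2 * (b * L) * (3 * (b * L))) ≤
          (B * L) + B * ((B * L) + 2 * (B * L) * (3 * (B * L))) := by gcongr
      have h4 : (B * L) + B * ((B * L) + 2 * (B * L) * (3 * (B * L))) ≤
          (B + 1) * (B * L + 6 * (B * L) ^ 2) := by nlinarith [Nat.zero_le ((B * L) ^ 2)]
      omega
    have h2 : (((b * L : ℕ) : ℝ) + b * (((b * L : ℕ) : ℝ) +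
      2 * ((b * L : ℕ) : ℝ) * (3 * ((b * L : ℕ) : ℝ)))) ≤ (q : ℝ) := by exact_mod_cast h1
    calc ((q ^ (2 * a) : ℕ) : ℝ) * (((b * L : ℕ) : ℝ) + b * (((b * L : ℕ) : ℝ) +
      2 * ((b * L : ℕ) : ℝ) * (3 * ((b * L : ℕ) : ℝ)))) ≤ ((q ^ (2 * a) : ℕ) : ℝ) * (q : ℝ) := by gcongr
      _ = (q : ℝ) ^ a * ((q ^ (a + 1) : ℕ) : ℝ) := by push_cast; ring
  have hcardpos : 0 < Fintype.card V := Fintype.card_pos
  have hcm : Fintype.card V ≤ (M / 2) * q ^ 2 := by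
    have h1 : M / 2 = Fintype.card V / (q * 2) := by rw [hM, Nat.div_div_eq_div_mul]
    have h2 : Fintype.card V < (M / 2) * (q * 2) + q * 2 := by
      rw [h1]
      have := Nat.div_add_mod (Fintype.card V) (q * 2)
      have h3 := Nat.mod_lt (Fintype.card V) (show 0 < q * 2 by omega)
      nlinarith
    have h3 : 1 ≤ M / 2 := by
      have h4 := hpow (a + 6)
      have h5 : 1 ≤ q ^ (a + 6) := Nat.one_le_pow _ _ (by omega)
      have h6 : a + 6 + 1 = a + 7 := by ring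
      rw [h6] at h4
      omega
    have h4 : (M / 2) * q ^ 2 = ((M / 2) * q) * q := by ring
    have h5 : (M / 2 * q) * 5 ≤ (M / 2 * q) * q := Nat.mul_le_mul_left _ hq5
    have h6 : q ≤ M / 2 * q := Nat.le_mul_of_pos_left _ (by omega)
    rw [h4]
    have h7 : (M / 2) * (q * 2) = (M / 2 * q) * 2 := by ring
    rw [h7] at h2
    omega
  have hmain := main_ineq (B := B) (b := b) (L := L) (t0 := t0) (q := q) (a := a) (c := M / 2)
    (m := Fintype.card V) (F := Fintype.card 𝓕) ht0 hbB hq5 hqt hBq hqK ha hcardpos hcm hfam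
  obtain ⟨i, σ, hb, P, h1, h2, h3, h4, h5, h6⟩ := roles H (M := M) (B := B) (u := q)
    (dm := q ^ (a + 1)) (b := b) (κ := κ) (K1 := K1) hκ hκ1 hu hK1 hu2 (by omega)
    (Nat.one_le_pow _ _ (by omega)) hexp hin hM2 S E w β hsrc hdisj hbB hs hL (hbB.trans hBt)
    hfam2 (c := M / 2) hc (T := q ^ (2 * a)) (Nat.one_le_pow _ _ (by omega)) (θ := (q : ℝ) ^ a)
    (by positivity) hTd le_rfl hmain
  exact assemble hd0 hk H (hbB.trans hBt) (fun r => S (i r)) Γ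
    (fun r s hrs => hdisj _ _ (h1 r s hrs)) (fun r => hSΓ _) (fun r => ⟨w (i r), (hsrc (i r)).mem⟩)
    σ hb P h2 h3 (fun r j x hx z hz hmem => h4 r j _ hmem (hE (i r) x hx z hz))
    h5 h6 (fun r => hy (i r)) hd hyd (fun r => hs (i r))

end Pool.Agent.H89.Imm
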