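import Mathlib

set_option autoImplicit false
set_option linter.unusedSectionVars false
set_option linter.unusedVariables false
set_option linter.unusedSimpArgs false

namespace Pool.Agent.H89.Imm

open Finset SimpleGraph

section ind

variable {V : Type*} [DecidableEq V]

/-- indicator of the arc `a → b` (antisymmetric) -/
def sg (a b x y : V) : ℤ := (if x = a ∧ y = b then 1 else 0) - (if x = b ∧ y = a then 1 else 0)

lemma sg_anti (a b x y : V) : sg a b x y = - sg a b y x := by
  unfold sg
  have e1 : (y = a ∧ x = b) ↔ (x = b ∧ y = a) := and_comm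
  have e2 : (y = b ∧ x = a) ↔ (x = a ∧ y = b) := and_comm
  simp only [e1, e2]
  ring

/-- signed number of uses of the arc `x → y` by a walk -/
def ind {G : SimpleGraph V} : ∀ {u v : V}, G.Walk u v → V → V → ℤ
  | _, _, .nil => fun _ _ => 0
  | u, _, .cons (v := w) _ p => fun x y => sg u w x y + ind p x y

variable {G : SimpleGraph V}

@[simp] lemma ind_nil (u x y : V) : ind (Walk.nil : G.Walk u u) x y = 0 := rfl

@[simp] lemma ind_cons {u v w : V} (h : G.Adj u w) (p : G.Walk w v) (x y : V) :
    ind (Walk.cons h p) x y = sg u w x y + ind p x y := rfl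

lemma ind_anti {u v : V} (p : G.Walk u v) (x y : V) : ind p x y = - ind p y x := by
  induction p with
  | nil => simp
  | cons h p ih => rw [ind_cons, ind_cons, ih, sg_anti]; ring

lemma ind_append {u v w : V} (p : G.Walk u v) (q : G.Walk v w) (x y : V) :
    ind (p.append q) x y = ind p x y + ind q x y := by
  induction p with
  | nil => simp
  | cons h p ih => simp [ih]; ring

lemma sg_ne_zero {a b x y : V} (h : sg a b x y ≠ 0) : (x = a ∧ y = b) ∨ (x = b ∧ y = a) := by
  unfold sg at h
  by_contra hc
  push Not at hc
  apply h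
  rw [if_neg (by tauto), if_neg (by tauto)]; simp

lemma ind_ne_zero {u v : V} (p : G.Walk u v) {x y : V} (h : ind p x y ≠ 0) :
    x ∈ p.support ∧ y ∈ p.support ∧ G.Adj x y := by
  induction p with
  | nil => simp at h
  | @cons a b c hab p ih =>
    rw [ind_cons] at h
    by_cases h1 : sg a b x y = 0
    · rw [h1, zero_add] at h
      obtain ⟨h2, h3, h4⟩ := ih h
      simp [h2, h3, h4]
    · rcases sg_ne_zero h1 with ⟨rfl, rfl⟩ | ⟨rfl, rfl⟩
      · simp [hab]
      · simp [hab.symm]

lemma ind_pos_dart {u v : V} (p : G.Walk u v) {x y : V} (h : 0 < ind p x y) :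
    ∃ d ∈ p.darts, d.fst = x ∧ d.snd = y := by
  induction p with
  | nil => simp at h
  | @cons a b c hab p ih =>
    rw [ind_cons] at h
    by_cases h1 : 0 < ind p x y
    · obtain ⟨d, hd, h2⟩ := ih h1
      exact ⟨d, by simp [hd], h2⟩
    · have h2 : 0 < sg a b x y := by omega
      have h3 : x = a ∧ y = b := by
        unfold sg at h2
        by_contra hc
        rw [if_neg hc] at h2
        split_ifs at h2 <;> omega
      obtain ⟨rfl, rfl⟩ := h3
      exact ⟨⟨(x, y), hab⟩, by simp, rfl, rfl⟩

lemma sg_self {a b : V} (h : a ≠ b) : sg a b a b = 1 := by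
  unfold sg; simp [h]

lemma sg_self' {a b : V} (h : a ≠ b) : sg a b b a = -1 := by
  unfold sg; simp [h, h.symm]

lemma ind_path_le {u v : V} (p : G.Walk u v) (hp : p.IsPath) (x y : V) : ind p x y ≤ 1 := by
  induction p with
  | nil => simp
  | @cons a b c hab p ih =>
    rw [Walk.cons_isPath_iff] at hp
    rw [ind_cons]
    by_cases h1 : sg a b x y = 0
    · rw [h1, zero_add]; exact ih hp.1
    · have h2 : ind p x y = 0 := by
        by_contra hne
        obtain ⟨h3, h4, -⟩ := ind_ne_zero p hne
        rcases sg_ne_zero h1 with ⟨rfl, rfl⟩ | ⟨rfl, rfl⟩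
        · exact hp.2 h3
        · exact hp.2 h4
      rw [h2, add_zero]
      unfold sg; split_ifs <;> omega

lemma ind_path_ge {u v : V} (p : G.Walk u v) (hp : p.IsPath) (x y : V) : -1 ≤ ind p x y := by
  rw [ind_anti]; have := ind_path_le p hp y x; omega

lemma ind_dart {u v : V} (p : G.Walk u v) (hp : p.IsPath) {d : G.Dart} (hd : d ∈ p.darts) :
    ind p d.fst d.snd = 1 := by
  induction p with
  | nil => simp at hd
  | @cons a b c hab p ih =>
    rw [Walk.cons_isPath_iff] at hp
    rw [ind_cons]
    rw [Walk.darts_cons, List.mem_cons] at hd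
    rcases hd with rfl | hd
    · have h2 : ind p a b = 0 := by
        by_contra hne
        exact hp.2 (ind_ne_zero p hne).1
      simp only
      rw [h2, add_zero]
      exact sg_self hab.ne
    · rw [ih hp.1 hd]
      have h1 : sg a b d.fst d.snd = 0 := by
        by_contra hne
        have h3 := p.dart_fst_mem_support_of_mem_darts hd
        have h4 := p.dart_snd_mem_support_of_mem_darts hd
        rcases sg_ne_zero hne with ⟨h5, h6⟩ | ⟨h5, h6⟩
        · rw [h5] at h3; exact hp.2 h3
        · rw [h6] at h4; exact hp.2 h4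
      rw [h1, zero_add]

/-- the last vertex of a path is not the tail of a dart -/
lemma dart_fst_ne_end {u v : V} (p : G.Walk u v) (hp : p.IsPath) {d : G.Dart} (hd : d ∈ p.darts) :
    d.fst ≠ v := by
  induction p with
  | nil => simp at hd
  | @cons a b c hab p ih =>
    rw [Walk.cons_isPath_iff] at hp
    rw [Walk.darts_cons, List.mem_cons] at hd
    rcases hd with rfl | hd
    · simp only
      rintro rfl
      exact hp.2 p.end_mem_support
    · exact ih hp.1 hd

lemma dart_snd_ne_start {u v : V} (p : G.Walk u v) (hp : p.IsPath) {d : G.Dart} (hd : d ∈ p.darts) :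
    d.snd ≠ u := by
  cases p with
  | nil => simp at hd
  | @cons a b c hab p =>
    rw [Walk.cons_isPath_iff] at hp
    rw [Walk.darts_cons, List.mem_cons] at hd
    rcases hd with rfl | hd
    · exact hab.ne'
    · intro h
      apply hp.2
      rw [← h]
      exact p.dart_snd_mem_support_of_mem_darts hd

variable [Fintype V]

lemma sg_div {a b : V} (y : V) : ∑ x, sg a b x y = (if y = b then 1 else 0) - (if y = a then 1 else 0) := by
  unfold sg
  rw [Finset.sum_sub_distrib]
  congr 1
  · by_cases h : y = b
    · simp [h]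
    · simp [h]
  · by_cases h : y = a
    · simp [h]
    · simp [h]

lemma ind_div {u v : V} (p : G.Walk u v) (y : V) :
    ∑ x, ind p x y = (if y = v then 1 else 0) - (if y = u then 1 else 0) := by
  induction p with
  | nil => simp
  | @cons a b c hab p ih =>
    simp only [ind_cons, Finset.sum_add_distrib]
    rw [ih, sg_div]; ring

end ind

end Pool.Agent.H89.Imm
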