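import Pool.Agent.H89.Imm.Flow1

set_option autoImplicit false
set_option linter.unusedSectionVars false
set_option linter.unusedVariables false
set_option linter.unusedSimpArgs false

namespace Pool.Agent.H89.Imm

open Finset SimpleGraph

variable {V : Type*} [DecidableEq V] [Fintype V]

/-- integral flow in the network `N` from the sources `S` with demands `d` and unit capacities -/
structure IsFlow (N : SimpleGraph V) (S : Finset V) (d : V → ℤ) (f : V → V → ℤ) : Prop where
  anti : ∀ u v, f u v = - f v u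
  le : ∀ u v, f u v ≤ 1
  adj : ∀ u v, f u v ≠ 0 → N.Adj u v
  div : ∀ v, v ∉ S → ∑ u, f u v = d v

lemma IsFlow.congr {N : SimpleGraph V} {S : Finset V} {d d' : V → ℤ} {f : V → V → ℤ}
    (h : IsFlow N S d f) (hd : ∀ v, v ∉ S → d v = d' v) : IsFlow N S d' f :=
  ⟨h.anti, h.le, h.adj, fun v hv => (h.div v hv).trans (hd v hv)⟩

/-- arcs used by the flow -/
def arcs (f : V → V → ℤ) : Finset (V × V) := univ.filter (fun p => 0 < f p.1 p.2)

lemma mem_arcs {f : V → V → ℤ} {x y : V} : (x, y) ∈ arcs f ↔ 0 < f x y := by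
  simp [arcs]

/-- cost of a flow -/
def cost (w : V × V → ℤ) (f : V → V → ℤ) : ℤ := ∑ p : V × V, w p * max (f p.1 p.2) 0

/-- generic weights -/
structure Gen (w : V × V → ℤ) : Prop where
  pos : ∀ p, 0 ≤ w p
  inj : ∀ A B : Finset (V × V), ∑ p ∈ A, w p = ∑ p ∈ B, w p → A = B
  card : ∀ A B : Finset (V × V), ∑ p ∈ A, w p ≤ ∑ p ∈ B, w p → A.card ≤ B.card

lemma aux_arith {a b x y P : ℕ} (h : x + a ≤ y + b) (hb : b < P) (h2 : y + P ≤ x) : False := by
  omega

lemma exists_gen : ∃ w : V × V → ℤ, Gen w := by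
  classical
  set M := Fintype.card (V × V) with hM
  let idx : V × V ≃ Fin M := Fintype.equivFin (V × V)
  let w' : V × V → ℕ := fun p => 2 ^ M + 2 ^ (idx p : ℕ)
  have hinj : Function.Injective (fun p : V × V => (idx p : ℕ)) := fun a b h =>
    idx.injective (Fin.ext h)
  have hsum : ∀ A : Finset (V × V), ∑ p ∈ A, w' p
      = A.card * 2 ^ M + ∑ i ∈ A.image (fun p => (idx p : ℕ)), 2 ^ i := by
    intro A
    rw [Finset.sum_image (fun a _ b _ h => hinj h)]
    simp [w', Finset.sum_add_distrib]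
  have hlt : ∀ A : Finset (V × V), ∑ i ∈ A.image (fun p => (idx p : ℕ)), 2 ^ i < 2 ^ M := by
    intro A
    calc ∑ i ∈ A.image (fun p => (idx p : ℕ)), 2 ^ i ≤ ∑ i ∈ Finset.range M, 2 ^ i := by
          apply Finset.sum_le_sum_of_subset
          intro i hi
          simp only [Finset.mem_image] at hi
          obtain ⟨p, -, rfl⟩ := hi
          simp
      _ < 2 ^ M := by
          have := Nat.geomSum_lt (m := 2) (n := M) (s := Finset.range M) le_rfl (fun k hk => Finset.mem_range.mp hk)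
          exact this
  refine ⟨fun p => (w' p : ℤ), fun p => by positivity, ?_, ?_⟩
  · intro A B h
    have h' : ∑ p ∈ A, w' p = ∑ p ∈ B, w' p := by exact_mod_cast h
    rw [hsum, hsum] at h'
    have h1 := hlt A
    have h2 := hlt B
    have hc : A.card = B.card := by
      by_contra hne
      rcases Nat.lt_or_gt_of_ne hne with hl | hl
      · have : (A.card + 1) * 2 ^ M ≤ B.card * 2 ^ M := Nat.mul_le_mul_right _ hl
        rw [add_mul, one_mul] at this
        exact aux_arith h'.ge h1 this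
      · have : (B.card + 1) * 2 ^ M ≤ A.card * 2 ^ M := Nat.mul_le_mul_right _ hl
        rw [add_mul, one_mul] at this
        exact aux_arith h'.le h2 this
    rw [hc] at h'
    have h3 : ∑ i ∈ A.image (fun p => (idx p : ℕ)), 2 ^ i
        = ∑ i ∈ B.image (fun p => (idx p : ℕ)), 2 ^ i := by omega
    have h4 := Finset.geomSum_injective (n := 2) le_rfl h3
    exact (Finset.image_injective hinj) h4
  · intro A B h
    have h' : ∑ p ∈ A, w' p ≤ ∑ p ∈ B, w' p := by exact_mod_cast h
    rw [hsum, hsum] at h'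
    have h2 := hlt B
    by_contra hlt'
    push Not at hlt'
    have : (B.card + 1) * 2 ^ M ≤ A.card * 2 ^ M := Nat.mul_le_mul_right _ hlt'
    rw [add_mul, one_mul] at this
    exact aux_arith h' h2 this

lemma IsFlow.ge {N : SimpleGraph V} {S : Finset V} {d : V → ℤ} {f : V → V → ℤ}
    (h : IsFlow N S d f) (u v : V) : -1 ≤ f u v := by
  have := h.le v u
  rw [h.anti u v]; omega

lemma IsFlow.self {N : SimpleGraph V} {S : Finset V} {d : V → ℤ} {f : V → V → ℤ}
    (h : IsFlow N S d f) (u : V) : f u u = 0 := by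
  have := h.anti u u; omega

lemma cost_eq_sum {N : SimpleGraph V} {S : Finset V} {d : V → ℤ} {f : V → V → ℤ}
    (h : IsFlow N S d f) (w : V × V → ℤ) : cost w f = ∑ p ∈ arcs f, w p := by
  unfold cost arcs
  rw [Finset.sum_filter]
  refine Finset.sum_congr rfl (fun p _ => ?_)
  have h1 := h.le p.1 p.2
  split_ifs with h2
  · have : f p.1 p.2 = 1 := by omega
    rw [this]; simp
  · rw [max_eq_right (by omega)]; simp

lemma eq_of_arcs_eq {N : SimpleGraph V} {S : Finset V} {d d' : V → ℤ} {f g : V → V → ℤ}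
    (hf : IsFlow N S d f) (hg : IsFlow N S d' g) (h : arcs f = arcs g) : f = g := by
  funext x y
  have h1 : 0 < f x y ↔ 0 < g x y := by rw [← mem_arcs, ← mem_arcs, h]
  have h2 : 0 < f y x ↔ 0 < g y x := by rw [← mem_arcs, ← mem_arcs, h]
  have := hf.le x y; have := hf.le y x; have := hg.le x y; have := hg.le y x
  have := hf.anti x y; have := hg.anti x y
  omega

/-- cheapest flow -/
def IsMin (w : V × V → ℤ) (N : SimpleGraph V) (S : Finset V) (d : V → ℤ) (f : V → V → ℤ) : Prop :=
  IsFlow N S d f ∧ ∀ g, IsFlow N S d g → cost w f ≤ cost w g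

lemma IsMin.congr {w : V × V → ℤ} {N : SimpleGraph V} {S : Finset V} {d d' : V → ℤ} {f : V → V → ℤ}
    (h : IsMin w N S d f) (hd : ∀ v, v ∉ S → d v = d' v) : IsMin w N S d' f :=
  ⟨h.1.congr hd, fun g hg => h.2 g (hg.congr (fun v hv => (hd v hv).symm))⟩

lemma cost_nonneg {w : V × V → ℤ} (hw : Gen w) (f : V → V → ℤ) : 0 ≤ cost w f :=
  Finset.sum_nonneg (fun p _ => mul_nonneg (hw.pos p) (le_max_right _ _))

lemma exists_min {w : V × V → ℤ} (hw : Gen w) {N : SimpleGraph V} {S : Finset V} {d : V → ℤ}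
    (h : ∃ f, IsFlow N S d f) : ∃ f, IsMin w N S d f := by
  classical
  have h' : ∃ n : ℕ, ∃ f, IsFlow N S d f ∧ (cost w f).toNat = n := by
    obtain ⟨f, hf⟩ := h
    exact ⟨_, f, hf, rfl⟩
  obtain ⟨f, hf, hn⟩ := Nat.find_spec h'
  refine ⟨f, hf, fun g hg => ?_⟩
  have h1 := Nat.find_min' h' ⟨g, hg, rfl⟩
  rw [← hn] at h1
  have h2 := cost_nonneg hw f
  have h3 := cost_nonneg hw g
  omega

lemma min_unique {w : V × V → ℤ} (hw : Gen w) {N : SimpleGraph V} {S : Finset V} {d : V → ℤ}
    {f g : V → V → ℤ} (hf : IsMin w N S d f) (hg : IsMin w N S d g) : f = g := by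
  have h1 := hf.2 g hg.1
  have h2 := hg.2 f hf.1
  have h3 : cost w f = cost w g := le_antisymm h1 h2
  rw [cost_eq_sum hf.1, cost_eq_sum hg.1] at h3
  exact eq_of_arcs_eq hf.1 hg.1 (hw.inj _ _ h3)

lemma min_arcs_le {w : V × V → ℤ} (hw : Gen w) {N : SimpleGraph V} {S : Finset V} {d : V → ℤ}
    {f g : V → V → ℤ} (hf : IsMin w N S d f) (hg : IsFlow N S d g) :
    (arcs f).card ≤ (arcs g).card := by
  have h1 := hf.2 g hg
  rw [cost_eq_sum hf.1, cost_eq_sum hg] at h1
  exact hw.card _ _ h1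

/-- exchanging a conformal piece `C` -/
lemma exchange_flow {N : SimpleGraph V} {S : Finset V} {d e c : V → ℤ}
    {f g C : V → V → ℤ} (hf : IsFlow N S d f) (hg : IsFlow N S e g)
    (hanti : ∀ x y, C x y = - C y x)
    (hC : ∀ x y, 0 < C x y → C x y = 1 ∧ f x y + 1 ≤ g x y)
    (hdiv : ∀ v, v ∉ S → ∑ u, C u v = c v) :
    IsFlow N S (fun v => d v + c v) (fun x y => f x y + C x y) ∧
    IsFlow N S (fun v => e v - c v) (fun x y => g x y - C x y) := by
  have hcase : ∀ x y, C x y = 0 ∨ (C x y = 1 ∧ f x y + 1 ≤ g x y) ∨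
      (C x y = -1 ∧ g x y + 1 ≤ f x y) := by
    intro x y
    rcases lt_trichotomy (C x y) 0 with h | h | h
    · right; right
      have h1 : 0 < C y x := by rw [hanti y x]; omega
      obtain ⟨h2, h3⟩ := hC y x h1
      have := hanti x y
      have := hf.anti x y
      have := hg.anti x y
      exact ⟨by omega, by omega⟩
    · left; exact h
    · right; left; exact hC x y h
  have hadj : ∀ x y, C x y ≠ 0 → N.Adj x y := by
    intro x y h
    by_cases h1 : f x y = 0
    · apply hg.adj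
      rcases hcase x y with h2 | ⟨h2, h3⟩ | ⟨h2, h3⟩
      · exact absurd h2 h
      · omega
      · omega
    · exact hf.adj x y h1
  refine ⟨⟨?_, ?_, ?_, ?_⟩, ⟨?_, ?_, ?_, ?_⟩⟩
  · intro x y; rw [hf.anti x y, hanti x y]; ring
  · intro x y
    have := hf.le x y; have := hg.le x y
    rcases hcase x y with h2 | ⟨h2, h3⟩ | ⟨h2, h3⟩ <;> omega
  · intro x y h
    by_cases h1 : C x y = 0
    · apply hf.adj; simp only [h1, add_zero] at h; exact h
    · exact hadj x y h1
  · intro v hv
    rw [Finset.sum_add_distrib, hf.div v hv, hdiv v hv]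
  · intro x y; rw [hg.anti x y, hanti x y]; ring
  · intro x y
    have := hf.le x y; have := hg.le x y
    rcases hcase x y with h2 | ⟨h2, h3⟩ | ⟨h2, h3⟩ <;> omega
  · intro x y h
    by_cases h1 : C x y = 0
    · apply hg.adj; simp only [h1, sub_zero] at h; exact h
    · exact hadj x y h1
  · intro v hv
    rw [Finset.sum_sub_distrib, hg.div v hv, hdiv v hv]

lemma exchange_cost {w : V × V → ℤ} (hw : Gen w) {N : SimpleGraph V} {S : Finset V} {d e : V → ℤ}
    {f g C : V → V → ℤ} (hf : IsFlow N S d f) (hg : IsFlow N S e g)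
    (hanti : ∀ x y, C x y = - C y x)
    (hC : ∀ x y, 0 < C x y → C x y = 1 ∧ f x y + 1 ≤ g x y) :
    cost w (fun x y => f x y + C x y) + cost w (fun x y => g x y - C x y) ≤ cost w f + cost w g := by
  unfold cost
  rw [← Finset.sum_add_distrib, ← Finset.sum_add_distrib]
  refine Finset.sum_le_sum (fun p _ => ?_)
  rw [← mul_add, ← mul_add]
  refine mul_le_mul_of_nonneg_left ?_ (hw.pos p)
  show max (f p.1 p.2 + C p.1 p.2) 0 + max (g p.1 p.2 - C p.1 p.2) 0 ≤
    max (f p.1 p.2) 0 + max (g p.1 p.2) 0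
  rcases lt_trichotomy (C p.1 p.2) 0 with h | h | h
  · have h1 : 0 < C p.2 p.1 := by rw [hanti p.2 p.1]; omega
    obtain ⟨h2, h3⟩ := hC p.2 p.1 h1
    have := hanti p.1 p.2
    have := hf.anti p.1 p.2
    have := hg.anti p.1 p.2
    omega
  · rw [h]; simp
  · obtain ⟨h2, h3⟩ := hC p.1 p.2 h
    omega

/-- main exchange principle -/
lemma exchange {w : V × V → ℤ} (hw : Gen w) {N : SimpleGraph V} {S : Finset V} {d e c : V → ℤ}
    {f g C : V → V → ℤ} (hf : IsMin w N S d f) (hg : IsMin w N S e g)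
    (hanti : ∀ x y, C x y = - C y x)
    (hC : ∀ x y, 0 < C x y → C x y = 1 ∧ f x y + 1 ≤ g x y)
    (hdiv : ∀ v, v ∉ S → ∑ u, C u v = c v) (hde : ∀ v, v ∉ S → e v = d v + c v) :
    g = (fun x y => f x y + C x y) := by
  obtain ⟨h1, h2⟩ := exchange_flow hf.1 hg.1 hanti hC hdiv
  have h3 := exchange_cost hw hf.1 hg.1 hanti hC
  have h1' : IsFlow N S e (fun x y => f x y + C x y) := h1.congr (fun v hv => (hde v hv).symm)
  have h2' : IsFlow N S d (fun x y => g x y - C x y) :=
    h2.congr (fun v hv => by have := hde v hv; omega)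
  have h4 := hg.2 _ h1'
  have h5 := hf.2 _ h2'
  have h6 : IsMin w N S e (fun x y => f x y + C x y) := by
    refine ⟨h1', fun g' hg' => ?_⟩
    have := hg.2 g' hg'
    omega
  exact min_unique hw hg h6

end Pool.Agent.H89.Imm
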