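import Pool.Agent.H89.Imm.Flow2

set_option autoImplicit false
set_option linter.unusedSectionVars false
set_option linter.unusedVariables false
set_option linter.unusedSimpArgs false

namespace Pool.Agent.H89.Imm

open Finset SimpleGraph

variable {V : Type*} [DecidableEq V] [Fintype V]

/-- all arcs of `δ` opposite to the darts of the walk are positive: the walk goes from a hub back to
the source -/
def Pos {N : SimpleGraph V} (δ : V → V → ℤ) {u v : V} (p : N.Walk u v) : Prop :=
  ∀ dt ∈ p.darts, 0 < δ dt.snd dt.fst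

/-- a vertex of positive excess is reached from the sources by positive arcs -/
lemma reach_pos {N : SimpleGraph V} {S : Finset V} {δ : V → V → ℤ} {h : V}
    (anti : ∀ x y, δ x y = - δ y x) (adj : ∀ x y, δ x y ≠ 0 → N.Adj x y) (hh : h ∉ S)
    (hdiv : ∀ v, v ∉ S → 0 ≤ ∑ u, δ u v) (hpos : 1 ≤ ∑ u, δ u h) :
    ∃ s ∈ S, ∃ p : N.Walk h s, p.IsPath ∧ Pos δ p ∧ ∀ x ∈ p.support, x ∈ S → x = s := by
  classical
  let U : Finset V := univ.filter (fun v => ∃ p : N.Walk h v, Pos δ p)
  have hmemU : ∀ v, v ∈ U ↔ ∃ p : N.Walk h v, Pos δ p := by simp [U]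
  have key : ∃ s ∈ S, ∃ p : N.Walk h s, Pos δ p := by
    by_contra hcon
    push Not at hcon
    have hUS : ∀ v ∈ U, v ∉ S := by
      intro v hv hvS
      obtain ⟨p, hp⟩ := (hmemU v).1 hv
      exact hcon v hvS p hp
    have hhU : h ∈ U := (hmemU h).2 ⟨Walk.nil, by intro dt hdt; simp at hdt⟩
    have h1 : 1 ≤ ∑ v ∈ U, ∑ u, δ u v := by
      calc (1 : ℤ) ≤ ∑ u, δ u h := hpos
        _ ≤ ∑ v ∈ U, ∑ u, δ u v :=
            Finset.single_le_sum (f := fun v => ∑ u, δ u v) (fun v hv => hdiv v (hUS v hv)) hhU
    have h2 : ∑ v ∈ U, ∑ u ∈ U, δ u v = 0 := by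
      have h3 : ∑ v ∈ U, ∑ u ∈ U, δ u v = - ∑ v ∈ U, ∑ u ∈ U, δ u v := by
        conv_lhs => rw [Finset.sum_comm]
        rw [← Finset.sum_neg_distrib]
        refine Finset.sum_congr rfl (fun v _ => ?_)
        rw [← Finset.sum_neg_distrib]
        refine Finset.sum_congr rfl (fun u _ => ?_)
        exact anti v u
      omega
    have h4 : ∑ v ∈ U, ∑ u, δ u v = ∑ v ∈ U, ∑ u ∈ U, δ u v + ∑ v ∈ U, ∑ u ∈ Uᶜ, δ u v := by
      rw [← Finset.sum_add_distrib]
      refine Finset.sum_congr rfl (fun v _ => ?_)
      rw [Finset.sum_add_sum_compl]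
    have h5 : ∑ v ∈ U, ∑ u ∈ Uᶜ, δ u v ≤ 0 := by
      refine Finset.sum_nonpos (fun v hv => Finset.sum_nonpos (fun u hu => ?_))
      by_contra hc
      push Not at hc
      rw [Finset.mem_compl] at hu
      apply hu
      rw [hmemU]
      obtain ⟨p, hp⟩ := (hmemU v).1 hv
      have hadj : N.Adj v u := (adj u v (by omega)).symm
      refine ⟨p.concat hadj, ?_⟩
      intro dt hdt
      rw [Walk.darts_concat, List.concat_eq_append, List.mem_append] at hdt
      rcases hdt with hdt | hdt
      · exact hp dt hdt
      · simp only [List.mem_singleton] at hdt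
        subst hdt
        exact hc
    omega
  have hex : ∃ n : ℕ, ∃ s ∈ S, ∃ p : N.Walk h s, Pos δ p ∧ p.length = n := by
    obtain ⟨s, hs, p, hp⟩ := key
    exact ⟨_, s, hs, p, hp, rfl⟩
  obtain ⟨s, hs, p, hp, hlen⟩ := Nat.find_spec hex
  refine ⟨s, hs, p.bypass, p.bypass_isPath, ?_, ?_⟩
  · intro dt hdt
    exact hp dt (p.darts_bypass_subset_darts hdt)
  · intro x hx hxS
    by_contra hne
    have h1 : ((p.bypass).takeUntil x hx).length < (p.bypass).length :=
      Walk.length_takeUntil_lt_length hx hne
    have h2 := p.length_bypass_le_length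
    have h3 := Nat.find_min' hex ⟨x, hxS, (p.bypass).takeUntil x hx, ?_, rfl⟩
    · omega
    · intro dt hdt
      exact hp dt (p.darts_bypass_subset_darts ((p.bypass).darts_takeUntil_subset_darts hx hdt))

/-- demand of one unit at `h` -/
def one (h : V) : V → ℤ := fun v => if v = h then 1 else 0

lemma IsFlow.sub_div {N : SimpleGraph V} {S : Finset V} {d : V → ℤ} {f F : V → V → ℤ} {h : V}
    (hf : IsFlow N S d f) (hF : IsFlow N S (fun v => d v + one h v) F) (v : V) (hv : v ∉ S) :
    ∑ u, (F u v - f u v) = one h v := by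
  rw [Finset.sum_sub_distrib, hF.div v hv, hf.div v hv]; ring

/-- cheapest flows for demands differing by one unit differ by one path -/
theorem aug_path {w : V × V → ℤ} (hw : Gen w) {N : SimpleGraph V} {S : Finset V} {d : V → ℤ}
    {f F : V → V → ℤ} {h : V} (hf : IsMin w N S d f) (hF : IsMin w N S (fun v => d v + one h v) F)
    (hh : h ∉ S) :
    ∃ s ∈ S, ∃ p : N.Walk h s, p.IsPath ∧ (∀ x ∈ p.support, x ∈ S → x = s) ∧
      F = fun x y => f x y - ind p x y := by
  obtain ⟨s, hs, p, hp, hpos, hsup⟩ := reach_pos (N := N) (S := S) (δ := fun x y => F x y - f x y)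
    (h := h) (fun x y => by rw [hF.1.anti x y, hf.1.anti x y]; ring)
    (fun x y hne => by
      by_cases h1 : F x y = 0
      · exact hf.1.adj x y (by intro h2; apply hne; simp [h1, h2])
      · exact hF.1.adj x y h1) hh
    (fun v hv => by
      rw [hf.1.sub_div hF.1 v hv]; unfold one; split_ifs <;> simp)
    (by rw [hf.1.sub_div hF.1 h hh]; simp [one])
  refine ⟨s, hs, p, hp, hsup, ?_⟩
  have := exchange (c := one h) (C := fun x y => - ind p x y) hw hf hF
    (fun x y => by rw [ind_anti p x y]) ?_ ?_ (fun v _ => rfl)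
  · rw [this]
    funext x y
    ring
  · intro x y hxy
    have h1 : 0 < ind p y x := by rw [ind_anti p y x]; exact hxy
    obtain ⟨dt, hdt, h2, h3⟩ := ind_pos_dart p h1
    have h4 := hpos dt hdt
    rw [h2, h3] at h4
    beta_reduce at h4
    have h5 := ind_dart p hp hdt
    rw [h2, h3] at h5
    refine ⟨?_, by omega⟩
    rw [ind_anti p x y, h5]; rfl
  · intro v hv
    rw [Finset.sum_neg_distrib, ind_div]
    unfold one
    have : v ≠ s := by rintro rfl; exact hv hs
    simp [this]

lemma one_step {w : V × V → ℤ} (hw : Gen w) {N : SimpleGraph V} {S : Finset V} {d : V → ℤ}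
    {f F : V → V → ℤ} {h y : V} (hf : IsMin w N S d f)
    (hF : IsMin w N S (fun v => d v + one h v) F) (hy : y ∉ S) (hyh : y ≠ h) (hadj : N.Adj h y)
    (h1 : F y h = f y h + 1) :
    IsMin w N S (fun v => d v + one y v) (fun a b => F a b - sg y h a b) := by
  -- the flow with the last arc removed
  have hG : IsFlow N S (fun v => d v + one y v) (fun a b => F a b - sg y h a b) := by
    refine ⟨?_, ?_, ?_, ?_⟩
    · intro a b
      rw [hF.1.anti a b, sg_anti]; ring
    · intro a b
      by_cases h2 : a = h ∧ b = y
      · obtain ⟨rfl, rfl⟩ := h2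
        rw [sg_self' hyh]
        have := hF.1.anti b a
        have := hf.1.ge b a
        omega
      · have h3 : 0 ≤ sg y h a b := by
          unfold sg; rw [if_neg h2]; split_ifs <;> simp
        have := hF.1.le a b
        omega
    · intro a b hne
      by_cases h2 : sg y h a b = 0
      · apply hF.1.adj; intro h3; apply hne; simp [h2, h3]
      · rcases sg_ne_zero h2 with ⟨rfl, rfl⟩ | ⟨rfl, rfl⟩
        · exact hadj.symm
        · exact hadj
    · intro v hv
      rw [Finset.sum_sub_distrib, hF.1.div v hv, sg_div]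
      unfold one; ring
  obtain ⟨g, hg⟩ := exists_min hw ⟨_, hG⟩
  by_cases hlt : g y h < F y h
  · have := exchange (c := fun v => one h v - one y v) (C := sg y h) hw hg hF (sg_anti y h) ?_ ?_ ?_
    · have h2 : g = (fun a b => F a b - sg y h a b) := by
        rw [this]; funext a b; ring
      rw [← h2]; exact hg
    · intro a b hab
      have h3 : a = y ∧ b = h := by
        unfold sg at hab
        by_contra hc
        rw [if_neg hc] at hab
        split_ifs at hab <;> omega
      obtain ⟨rfl, rfl⟩ := h3
      exact ⟨sg_self hyh, by omega⟩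
    · intro v hv
      rw [sg_div]; rfl
    · intro v hv; ring
  · exfalso
    push Not at hlt
    obtain ⟨s, hs, p, hp, hsup, hgp⟩ := aug_path hw hf hg hy
    have h2 : g y h = f y h - ind p y h := by rw [hgp]
    have h3 : 0 < ind p h y := by
      rw [ind_anti p h y]; omega
    obtain ⟨dt, hdt, h4, h5⟩ := ind_pos_dart p h3
    exact dart_snd_ne_start p hp hdt h5

/-- prefix property -/
theorem prefix_min {w : V × V → ℤ} (hw : Gen w) {N : SimpleGraph V} {S : Finset V} {d : V → ℤ}
    {f : V → V → ℤ} (hf : IsMin w N S d f) {s : V} (hs : s ∈ S) :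
    ∀ {h : V} (p : N.Walk h s), p.IsPath → (∀ x ∈ p.support, x ∈ S → x = s) →
      IsMin w N S (fun v => d v + one h v) (fun x y => f x y - ind p x y) →
      ∀ (z : V) (r : N.Walk h z) (q : N.Walk z s), p = r.append q → z ≠ s →
        IsMin w N S (fun v => d v + one z v) (fun x y => f x y - ind q x y) := by
  intro h p
  induction p with
  | nil =>
    intro _ _ _ z r q hrq hz
    exfalso
    have hz' : z ∈ (r.append q).support := by simp
    rw [← hrq] at hz'
    simp at hz'
    exact hz hz'
  | @cons a b c hab p ih =>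
    intro hp hsup hmin z r q hrq hz
    cases r with
    | nil =>
      rw [Walk.nil_append] at hrq
      rw [← hrq]; exact hmin
    | @cons _ b' _ hab' r =>
      rw [Walk.cons_append] at hrq
      injection hrq with _ hb _ hpe
      subst hb
      have hpr' : p = r.append q := eq_of_heq hpe
      rw [Walk.cons_isPath_iff] at hp
      have hbS : b ∉ S := by
        intro hbS
        have hbc : b = c := hsup b (by simp) hbS
        subst hbc
        have hnil : p = Walk.nil := by
          exact (Walk.isPath_iff_nil.1 hp.1).eq_nil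
        have : z ∈ p.support := by rw [hpr']; simp
        rw [hnil] at this
        simp at this
        exact hz this
      have haS : ∀ x ∈ p.support, x ∈ S → x = c := fun x hx => hsup x (by simp [hx])
      refine ih hs hp.1 haS ?_ z r q hpr' hz
      have h0 : ind p a b = 0 := by
        by_contra hne
        exact hp.2 (ind_ne_zero p hne).1
      have h0' : ind p b a = 0 := by rw [ind_anti, h0]; rfl
      have hstep := one_step hw hf hmin hbS hab.ne' hab (by
        simp only [ind_cons]
        rw [h0', sg_self' hab.ne]; ring)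
      have e : (fun x y => f x y - ind p x y)
          = (fun x y => (fun x y => f x y - ind (Walk.cons hab p) x y) x y - sg b a x y) := by
        funext x y
        simp only [ind_cons]
        have : sg b a x y = - sg a b x y := by unfold sg; ring
        rw [this]; ring
      rw [e]; exact hstep

end Pool.Agent.H89.Imm
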