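import Pool.Agent.H89.Imm.Flow3

set_option autoImplicit false
set_option linter.unusedSectionVars false
set_option linter.unusedVariables false
set_option linter.unusedSimpArgs false

namespace Pool.Agent.H89.Imm

open Finset SimpleGraph

variable {V : Type*} [DecidableEq V] [Fintype V]

lemma first_hit {N : SimpleGraph V} (Q : V → Prop) {u v : V} (p : N.Walk u v) (hv : Q v) :
    ∃ (z : V) (r : N.Walk u z) (q : N.Walk z v), p = r.append q ∧ Q z ∧
      ∀ x ∈ r.support, x ≠ z → ¬ Q x := by
  classical
  induction p with
  | nil => exact ⟨_, Walk.nil, Walk.nil, rfl, hv, by simp⟩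
  | @cons a b c hab p ih =>
    by_cases ha : Q a
    · exact ⟨a, Walk.nil, Walk.cons hab p, rfl, ha, by simp⟩
    · obtain ⟨z, r, q, h1, h2, h3⟩ := ih hv
      refine ⟨z, Walk.cons hab r, q, by rw [h1]; rfl, h2, ?_⟩
      intro x hx hxz
      rw [Walk.support_cons, List.mem_cons] at hx
      rcases hx with rfl | hx
      · exact ha
      · exact h3 x hx hxz

/-- Let `f` be cheapest for `d`, `F` cheapest for `d + one h0`. There is a vertex `z` touched by `f`
(or a source) and `g` (`= f` or cheapest for `d + one z`) such that each walk from a vertex touched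
by `f` back to a source along positive arcs of `F` uses positive arcs of `g` only. -/
theorem offhub {w : V × V → ℤ} (hw : Gen w) {N : SimpleGraph V} {S : Finset V} {d : V → ℤ}
    {f F : V → V → ℤ} {h0 : V} (hf : IsMin w N S d f)
    (hF : IsMin w N S (fun v => d v + one h0 v) F) (hh : h0 ∉ S) :
    ∃ g : V → V → ℤ, (g = f ∨ ∃ z, (∃ y, f z y ≠ 0) ∧ IsMin w N S (fun v => d v + one z v) g) ∧
      (arcs g).card ≤ 2 * (arcs f).card + (arcs F).card ∧
      ∀ (h : V), (∃ y, f h y ≠ 0) → ∀ (s : V) (P : N.Walk h s), Pos F P → Pos g P := by
  classical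
  obtain ⟨s, hs, p, hp, hsup, hFp⟩ := aug_path hw hf hF hh
  obtain ⟨z, r, q, hpq, hz, hr⟩ := first_hit (fun x => x ∈ S ∨ ∃ y, f x y ≠ 0) p (Or.inl hs)
  have hqsub : ∀ x ∈ q.support, x ∈ p.support := by
    intro x hx; rw [hpq]; simp [hx]
  have hind : ∀ x y, ind p x y = ind r x y + ind q x y := by
    intro x y; rw [hpq, ind_append]
  have hrq : (r.append q).IsPath := by rw [← hpq]; exact hp
  have hrp : r.IsPath := hrq.of_append_left
  have hqp : q.IsPath := hrq.of_append_right
  set g : V → V → ℤ := fun x y => f x y - ind q x y with hg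
  have hgf : ∀ x y, F x y = g x y - ind r x y := by
    intro x y; rw [hFp, hg]; simp only; rw [hind]; ring
  refine ⟨g, ?_, ?_, ?_⟩
  · by_cases hzs : z = s
    · left
      subst hzs
      have : q = Walk.nil := (Walk.isPath_iff_nil.1 hqp).eq_nil
      rw [hg, this]
      funext x y; simp
    · right
      have hzS : z ∉ S := by
        intro hzS
        exact hzs (hsup z (hqsub z (by simp)) hzS)
      have h1 := hz.resolve_left hzS
      refine ⟨z, h1, ?_⟩
      exact prefix_min hw hf hs p hp hsup (by rw [← hFp]; exact hF) z r q hpq hzs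
  · have hsub : arcs g ⊆ arcs f ∪ arcs F ∪ (arcs f).image Prod.swap := by
      intro ⟨x, y⟩ hxy
      rw [mem_arcs] at hxy
      rw [Finset.mem_union, Finset.mem_union, mem_arcs, mem_arcs, Finset.mem_image]
      by_cases h1 : 0 < f x y
      · left; left; exact h1
      · have h2 : 0 < ind q y x := by
          rw [ind_anti q y x]
          have : 0 < f x y - ind q x y := hxy
          omega
        obtain ⟨dt, hdt, h3, h4⟩ := ind_pos_dart q h2
        have h5 : dt ∈ p.darts := by rw [hpq, Walk.darts_append]; simp [hdt]
        have h6 := ind_dart p hp h5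
        rw [h3, h4] at h6
        have h7 : F x y = f x y + 1 := by
          rw [hFp]; simp only; rw [ind_anti p x y, h6]; ring
        have h8 := hf.1.ge x y
        by_cases h9 : f x y = 0
        · left; right; omega
        · right
          refine ⟨(y, x), ?_, rfl⟩
          rw [mem_arcs, hf.1.anti y x]
          omega
    calc (arcs g).card ≤ (arcs f ∪ arcs F ∪ (arcs f).image Prod.swap).card := Finset.card_le_card hsub
      _ ≤ (arcs f ∪ arcs F).card + ((arcs f).image Prod.swap).card := Finset.card_union_le _ _
      _ ≤ ((arcs f).card + (arcs F).card) + (arcs f).card :=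
          add_le_add (Finset.card_union_le _ _) Finset.card_image_le
      _ = _ := by ring
  · -- the new vertices
    let New : V → Prop := fun x => x ∈ r.support ∧ x ≠ z
    have hNg : ∀ x, New x → ∀ y, g x y = 0 := by
      rintro x ⟨hx1, hx2⟩ y
      have h1 : f x y = 0 := by
        by_contra hne
        exact hr x hx1 hx2 (Or.inr ⟨y, hne⟩)
      have h2 : ind q x y = 0 := by
        by_contra hne
        have h3 := (ind_ne_zero q hne).1
        exact Walk.IsPath.ne_of_mem_support_of_append hrq hx2 hx1 h3 rfl
      rw [hg]; simp [h1, h2]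
    -- a positive arc of `F` that is not an arc of `g` goes into a new vertex, from ...
    have hstep : ∀ a b, 0 < F b a → (¬ 0 < g b a ∨ New b) → New a := by
      intro a b hFba hor
      have hgle : g b a ≤ 0 := by
        rcases hor with h | h
        · omega
        · rw [hNg b h]
      have h1 : 0 < ind r a b := by
        rw [ind_anti r a b]
        have := hgf b a
        omega
      obtain ⟨dt, hdt, h3, h4⟩ := ind_pos_dart r h1
      refine ⟨?_, ?_⟩
      · rw [← h3]; exact r.dart_fst_mem_support_of_mem_darts hdt
      · rw [← h3]; exact dart_fst_ne_end r hrp hdt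
    have claim : ∀ (x y : V) (P : N.Walk x y), Pos F P → ¬ New x → Pos g P := by
      intro x y P
      induction P with
      | nil => intro _ _ dt hdt; simp at hdt
      | @cons a b c hab P ih =>
        intro hP hna
        have hFba : 0 < F b a := hP ⟨(a, b), hab⟩ (by simp)
        have hnb : ¬ New b := fun hb => hna (hstep a b hFba (Or.inr hb))
        have hgba : 0 < g b a := by
          by_contra hc
          exact hna (hstep a b hFba (Or.inl hc))
        have hPP : Pos F P := fun dt hdt => hP dt (by simp [hdt])
        have := ih hPP hnb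
        intro dt hdt
        rw [Walk.darts_cons, List.mem_cons] at hdt
        rcases hdt with rfl | hdt
        · exact hgba
        · exact this dt hdt
    intro h hh s' P hP
    refine claim h s' P hP ?_
    rintro ⟨h1, h2⟩
    exact hr h h1 h2 (Or.inr hh)

/-- decomposition of a flow into edge disjoint paths -/
theorem decomp {N : SimpleGraph V} {S : Finset V} {ι : Type*} [DecidableEq ι] (h : ι → V)
    (J : Finset ι) : ∀ (f : V → V → ℤ), (∀ j ∈ J, h j ∉ S) →
      IsFlow N S (fun v => ∑ j ∈ J, one (h j) v) f →
      ∃ P : (j : ι) → (s : V) × N.Walk (h j) s,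
        (∀ j ∈ J, (P j).1 ∈ S ∧ (P j).2.IsPath ∧ Pos f (P j).2) ∧
        (∀ j ∈ J, ∀ j' ∈ J, j ≠ j' → List.Disjoint (P j).2.edges (P j').2.edges) := by
  classical
  induction J using Finset.induction_on with
  | empty => intro f _ _; exact ⟨fun j => ⟨h j, Walk.nil⟩, by simp, by simp⟩
  | insert a J ha ih =>
    intro f hS hf
    obtain ⟨s0, hs0, p0, hp0, hpos0, hsup0⟩ := reach_pos (N := N) (S := S) (δ := f) (h := h a)
      hf.anti hf.adj (hS a (Finset.mem_insert_self _ _))
      (fun v hv => by
        rw [hf.div v hv]
        exact Finset.sum_nonneg (fun j _ => by unfold one; split_ifs <;> simp))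
      (by
        rw [hf.div _ (hS a (Finset.mem_insert_self _ _)), Finset.sum_insert ha]
        have : 0 ≤ ∑ j ∈ J, one (h j) (h a) :=
          Finset.sum_nonneg (fun j _ => by unfold one; split_ifs <;> simp)
        have h1 : one (h a) (h a) = 1 := by simp [one]
        omega)
    set f' : V → V → ℤ := fun x y => f x y + ind p0 x y with hf'
    have hval : ∀ x y, 0 < ind p0 x y → f x y = -1 := by
      intro x y hxy
      obtain ⟨dt, hdt, h1, h2⟩ := ind_pos_dart p0 hxy
      have h3 := hpos0 dt hdt
      rw [h1, h2] at h3
      have := hf.le y x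
      have := hf.anti x y
      omega
    have hflow : IsFlow N S (fun v => ∑ j ∈ J, one (h j) v) f' := by
      refine ⟨?_, ?_, ?_, ?_⟩
      · intro x y
        rw [hf']; simp only; rw [hf.anti x y, ind_anti p0 x y]; ring
      · intro x y
        by_cases h1 : 0 < ind p0 x y
        · have := hval x y h1
          have := ind_path_le p0 hp0 x y
          rw [hf']; simp only; omega
        · have := hf.le x y
          rw [hf']; simp only; omega
      · intro x y hne
        by_cases h1 : ind p0 x y = 0
        · apply hf.adj; intro h2; apply hne; rw [hf']; simp [h1, h2]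
        · exact (ind_ne_zero p0 h1).2.2
      · intro v hv
        rw [hf']; simp only
        rw [Finset.sum_add_distrib, hf.div v hv, Finset.sum_insert ha, ind_div]
        have : v ≠ s0 := by rintro rfl; exact hv hs0
        simp only [one, if_neg this]; ring
    obtain ⟨P, hP1, hP2⟩ := ih f' (fun j hj => hS j (Finset.mem_insert_of_mem hj)) hflow
    have hPos : ∀ j ∈ J, Pos f (P j).2 := by
      intro j hj dt hdt
      have h1 := (hP1 j hj).2.2 dt hdt
      rw [hf'] at h1; simp only at h1
      by_cases h2 : 0 < ind p0 dt.snd dt.fst
      · have := hval _ _ h2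
        have := ind_path_le p0 hp0 dt.snd dt.fst
        omega
      · omega
    have hdisj : ∀ j ∈ J, ∀ e ∈ p0.edges, e ∉ (P j).2.edges := by
      intro j hj e he1 he2
      rw [Walk.edges, List.mem_map] at he1 he2
      obtain ⟨dt0, hdt0, rfl⟩ := he1
      obtain ⟨dt, hdt, hedge⟩ := he2
      have h1 := (hP1 j hj).2.2 dt hdt
      rw [hf'] at h1; simp only at h1
      have h2 := hPos j hj dt hdt
      have h3 := hf.le dt.snd dt.fst
      rcases SimpleGraph.dart_edge_eq_iff dt dt0 |>.1 hedge with rfl | h4
      · have h5 := ind_dart p0 hp0 hdt0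
        rw [ind_anti] at h5
        omega
      · have h5 := hpos0 dt0 hdt0
        have h6 : dt0.snd = dt.fst := by rw [h4]; rfl
        have h7 : dt0.fst = dt.snd := by rw [h4]; rfl
        rw [h6, h7, hf.anti] at h5
        omega
    refine ⟨Function.update P a ⟨s0, p0⟩, ?_, ?_⟩
    · intro j hj
      by_cases hja : j = a
      · subst hja
        rw [Function.update_self]
        exact ⟨hs0, hp0, hpos0⟩
      · rw [Function.update_of_ne hja]
        have hjJ : j ∈ J := (Finset.mem_insert.1 hj).resolve_left hja
        exact ⟨(hP1 j hjJ).1, (hP1 j hjJ).2.1, hPos j hjJ⟩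
    · intro j hj j' hj' hne
      by_cases hja : j = a
      · subst hja
        rw [Function.update_self]
        have hj'a : j' ≠ j := hne.symm
        rw [Function.update_of_ne hj'a]
        have hj'J : j' ∈ J := (Finset.mem_insert.1 hj').resolve_left hj'a
        intro e he1 he2
        exact hdisj j' hj'J e he1 he2
      · rw [Function.update_of_ne hja]
        have hjJ : j ∈ J := (Finset.mem_insert.1 hj).resolve_left hja
        by_cases hj'a : j' = a
        · subst hj'a
          rw [Function.update_self]
          intro e he1 he2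
          exact hdisj j hjJ e he2 he1
        · rw [Function.update_of_ne hj'a]
          have hj'J : j' ∈ J := (Finset.mem_insert.1 hj').resolve_left hj'a
          exact hP2 j hjJ j' hj'J hne

end Pool.Agent.H89.Imm
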