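import Pool.Agent.H89.Imm.Flow4

set_option autoImplicit false
set_option linter.unusedSectionVars false
set_option linter.unusedVariables false
set_option linter.unusedSimpArgs false

namespace Pool.Agent.H89.Imm

open Finset SimpleGraph

variable {V : Type*} [DecidableEq V] [Fintype V]

/-- removing a path from a flow -/
lemma remove_path {N : SimpleGraph V} {S : Finset V} {d : V → ℤ} {f : V → V → ℤ} {h s : V}
    (hf : IsFlow N S (fun v => d v + one h v) f) (hs : s ∈ S) (p : N.Walk h s) (hp : p.IsPath)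
    (hpos : Pos f p) :
    IsFlow N S d (fun x y => f x y + ind p x y) ∧ arcs (fun x y => f x y + ind p x y) ⊆ arcs f := by
  have hval : ∀ x y, 0 < ind p x y → f x y = -1 := by
    intro x y hxy
    obtain ⟨dt, hdt, h1, h2⟩ := ind_pos_dart p hxy
    have h3 := hpos dt hdt
    rw [h1, h2] at h3
    have := hf.le y x
    have := hf.anti x y
    omega
  refine ⟨⟨?_, ?_, ?_, ?_⟩, ?_⟩
  · intro x y
    rw [hf.anti x y, ind_anti p x y]; ring
  · intro x y
    by_cases h1 : 0 < ind p x y
    · have := hval x y h1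
      have := ind_path_le p hp x y
      omega
    · have := hf.le x y
      omega
  · intro x y hne
    by_cases h1 : ind p x y = 0
    · apply hf.adj; intro h2; apply hne; simp [h1, h2]
    · exact (ind_ne_zero p h1).2.2
  · intro v hv
    rw [Finset.sum_add_distrib, hf.div v hv, ind_div]
    have : v ≠ s := by rintro rfl; exact hv hs
    simp only [one, if_neg this]; ring
  · rintro ⟨x, y⟩ hxy
    rw [mem_arcs] at hxy ⊢
    by_cases h1 : 0 < ind p x y
    · have := hval x y h1
      have := ind_path_le p hp x y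
      omega
    · omega

open Classical in
/-- the cheapest flow (zero if there is none) -/
noncomputable def mf (w : V × V → ℤ) (N : SimpleGraph V) (S : Finset V) (d : V → ℤ) : V → V → ℤ :=
  if h : ∃ f, IsMin w N S d f then h.choose else 0

lemma mf_spec {w : V × V → ℤ} {N : SimpleGraph V} {S : Finset V} {d : V → ℤ}
    (h : ∃ f, IsMin w N S d f) : IsMin w N S d (mf w N S d) := by
  unfold mf; rw [dif_pos h]; exact h.choose_spec

lemma mf_eq {w : V × V → ℤ} (hw : Gen w) {N : SimpleGraph V} {S : Finset V} {d : V → ℤ}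
    {f : V → V → ℤ} (h : IsMin w N S d f) : mf w N S d = f :=
  min_unique hw (mf_spec ⟨f, h⟩) h

/-- edges used by the flow -/
def edgesOf (f : V → V → ℤ) : Finset (Sym2 V) := (arcs f).image (fun p => s(p.1, p.2))

/-- vertices touched by the flow -/
def verts (f : V → V → ℤ) : Finset V := (arcs f).image Prod.fst ∪ (arcs f).image Prod.snd

lemma card_edgesOf (f : V → V → ℤ) : (edgesOf f).card ≤ (arcs f).card := Finset.card_image_le

lemma card_verts (f : V → V → ℤ) : (verts f).card ≤ 2 * (arcs f).card := by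
  unfold verts
  calc _ ≤ ((arcs f).image Prod.fst).card + ((arcs f).image Prod.snd).card := Finset.card_union_le _ _
    _ ≤ (arcs f).card + (arcs f).card := add_le_add Finset.card_image_le Finset.card_image_le
    _ = _ := by ring

lemma mem_verts {N : SimpleGraph V} {S : Finset V} {d : V → ℤ} {f : V → V → ℤ}
    (hf : IsFlow N S d f) {x : V} (h : ∃ y, f x y ≠ 0) : x ∈ verts f := by
  obtain ⟨y, hy⟩ := h
  unfold verts
  rw [Finset.mem_union, Finset.mem_image, Finset.mem_image]
  rcases lt_or_gt_of_ne hy with h1 | h1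
  · right
    refine ⟨(y, x), ?_, rfl⟩
    rw [mem_arcs, hf.anti y x]; omega
  · left
    exact ⟨(x, y), by rw [mem_arcs]; exact h1, rfl⟩

open Classical in
/-- edges of the cheapest flow, if it has at most `K` arcs -/
noncomputable def EF (w : V × V → ℤ) (N : SimpleGraph V) (S : Finset V) (d : V → ℤ) (K : ℕ) :
    Finset (Sym2 V) :=
  if (∃ f, IsMin w N S d f ∧ (arcs f).card ≤ K) then edgesOf (mf w N S d) else ∅

open Classical in
/-- edges of the cheapest flow and of the cheapest flows to one more vertex touched by it -/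
noncomputable def EPlus (w : V × V → ℤ) (N : SimpleGraph V) (S : Finset V) (d : V → ℤ) (K : ℕ) :
    Finset (Sym2 V) :=
  if (∃ f, IsMin w N S d f ∧ (arcs f).card ≤ K) then
    edgesOf (mf w N S d) ∪
      (verts (mf w N S d)).biUnion (fun z => EF w N S (fun v => d v + one z v) (3 * K))
  else ∅

lemma EF_eq {w : V × V → ℤ} (hw : Gen w) {N : SimpleGraph V} {S : Finset V} {d : V → ℤ} {K : ℕ}
    {f : V → V → ℤ} (h : IsMin w N S d f) (hK : (arcs f).card ≤ K) : EF w N S d K = edgesOf f := by
  unfold EF; rw [if_pos ⟨f, h, hK⟩, mf_eq hw h]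

lemma card_EF {w : V × V → ℤ} (hw : Gen w) (N : SimpleGraph V) (S : Finset V) (d : V → ℤ) (K : ℕ) :
    (EF w N S d K).card ≤ K := by
  by_cases h : ∃ f, IsMin w N S d f ∧ (arcs f).card ≤ K
  · obtain ⟨f, h1, h2⟩ := h
    rw [EF_eq hw h1 h2]
    exact (card_edgesOf f).trans h2
  · unfold EF; rw [if_neg h]; simp

lemma card_EPlus {w : V × V → ℤ} (hw : Gen w) (N : SimpleGraph V) (S : Finset V) (d : V → ℤ) (K : ℕ) :
    (EPlus w N S d K).card ≤ K + 2 * K * (3 * K) := by
  by_cases h : ∃ f, IsMin w N S d f ∧ (arcs f).card ≤ K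
  · unfold EPlus; rw [if_pos h]
    obtain ⟨f, h1, h2⟩ := h
    rw [mf_eq hw h1]
    refine (Finset.card_union_le _ _).trans ?_
    refine add_le_add ((card_edgesOf f).trans h2) ?_
    refine Finset.card_biUnion_le.trans ?_
    refine (Finset.sum_le_card_nsmul _ _ (3 * K) (fun z _ => card_EF hw _ _ _ _)).trans ?_
    rw [smul_eq_mul]
    exact Nat.mul_le_mul_right _ ((card_verts f).trans (Nat.mul_le_mul_left _ h2))
  · unfold EPlus; rw [if_neg h]; simp

lemma edgesOf_subset {N : SimpleGraph V} {S : Finset V} {d : V → ℤ} {f : V → V → ℤ}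
    (hf : IsFlow N S d f) {e : Sym2 V} (he : e ∈ edgesOf f) : e ∈ N.edgeSet := by
  unfold edgesOf at he
  rw [Finset.mem_image] at he
  obtain ⟨⟨x, y⟩, h1, rfl⟩ := he
  rw [mem_arcs] at h1
  exact hf.adj x y (by omega)

lemma EF_subset {w : V × V → ℤ} (hw : Gen w) {N : SimpleGraph V} {S : Finset V} {d : V → ℤ} {K : ℕ}
    {e : Sym2 V} (he : e ∈ EF w N S d K) : e ∈ N.edgeSet := by
  by_cases h : ∃ f, IsMin w N S d f ∧ (arcs f).card ≤ K
  · obtain ⟨f, h1, h2⟩ := h
    rw [EF_eq hw h1 h2] at he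
    exact edgesOf_subset h1.1 he
  · unfold EF at he; rw [if_neg h] at he; simp at he

lemma EPlus_subset {w : V × V → ℤ} (hw : Gen w) {N : SimpleGraph V} {S : Finset V} {d : V → ℤ}
    {K : ℕ} {e : Sym2 V} (he : e ∈ EPlus w N S d K) : e ∈ N.edgeSet := by
  by_cases h : ∃ f, IsMin w N S d f ∧ (arcs f).card ≤ K
  · unfold EPlus at he; rw [if_pos h] at he
    obtain ⟨f, h1, h2⟩ := h
    rw [mf_eq hw h1, Finset.mem_union] at he
    rcases he with he | he
    · exact edgesOf_subset h1.1 he
    · rw [Finset.mem_biUnion] at he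
      obtain ⟨z, -, hz⟩ := he
      exact EF_subset hw hz
  · unfold EPlus at he; rw [if_neg h] at he; simp at he

/-- demand of the hubs with index in `J` -/
def dem {ι : Type*} (J : Finset ι) (h : ι → V) : V → ℤ := fun v => ∑ j ∈ J, one (h j) v

lemma edges_sub_edgesOf {N : SimpleGraph V} {f : V → V → ℤ} {u v : V} {p : N.Walk u v}
    (hp : Pos f p) : ∀ e ∈ p.edges, e ∈ edgesOf f := by
  intro e he
  rw [Walk.edges, List.mem_map] at he
  obtain ⟨dt, hdt, rfl⟩ := he
  unfold edgesOf
  rw [Finset.mem_image]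
  refine ⟨(dt.snd, dt.fst), ?_, ?_⟩
  · rw [mem_arcs]; exact hp dt hdt
  · rw [SimpleGraph.Dart.edge, Sym2.eq_swap]

/-- the paths of one role -/
theorem role {w : V × V → ℤ} (hw : Gen w) {N : SimpleGraph V} {S : Finset V} {ι : Type*} [Fintype ι]
    [DecidableEq ι] (h : ι → V) (hS : ∀ j, h j ∉ S) (K : ℕ)
    (hex : ∃ f, IsFlow N S (dem univ h) f ∧ (arcs f).card ≤ K) :
    ∃ P : (j : ι) → (s : V) × N.Walk (h j) s,
      (∀ j, (P j).1 ∈ S) ∧
      (∀ j, (P j).2.IsPath) ∧
      (∀ j, ∀ e ∈ (P j).2.edges, e ∈ EF w N S (dem univ h) K) ∧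
      (∀ j j', j ≠ j' → List.Disjoint (P j).2.edges (P j').2.edges) ∧
      (∀ j0 j, j ≠ j0 → ∀ e ∈ (P j).2.edges, e ∈ EPlus w N S (dem (univ.erase j0) h) K) := by
  classical
  obtain ⟨f0, hf0, hf0K⟩ := hex
  obtain ⟨F, hF⟩ := exists_min hw ⟨f0, hf0⟩
  have hFK : (arcs F).card ≤ K := (min_arcs_le hw hF hf0).trans hf0K
  obtain ⟨P, hP1, hP2⟩ := decomp h univ F (fun j _ => hS j) hF.1
  refine ⟨P, fun j => (hP1 j (mem_univ j)).1, fun j => (hP1 j (mem_univ j)).2.1, ?_,
    fun j j' hne => hP2 j (mem_univ j) j' (mem_univ j') hne, ?_⟩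
  · intro j e he
    rw [EF_eq hw hF hFK]
    exact edges_sub_edgesOf (hP1 j (mem_univ j)).2.2 e he
  · intro j0 j hj e he
    have hsplit : dem univ h = fun v => dem (univ.erase j0) h v + one (h j0) v := by
      funext v
      unfold dem
      rw [← Finset.add_sum_erase univ _ (mem_univ j0)]
      ring
    rw [hsplit] at hF
    obtain ⟨h1, h2⟩ := remove_path hF.1 (hP1 j0 (mem_univ j0)).1 (P j0).2
      (hP1 j0 (mem_univ j0)).2.1 (hP1 j0 (mem_univ j0)).2.2
    obtain ⟨f, hf⟩ := exists_min hw ⟨_, h1⟩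
    have hfK : (arcs f).card ≤ K :=
      (min_arcs_le hw hf h1).trans ((Finset.card_le_card h2).trans hFK)
    obtain ⟨g, hg1, hg2, hg3⟩ := offhub hw hf hF (hS j0)
    have hgK : (arcs g).card ≤ 3 * K := by omega
    have hjv : ∃ y, f (h j) y ≠ 0 := by
      by_contra hcon
      push Not at hcon
      have h3 := hf.1.div (h j) (hS j)
      have h4 : ∑ u, f u (h j) = 0 := by
        refine Finset.sum_eq_zero (fun u _ => ?_)
        rw [hf.1.anti, hcon u]; rfl
      rw [h4] at h3
      have h5 : 1 ≤ dem (univ.erase j0) h (h j) := by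
        unfold dem
        have hmem : j ∈ univ.erase j0 := by simp [hj]
        calc (1 : ℤ) = one (h j) (h j) := by simp [one]
          _ ≤ _ := Finset.single_le_sum (f := fun i => one (h i) (h j))
              (fun i _ => by unfold one; split_ifs <;> simp) hmem
      omega
    have hPg := hg3 (h j) hjv _ (P j).2 (hP1 j (mem_univ j)).2.2
    have heg := edges_sub_edgesOf hPg e he
    unfold EPlus
    rw [if_pos ⟨f, hf, hfK⟩, mf_eq hw hf, Finset.mem_union]
    rcases hg1 with rfl | ⟨z, hz, hgz⟩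
    · left; exact heg
    · right
      rw [Finset.mem_biUnion]
      exact ⟨z, mem_verts hf.1 hz, by rw [EF_eq hw hgz hgK]; exact heg⟩

end Pool.Agent.H89.Imm
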