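import Pool.Agent.H89.Imm.Cut

set_option autoImplicit false
set_option linter.unusedSectionVars false
set_option linter.unusedVariables false
set_option linter.unusedSimpArgs false

namespace Pool.Agent.H89.Imm

open Finset SimpleGraph

variable {V : Type*} [DecidableEq V] [Fintype V]

/-- smallest cheapest set containing `v` -/
structure IsT (G : SimpleGraph V) (M : ℕ) (v : V) (T : Finset V) : Prop where
  mem : v ∈ T
  card : T.card ≤ M
  le : ∀ X : Finset V, v ∈ X → X.card ≤ M → cut G T ≤ cut G X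
  small : ∀ X : Finset V, v ∈ X → X.card ≤ M → cut G X ≤ cut G T → T.card ≤ X.card

lemma exists_T (G : SimpleGraph V) {M : ℕ} (hM : 1 ≤ M) (v : V) : ∃ T, IsT G M v T := by
  classical
  set F := univ.filter (fun X : Finset V => v ∈ X ∧ X.card ≤ M) with hF
  have hne : F.Nonempty := ⟨{v}, by rw [hF, Finset.mem_filter]; simp [hM]⟩
  obtain ⟨T, hT, hmin⟩ := Finset.exists_min_image F
    (fun X => cut G X * (Fintype.card V + 1) + X.card) hne
  rw [hF, Finset.mem_filter] at hT
  have hbd : ∀ X : Finset V, X.card < Fintype.card V + 1 := fun X =>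
    Nat.lt_succ_of_le (Finset.card_le_univ X)
  refine ⟨T, hT.2.1, hT.2.2, ?_, ?_⟩
  · intro X hX hXM
    have h1 := hmin X (by rw [hF, Finset.mem_filter]; exact ⟨Finset.mem_univ _, hX, hXM⟩)
    by_contra hc
    push Not at hc
    have h2 : (cut G X + 1) * (Fintype.card V + 1) ≤ cut G T * (Fintype.card V + 1) :=
      Nat.mul_le_mul_right _ hc
    have h3 := hbd X
    rw [add_mul, one_mul] at h2
    omega
  · intro X hX hXM hcut
    have h1 := hmin X (by rw [hF, Finset.mem_filter]; exact ⟨Finset.mem_univ _, hX, hXM⟩)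
    have h2 : cut G X * (Fintype.card V + 1) ≤ cut G T * (Fintype.card V + 1) :=
      Nat.mul_le_mul_right _ hcut
    omega

/-- the sets are laminar -/
lemma laminar {G : SimpleGraph V} {M : ℕ} {u v : V} {Tu Tv : Finset V} (hu : IsT G M u Tu)
    (hv : IsT G M v Tv) (hsu : 2 * Tu.card ≤ M) (hsv : 2 * Tv.card ≤ M) :
    Tu ⊆ Tv ∨ Tv ⊆ Tu ∨ Disjoint Tu Tv := by
  have key : ∀ (u v : V) (Tu Tv : Finset V), IsT G M u Tu → IsT G M v Tv → 2 * Tu.card ≤ M →
      2 * Tv.card ≤ M → u ∈ Tv → Tu ⊆ Tv := by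
    intro u v Tu Tv hu hv hsu hsv huv
    have h1 : cut G Tv ≤ cut G (Tu ∪ Tv) := by
      apply hv.le
      · exact Finset.mem_union_right _ hv.mem
      · have := Finset.card_union_le Tu Tv; omega
    have h2 := cut_submod G Tu Tv
    have h3 : cut G (Tu ∩ Tv) ≤ cut G Tu := by omega
    have h4 : (Tu ∩ Tv).card ≤ Tu.card := Finset.card_le_card Finset.inter_subset_left
    have h5 := hu.small (Tu ∩ Tv) (Finset.mem_inter.2 ⟨hu.mem, huv⟩) (by omega) h3
    have h6 : Tu ∩ Tv = Tu := Finset.eq_of_subset_of_card_le Finset.inter_subset_left h5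
    exact Finset.inter_eq_left.1 h6
  by_cases h1 : u ∈ Tv
  · left; exact key u v Tu Tv hu hv hsu hsv h1
  by_cases h2 : v ∈ Tu
  · right; left; exact key v u Tv Tu hv hu hsv hsu h2
  right; right
  have h3 := cut_posimod G Tu Tv
  have hc1 : (Tv \ Tu).card ≤ Tv.card := Finset.card_le_card Finset.sdiff_subset
  have hc2 : (Tu \ Tv).card ≤ Tu.card := Finset.card_le_card Finset.sdiff_subset
  have h4 := hv.le (Tv \ Tu) (Finset.mem_sdiff.2 ⟨hv.mem, h2⟩) (by omega)
  have h5 : cut G (Tu \ Tv) ≤ cut G Tu := by omega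
  have h6 := hu.small (Tu \ Tv) (Finset.mem_sdiff.2 ⟨hu.mem, h1⟩) (by omega) h5
  have h7 : Tu \ Tv = Tu := Finset.eq_of_subset_of_card_le Finset.sdiff_subset h6
  exact Finset.sdiff_eq_self_iff_disjoint.1 h7

/-- maximal members of a laminar family form a partition -/
theorem parts (A : Finset V) (T : V → Finset V) (hmem : ∀ v ∈ A, v ∈ T v)
    (hlam : ∀ u ∈ A, ∀ v ∈ A, T u ⊆ T v ∨ T v ⊆ T u ∨ Disjoint (T u) (T v)) :
    ∃ PP : Finset (Finset V), (∀ P ∈ PP, ∃ w ∈ A, P = T w) ∧
      (∀ v ∈ A, ∃ P ∈ PP, v ∈ P) ∧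
      (∀ P ∈ PP, ∀ Q ∈ PP, P ≠ Q → Disjoint P Q) := by
  classical
  have hex : ∀ v ∈ A, ∃ w ∈ A, v ∈ T w ∧ ∀ w' ∈ A, v ∈ T w' → (T w').card ≤ (T w).card := by
    intro v hv
    obtain ⟨w, hw, hmax⟩ := Finset.exists_max_image (A.filter (fun w => v ∈ T w))
      (fun w => (T w).card) ⟨v, by rw [Finset.mem_filter]; exact ⟨hv, hmem v hv⟩⟩
    rw [Finset.mem_filter] at hw
    exact ⟨w, hw.1, hw.2, fun w' hw' hv' => hmax w' (by rw [Finset.mem_filter]; exact ⟨hw', hv'⟩)⟩
  choose! W hW1 hW2 hW3 using hex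
  refine ⟨A.image (fun v => T (W v)), ?_, ?_, ?_⟩
  · intro P hP
    rw [Finset.mem_image] at hP
    obtain ⟨v, hv, rfl⟩ := hP
    exact ⟨W v, hW1 v hv, rfl⟩
  · intro v hv
    exact ⟨T (W v), Finset.mem_image.2 ⟨v, hv, rfl⟩, hW2 v hv⟩
  · intro P hP Q hQ hne
    rw [Finset.mem_image] at hP hQ
    obtain ⟨v, hv, rfl⟩ := hP
    obtain ⟨v', hv', rfl⟩ := hQ
    have aux : ∀ v ∈ A, ∀ v' ∈ A, T (W v) ⊆ T (W v') → T (W v) = T (W v') := by
      intro v hv v' hv' hsub
      apply Finset.eq_of_subset_of_card_le hsub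
      exact hW3 v hv (W v') (hW1 v' hv') (hsub (hW2 v hv))
    rcases hlam (W v) (hW1 v hv) (W v') (hW1 v' hv') with h | h | h
    · exact absurd (aux v hv v' hv' h) hne
    · exact absurd (aux v' hv' v hv h).symm hne
    · exact h

/-- the clusters of `H` -/
theorem clusters (H : SimpleGraph V) {M s B : ℕ} (hM : 1 ≤ M)
    (hs : ∀ X : Finset V, X.card ≤ M → cut H X < B → X.card ≤ s) (hsM : 2 * s ≤ M)
    (V1 : Finset V) (hV1 : ∀ v, v ∈ V1 ↔ ∀ X : Finset V, v ∈ X → X.card ≤ M → B ≤ cut H X) :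
    ∃ PP : Finset (Finset V),
      (∀ P ∈ PP, P.card ≤ s ∧ cut H P < B ∧ Disjoint P V1 ∧
        ∃ w ∈ P, ∀ X : Finset V, w ∈ X → X.card ≤ M → cut H P ≤ cut H X) ∧
      (∀ v, v ∉ V1 → ∃ P ∈ PP, v ∈ P) ∧
      (∀ P ∈ PP, ∀ Q ∈ PP, P ≠ Q → Disjoint P Q) := by
  classical
  choose T hT using fun v => exists_T H hM v
  have hsmall : ∀ v ∈ V1ᶜ, cut H (T v) < B ∧ (T v).card ≤ s := by
    intro v hv
    rw [Finset.mem_compl, hV1] at hv
    push Not at hv
    obtain ⟨X, hX1, hX2, hX3⟩ := hv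
    have h1 := (hT v).le X hX1 hX2
    have h2 : cut H (T v) < B := by omega
    exact ⟨h2, hs _ (hT v).card h2⟩
  obtain ⟨PP, h1, h2, h3⟩ := parts V1ᶜ T (fun v _ => (hT v).mem) (fun u hu v hv =>
    laminar (hT u) (hT v) (by have := (hsmall u hu).2; omega) (by have := (hsmall v hv).2; omega))
  refine ⟨PP, ?_, ?_, h3⟩
  · intro P hP
    obtain ⟨w, hw, rfl⟩ := h1 P hP
    refine ⟨(hsmall w hw).2, (hsmall w hw).1, ?_, w, (hT w).mem, (hT w).le⟩
    rw [Finset.disjoint_left]
    intro x hx hx1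
    rw [hV1] at hx1
    have := hx1 (T w) hx (hT w).card
    have := (hsmall w hw).1
    omega
  · intro v hv
    exact h2 v (Finset.mem_compl.2 hv)

/-- end points of a set of edges -/
def ends (D : Finset (Sym2 V)) : Finset V := univ.filter (fun v => ∃ e ∈ D, v ∈ e)

lemma card_ends (D : Finset (Sym2 V)) : (ends D).card ≤ 2 * D.card := by
  classical
  have h1 : ends D ⊆ D.biUnion (fun e => univ.filter (fun v => v ∈ e)) := by
    intro v hv
    unfold ends at hv
    rw [Finset.mem_filter] at hv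
    obtain ⟨-, e, he, hve⟩ := hv
    rw [Finset.mem_biUnion]
    exact ⟨e, he, by simpa using hve⟩
  refine (Finset.card_le_card h1).trans (Finset.card_biUnion_le.trans ?_)
  have h2 : ∀ e : Sym2 V, (univ.filter (fun v => v ∈ e)).card ≤ 2 := by
    intro e
    induction e using Sym2.ind with
    | _ x y =>
      have : univ.filter (fun v => v ∈ s(x, y)) ⊆ {x, y} := by
        intro v hv
        simpa using hv
      exact (Finset.card_le_card this).trans Finset.card_le_two
  calc ∑ e ∈ D, (univ.filter (fun v => v ∈ e)).card ≤ ∑ e ∈ D, 2 := Finset.sum_le_sum (fun e _ => h2 e)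
    _ = 2 * D.card := by rw [Finset.sum_const, smul_eq_mul]; ring

/-- few vertices are harmed by deleting few edges -/
theorem few_bad (H : SimpleGraph V) (D : Finset (Sym2 V)) {M s B : ℕ} (hM : 1 ≤ M)
    (hs : ∀ X : Finset V, X.card ≤ M → cut (H.deleteEdges (D : Set (Sym2 V))) X < B → X.card ≤ s)
    (hsM : 2 * s ≤ M) :
    ∃ Bad : Finset V, Bad.card ≤ 2 * D.card * s ∧
      ∀ v, v ∉ Bad → ∀ β ≤ B, (∀ X : Finset V, v ∈ X → X.card ≤ M → β ≤ cut H X) →
        ∀ X : Finset V, v ∈ X → X.card ≤ M → β ≤ cut (H.deleteEdges (D : Set (Sym2 V))) X := by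
  classical
  set G := H.deleteEdges (D : Set (Sym2 V)) with hG
  choose T0 hT0 using fun v => exists_T H hM v
  choose T hT using fun v => exists_T G hM v
  set A : Finset V := univ.filter (fun v => cut G (T v) < min B (cut H (T0 v))) with hA
  have hsmall : ∀ v ∈ A, cut G (T v) < B ∧ (T v).card ≤ s ∧ cut G (T v) < cut H (T v) := by
    intro v hv
    rw [hA, Finset.mem_filter] at hv
    have h1 := hv.2
    rw [lt_min_iff] at h1
    refine ⟨h1.1, hs _ (hT v).card h1.1, lt_of_lt_of_le h1.2 ?_⟩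
    exact (hT0 v).le _ (hT v).mem (hT v).card
  obtain ⟨PP, h1, h2, h3⟩ := parts A T (fun v _ => (hT v).mem) (fun u hu v hv =>
    laminar (hT u) (hT v) (by have := (hsmall u hu).2.1; omega) (by have := (hsmall v hv).2.1; omega))
  -- each part meets an end of `D`
  have h4 : ∀ P ∈ PP, ∃ x ∈ P, x ∈ ends D := by
    intro P hP
    obtain ⟨w, hw, rfl⟩ := h1 P hP
    by_contra hcon
    push Not at hcon
    have h5 := (hsmall w hw).2.2
    have h6 : cut H (T w) ≤ cut G (T w) := by
      unfold cut ec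
      apply Finset.card_le_card
      rintro ⟨u, v⟩ huv
      rw [mem_prs] at huv ⊢
      refine ⟨huv.1, huv.2.1, ?_⟩
      rw [hG, SimpleGraph.deleteEdges_adj]
      refine ⟨huv.2.2, ?_⟩
      intro hD
      apply hcon u huv.1
      unfold ends
      rw [Finset.mem_filter]
      exact ⟨Finset.mem_univ _, s(u, v), by simpa using hD, by simp⟩
    omega
  have hPcard : PP.card ≤ 2 * D.card := by
    rcases isEmpty_or_nonempty V with hVe | hVn
    · have : PP = ∅ := by
        rw [Finset.eq_empty_iff_forall_notMem]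
        intro P hP
        obtain ⟨w, hw, -⟩ := h1 P hP
        exact hVe.elim w
      rw [this]; simp
    choose! x hx1 hx2 using h4
    refine le_trans ?_ (card_ends D)
    refine Finset.card_le_card_of_injOn x (fun P hP => hx2 P hP) ?_
    intro P hP Q hQ hPQ
    by_contra hne
    have h5 := h3 P hP Q hQ hne
    exact Finset.disjoint_left.1 h5 (hx1 P hP) (by rw [hPQ]; exact hx1 Q hQ)
  refine ⟨A, ?_, ?_⟩
  · have h5 : A ⊆ PP.biUnion id := by
      intro v hv
      obtain ⟨P, hP, hvP⟩ := h2 v hv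
      exact Finset.mem_biUnion.2 ⟨P, hP, hvP⟩
    refine (Finset.card_le_card h5).trans (Finset.card_biUnion_le.trans ?_)
    calc ∑ P ∈ PP, (id P).card ≤ ∑ P ∈ PP, s := Finset.sum_le_sum (fun P hP => by
          obtain ⟨w, hw, rfl⟩ := h1 P hP
          exact (hsmall w hw).2.1)
      _ = PP.card * s := by rw [Finset.sum_const, smul_eq_mul]
      _ ≤ 2 * D.card * s := Nat.mul_le_mul_right _ hPcard
  · intro v hv β hβ hβX X hX hXM
    rw [hA, Finset.mem_filter, not_and] at hv
    have h5 := hv (Finset.mem_univ _)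
    push Not at h5
    have h6 := (hT v).le X hX hXM
    have h7 := hβX (T0 v) (hT0 v).mem (hT0 v).card
    have h8 : β ≤ min B (cut H (T0 v)) := le_min hβ h7
    omega

/-- trimming: after deleting few edges, and then all edges at a small set `Z`, the rest expands -/
theorem trim (H : SimpleGraph V) (D : Finset (Sym2 V)) {M : ℕ} {κ : ℝ} (hκ : 0 < κ)
    (hexp : ∀ X : Finset V, X.card ≤ M → 2 * κ * X.card ≤ cut H X) :
    ∃ Z : Finset V, κ * Z.card ≤ D.card ∧ cut H Z ≤ 2 * D.card ∧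
      ∀ D' : Finset (Sym2 V), (∀ e, e ∈ D' ↔ e ∈ D ∨ (e ∈ H.edgeSet ∧ ∃ z ∈ Z, z ∈ e)) →
      ∀ X : Finset V, Disjoint X Z → X.card + Z.card ≤ M →
        κ * X.card ≤ cut (H.deleteEdges (D' : Set (Sym2 V))) X := by
  classical
  set G := H.deleteEdges (D : Set (Sym2 V)) with hG
  obtain ⟨Z, hZ, hmin⟩ := Finset.exists_min_image (univ.filter (fun X : Finset V => X.card ≤ M))
    (fun X => (cut G X : ℝ) - κ * X.card) ⟨∅, by simp⟩
  rw [Finset.mem_filter] at hZ
  have h0 := hmin ∅ (by simp)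
  have hcut0 : cut G ∅ = 0 := by
    unfold cut ec
    rw [Finset.card_eq_zero]
    ext ⟨u, v⟩; simp [mem_prs]
  simp only [hcut0, Finset.card_empty] at h0
  norm_num at h0
  have h1 := cut_delete H D Z
  rw [← hG] at h1
  have h1' : (cut H Z : ℝ) ≤ cut G Z + D.card := by exact_mod_cast h1
  have h2 := hexp Z hZ.2
  have h3 : κ * Z.card ≤ D.card := by linarith
  refine ⟨Z, h3, ?_, ?_⟩
  · have : (cut H Z : ℝ) ≤ 2 * D.card := by linarith
    exact_mod_cast this
  · intro D' hD' X hXZ hcard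
    have h4 := hmin (X ∪ Z) (by
      rw [Finset.mem_filter]
      exact ⟨Finset.mem_univ _, (Finset.card_union_le X Z).trans hcard⟩)
    have h5 : (cut G (X ∪ Z) : ℝ) = cut G X + cut G Z - 2 * ec G X Z := by
      exact_mod_cast cut_union G hXZ
    rw [h5, Finset.card_union_of_disjoint hXZ] at h4
    push_cast at h4
    -- the cut after deleting all edges at `Z`
    have h6 : cut G X ≤ cut (H.deleteEdges (D' : Set (Sym2 V))) X + ec G X Z := by
      unfold cut ec
      refine le_trans (Finset.card_le_card (t := prs (H.deleteEdges (D' : Set (Sym2 V))) X Xᶜ ∪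
        prs G X Z) ?_) (Finset.card_union_le _ _)
      rintro ⟨u, v⟩ huv
      rw [mem_prs] at huv
      obtain ⟨hu, hv, hadj⟩ := huv
      rw [Finset.mem_union, mem_prs, mem_prs]
      by_cases hvZ : v ∈ Z
      · right; exact ⟨hu, hvZ, hadj⟩
      · left
        refine ⟨hu, hv, ?_⟩
        rw [hG, SimpleGraph.deleteEdges_adj] at hadj
        rw [SimpleGraph.deleteEdges_adj]
        refine ⟨hadj.1, ?_⟩
        intro hD
        have hD2 : s(u, v) ∈ D' := by simpa using hD
        rw [hD'] at hD2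
        rcases hD2 with h | ⟨-, z, hz, hze⟩
        · exact hadj.2 (by simpa using h)
        · rw [Sym2.mem_iff] at hze
          rcases hze with rfl | rfl
          · exact Finset.disjoint_left.1 hXZ hu hz
          · exact hvZ hz
    have h6' : (cut G X : ℝ) ≤ cut (H.deleteEdges (D' : Set (Sym2 V))) X + ec G X Z := by
      exact_mod_cast h6
    have h7 : (0 : ℝ) ≤ ec G X Z := by positivity
    linarith

end Pool.Agent.H89.Imm
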