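import Pool.Agent.H89.Imm.Compose

set_option autoImplicit false
set_option linter.unusedSectionVars false
set_option linter.unusedVariables false
set_option linter.unusedSimpArgs false

namespace Pool.Agent.H89.Imm

open Finset SimpleGraph

/-- immersion of the graph with edge set `A` inside `X` -/
def ImmA {V : Type*} (k : ℕ) (G : SimpleGraph V) (X : Finset V) (A : Finset (Fin k × Fin k)) : Prop :=
  ∃ f : Fin k → V, Function.Injective f ∧ (∀ i, f i ∈ X) ∧
    ∃ P : ∀ a : Fin k × Fin k, a ∈ A → G.Walk (f a.1) (f a.2),
      (∀ a h, (P a h).IsPath) ∧ (∀ a h, ∀ v ∈ (P a h).support, v ∈ X) ∧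
      (∀ a h a' h', a ≠ a' → (P a h).edges.Disjoint (P a' h').edges)

variable {V : Type*} [DecidableEq V] [Fintype V]

lemma ec_le_mul (G : SimpleGraph V) (X Y : Finset V) : ec G X Y ≤ X.card * Y.card := by
  unfold ec
  rw [← Finset.card_product]
  apply Finset.card_le_card
  rintro ⟨x, y⟩ h
  rw [mem_prs] at h
  exact Finset.mem_product.2 ⟨h.1, h.2.1⟩

lemma ec_empty (G : SimpleGraph V) (Y : Finset V) : ec G ∅ Y = 0 := by
  have := ec_le_mul G ∅ Y
  simpa using this

/-- connected vertex sets -/
def Cn (G : SimpleGraph V) (U : Finset V) : Prop :=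
  ∀ x ∈ U, ∀ y ∈ U, ∃ p : G.Walk x y, ∀ z ∈ p.support, z ∈ U

open Classical in
/-- neighbours of `U` in `R` -/
noncomputable def nb (G : SimpleGraph V) (R U : Finset V) : Finset V :=
  R.filter (fun v => ∃ u ∈ U, G.Adj u v)

lemma mem_nb {G : SimpleGraph V} {R U : Finset V} {v : V} :
    v ∈ nb G R U ↔ v ∈ R ∧ ∃ u ∈ U, G.Adj u v := by
  unfold nb; simp only [Finset.mem_filter]

lemma ec_singleton (G : SimpleGraph V) (v : V) (R : Finset V) : ec G {v} R = (nb G R {v}).card := by
  unfold ec
  refine Finset.card_bij (fun p _ => p.2) ?_ ?_ ?_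
  · rintro ⟨x, y⟩ h
    rw [mem_prs, Finset.mem_singleton] at h
    rw [mem_nb]
    exact ⟨h.2.1, v, by simp, by rw [← h.1]; exact h.2.2⟩
  · rintro ⟨x, y⟩ h ⟨x', y'⟩ h' heq
    rw [mem_prs, Finset.mem_singleton] at h h'
    simp only at heq
    rw [h.1, h'.1, heq]
  · intro y hy
    rw [mem_nb] at hy
    obtain ⟨h1, u, hu, h2⟩ := hy
    rw [Finset.mem_singleton] at hu
    refine ⟨(v, y), ?_, rfl⟩
    rw [mem_prs]
    exact ⟨by simp, h1, by rw [← hu]; exact h2⟩

lemma ec_self (G : SimpleGraph V) (v : V) : ec G {v} {v} = 0 := by
  unfold ec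
  rw [Finset.card_eq_zero]
  ext ⟨x, y⟩
  simp only [mem_prs, Finset.mem_singleton, Finset.notMem_empty, iff_false, not_and]
  rintro rfl rfl h
  exact h.ne rfl

/-- removing a vertex -/
lemma ec_insert (G : SimpleGraph V) {v : V} {R : Finset V} (hv : v ∉ R) :
    ec G (insert v R) (insert v R) = ec G R R + 2 * ec G {v} R := by
  have hd : Disjoint ({v} : Finset V) R := Finset.disjoint_singleton_left.2 hv
  rw [Finset.insert_eq, ec_union_left G hd, ec_union_right G _ hd, ec_union_right G _ hd, ec_self,
    ec_comm G R {v}]
  ring

/-- the key step of Mader's argument -/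
lemma mader_step (G : SimpleGraph V) {D D' : ℕ} (hD : 2 * D' + 2 ≤ D) (X : Finset V)
    (hX : X.Nonempty) (hd : D * X.card ≤ ec G X X) :
    ∃ U N : Finset V, U ⊆ X ∧ N ⊆ X ∧ Disjoint U N ∧ N.Nonempty ∧ Cn G U ∧
      (∀ v ∈ N, ∃ u ∈ U, G.Adj u v) ∧ D' * N.card ≤ ec G N N := by
  classical
  -- minimal `W`
  obtain ⟨W, hW, hmin⟩ := Finset.exists_min_image
    (univ.filter (fun W : Finset V => W ⊆ X ∧ W.Nonempty ∧ D * W.card ≤ ec G W W))
    (fun W => W.card) ⟨X, by rw [Finset.mem_filter]; exact ⟨Finset.mem_univ _, Finset.Subset.refl _, hX, hd⟩⟩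
  rw [Finset.mem_filter] at hW
  obtain ⟨-, hWX, hWne, hWd⟩ := hW
  -- maximal `U`
  have hexU : (univ.filter (fun U : Finset V => U ⊆ W ∧ U.Nonempty ∧ Cn G U ∧
      D * ((W \ U).card + 1) ≤ ec G (W \ U) (W \ U) + 2 * (nb G (W \ U) U).card)).Nonempty := by
    obtain ⟨v, hv⟩ := hWne
    refine ⟨{v}, ?_⟩
    rw [Finset.mem_filter]
    refine ⟨Finset.mem_univ _, by simpa using hv, by simp, ?_, ?_⟩
    · intro x hx y hy
      rw [Finset.mem_singleton] at hx hy
      subst hx; subst hy
      exact ⟨Walk.nil, by simp⟩
    · rw [Finset.sdiff_singleton_eq_erase]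
      have h1 := ec_insert G (Finset.notMem_erase v W)
      rw [Finset.insert_erase hv] at h1
      rw [← ec_singleton, ← h1, Finset.card_erase_add_one hv]
      exact hWd
  obtain ⟨U, hU, hmax⟩ := Finset.exists_max_image _ (fun U : Finset V => U.card) hexU
  rw [Finset.mem_filter] at hU
  obtain ⟨-, hUW, hUne, hUc, hUd⟩ := hU
  set N := nb G (W \ U) U with hN
  have hNW : N ⊆ W \ U := fun v hv => by rw [hN, mem_nb] at hv; exact hv.1
  refine ⟨U, N, hUW.trans hWX, (hNW.trans Finset.sdiff_subset).trans hWX, ?_, ?_, hUc, ?_, ?_⟩
  · rw [Finset.disjoint_left]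
    intro x hx hxN
    exact (Finset.mem_sdiff.1 (hNW hxN)).2 hx
  · -- `N` is nonempty
    rw [Finset.nonempty_iff_ne_empty]
    intro hNe
    rw [hNe, Finset.card_empty, mul_zero, add_zero] at hUd
    rcases Finset.eq_empty_or_nonempty (W \ U) with h0 | h0
    · rw [h0, ec_empty, Finset.card_empty] at hUd
      omega
    · have h1 := hmin (W \ U) (by
        rw [Finset.mem_filter]
        refine ⟨Finset.mem_univ _, Finset.sdiff_subset.trans hWX, h0, ?_⟩
        refine le_trans ?_ hUd
        exact Nat.mul_le_mul_left _ (Nat.le_succ _))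
      have h2 : (W \ U).card < W.card := by
        rw [Finset.card_sdiff_of_subset hUW]
        have := hUne.card_pos
        have := hWne.card_pos
        omega
      omega
  · intro v hv
    rw [hN, mem_nb] at hv
    exact hv.2
  · -- minimum degree
    have hdeg : ∀ v ∈ N, D' ≤ ec G {v} N := by
      intro v hv
      by_contra hcon
      push Not at hcon
      have hvN := hv
      rw [hN, mem_nb] at hv
      obtain ⟨hvW, u, hu, huv⟩ := hv
      rw [Finset.mem_sdiff] at hvW
      have h1 := hmax (insert v U) (by
        rw [Finset.mem_filter]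
        refine ⟨Finset.mem_univ _, ?_, ⟨v, by simp⟩, ?_, ?_⟩
        · intro x hx
          rw [Finset.mem_insert] at hx
          rcases hx with rfl | hx
          · exact hvW.1
          · exact hUW hx
        · -- connected
          have haux : ∀ x ∈ insert v U, ∃ p : G.Walk x u, ∀ z ∈ p.support, z ∈ insert v U := by
            intro x hx
            rw [Finset.mem_insert] at hx
            rcases hx with rfl | hx
            · refine ⟨Walk.cons huv.symm Walk.nil, ?_⟩
              intro z hz
              simp only [Walk.support_cons, Walk.support_nil, List.mem_cons, List.not_mem_nil,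
                or_false] at hz
              rcases hz with rfl | rfl
              · simp
              · simp [hu]
            · obtain ⟨p, hp⟩ := hUc x hx u hu
              exact ⟨p, fun z hz => Finset.mem_insert_of_mem (hp z hz)⟩
          intro x hx y hy
          obtain ⟨p, hp⟩ := haux x hx
          obtain ⟨p', hp'⟩ := haux y hy
          refine ⟨p.append p'.reverse, ?_⟩
          intro z hz
          rw [Walk.mem_support_append_iff, Walk.support_reverse, List.mem_reverse] at hz
          rcases hz with hz | hz
          · exact hp z hz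
          · exact hp' z hz
        · -- density
          set R := W \ insert v U with hR
          have hvR : v ∉ R := by simp [hR]
          have hins : W \ U = insert v R := by
            ext x
            rw [hR, Finset.mem_sdiff, Finset.mem_insert, Finset.mem_sdiff, Finset.mem_insert, not_or]
            constructor
            · rintro ⟨h2, h3⟩
              by_cases hxv : x = v
              · left; exact hxv
              · right; exact ⟨h2, hxv, h3⟩
            · rintro (rfl | ⟨h2, -, h3⟩)
              · exact hvW
              · exact ⟨h2, h3⟩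
          have hec := ec_insert G hvR
          rw [← hins] at hec
          have hcard : (W \ U).card = R.card + 1 := by rw [hins, Finset.card_insert_of_notMem hvR]
          -- neighbours
          have hnb : N.card + (nb G R {v}).card ≤ (nb G R (insert v U)).card + 1 + ec G {v} N := by
            have h2 : (nb G R {v}).card ≤ (nb G R {v} \ N).card + ec G {v} N := by
              rw [ec_singleton]
              have h3 : nb G R {v} ⊆ (nb G R {v} \ N) ∪ nb G N {v} := by
                intro x hx
                rw [Finset.mem_union, Finset.mem_sdiff]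
                by_cases hxN : x ∈ N
                · right
                  rw [mem_nb] at hx ⊢
                  exact ⟨hxN, hx.2⟩
                · left; exact ⟨hx, hxN⟩
              exact (Finset.card_le_card h3).trans (Finset.card_union_le _ _)
            have h4 : (N.erase v) ∪ (nb G R {v} \ N) ⊆ nb G R (insert v U) := by
              intro x hx
              rw [Finset.mem_union, Finset.mem_erase, Finset.mem_sdiff] at hx
              rw [mem_nb]
              rcases hx with ⟨hxv, hxN⟩ | ⟨hx, -⟩
              · have h5 := hNW hxN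
                rw [hins, Finset.mem_insert] at h5
                rw [hN, mem_nb] at hxN
                obtain ⟨-, z, hz, hzx⟩ := hxN
                rcases h5 with h5 | h5
                · exact absurd h5 hxv
                · exact ⟨h5, z, Finset.mem_insert_of_mem hz, hzx⟩
              · rw [mem_nb] at hx
                obtain ⟨hxR, z, hz, hzx⟩ := hx
                rw [Finset.mem_singleton] at hz
                exact ⟨hxR, v, by simp, by rw [← hz]; exact hzx⟩
            have h5 := Finset.card_le_card h4
            rw [Finset.card_union_of_disjoint (by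
              rw [Finset.disjoint_left]
              intro x hx hx'
              rw [Finset.mem_erase] at hx
              rw [Finset.mem_sdiff] at hx'
              exact hx'.2 hx.2)] at h5
            have h6 := Finset.card_erase_add_one hvN
            omega
          rw [ec_singleton] at hec
          rw [hcard, hec] at hUd
          have h7 : D * (R.card + 1 + 1) = D * (R.card + 1) + D := by ring
          omega)
      rw [Finset.card_insert_of_notMem hvW.2] at h1
      omega
    -- sum of degrees
    have hsum : ∀ A : Finset V, A ⊆ N → D' * A.card ≤ ec G A N := by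
      intro A
      induction A using Finset.induction_on with
      | empty => intro _; simp
      | @insert v A hvA ih =>
        intro hA
        have h1 := ih ((Finset.subset_insert v A).trans hA)
        have h2 := hdeg v (hA (Finset.mem_insert_self v A))
        rw [Finset.card_insert_of_notMem hvA, Finset.insert_eq,
          ec_union_left G (Finset.disjoint_singleton_left.2 hvA)]
        have : D' * (A.card + 1) = D' * A.card + D' := by ring
        omega
    exact hsum N (Finset.Subset.refl _)

/-- large average degree forces every immersion -/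
theorem mader (k : ℕ) (A : Finset (Fin k × Fin k)) : ∃ D : ℕ, ∀ (m : ℕ) (G : SimpleGraph (Fin m))
    (X : Finset (Fin m)), X.Nonempty → D * X.card ≤ ec G X X → ImmA k G X A := by
  classical
  induction A using Finset.induction_on with
  | empty =>
    refine ⟨k, ?_⟩
    intro m G X hX hd
    have h1 := ec_le_mul G X X
    have h2 : k * X.card ≤ X.card * X.card := hd.trans h1
    have h3 : k ≤ X.card := Nat.le_of_mul_le_mul_right h2 hX.card_pos
    let f : Fin k → Fin m := fun i => (X.equivFin.symm ⟨i, lt_of_lt_of_le i.2 h3⟩ : X)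
    refine ⟨f, ?_, fun i => (X.equivFin.symm _).2, fun a h => absurd h (Finset.notMem_empty a),
      fun a h => absurd h (Finset.notMem_empty a), fun a h => absurd h (Finset.notMem_empty a),
      fun a h => absurd h (Finset.notMem_empty a)⟩
    intro i j hij
    have h4 := X.equivFin.symm.injective (Subtype.ext hij)
    rw [Fin.mk.injEq] at h4
    exact Fin.ext h4
  | @insert a0 A ha0 ih =>
    obtain ⟨D', hD'⟩ := ih
    refine ⟨2 * D' + 2, ?_⟩
    intro m G X hX hd
    obtain ⟨U, N, hUX, hNX, hUN, hNne, hUc, hNU, hNd⟩ := mader_step G le_rfl X hX hd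
    obtain ⟨f, hf, hfN, P, hP1, hP2, hP3⟩ := hD' m G N hNne hNd
    -- the new path
    obtain ⟨u, hu, huf⟩ := hNU _ (hfN a0.1)
    obtain ⟨u', hu', huf'⟩ := hNU _ (hfN a0.2)
    obtain ⟨p, hp⟩ := hUc u hu u' hu'
    have hnew : ∃ q : G.Walk (f a0.1) (f a0.2), q.IsPath ∧ (∀ v ∈ q.support, v ∈ X) ∧
        ∀ e ∈ q.edges, ∃ x ∈ U, x ∈ e := by
      let q0 : G.Walk (f a0.1) (f a0.2) := Walk.cons huf.symm (p.append (Walk.cons huf' Walk.nil))
      refine ⟨q0.bypass, q0.bypass_isPath, ?_, ?_⟩
      · intro v hv
        have hv2 := q0.support_bypass_subset_support hv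
        simp only [q0, Walk.support_cons, List.mem_cons, Walk.mem_support_append_iff,
          Walk.support_nil, List.not_mem_nil, or_false] at hv2
        rcases hv2 with rfl | hv2 | rfl | rfl
        · exact hNX (hfN _)
        · exact hUX (hp v hv2)
        · exact hUX hu'
        · exact hNX (hfN _)
      · intro e he
        have he2 := q0.edges_bypass_subset_edges he
        simp only [q0, Walk.edges_cons, List.mem_cons, Walk.edges_append, List.mem_append,
          Walk.edges_nil, List.not_mem_nil, or_false] at he2
        rcases he2 with rfl | he2 | rfl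
        · exact ⟨u, hu, by simp⟩
        · induction e using Sym2.ind with
          | _ x y => exact ⟨x, hp x (Walk.fst_mem_support_of_mem_edges p he2), by simp⟩
        · exact ⟨u', hu', by simp⟩
    obtain ⟨q, hq1, hq2, hq3⟩ := hnew
    have hqP : ∀ a h, (P a h).edges.Disjoint q.edges := by
      intro a h e he he'
      obtain ⟨x, hx, hxe⟩ := hq3 e he'
      obtain ⟨y, rfl⟩ := Sym2.mem_iff_exists.1 hxe
      have h1 := hP2 a h x (Walk.fst_mem_support_of_mem_edges _ he)
      exact Finset.disjoint_left.1 hUN hx h1
    let P' : ∀ a : Fin k × Fin k, a ∈ insert a0 A → G.Walk (f a.1) (f a.2) := fun a h =>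
      if h0 : a ∈ A then P a h0 else q.copy (by
        rw [Finset.mem_insert] at h
        rcases h with h | h
        · rw [h]
        · exact absurd h h0) (by
        rw [Finset.mem_insert] at h
        rcases h with h | h
        · rw [h]
        · exact absurd h h0)
    have hP'1 : ∀ a h (h0 : a ∈ A), P' a h = P a h0 := by
      intro a h h0
      simp only [P', dif_pos h0]
    have hP'2 : ∀ a h, a ∉ A → (P' a h).IsPath ∧ (P' a h).edges = q.edges ∧ (P' a h).support = q.support := by
      intro a h h0
      simp only [P', dif_neg h0]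
      refine ⟨?_, by rw [Walk.edges_copy], by rw [Walk.support_copy]⟩
      rw [Walk.isPath_copy]; exact hq1
    refine ⟨f, hf, fun i => hNX (hfN i), P', ?_, ?_, ?_⟩
    · intro a h
      by_cases h0 : a ∈ A
      · rw [hP'1 a h h0]; exact hP1 a h0
      · exact (hP'2 a h h0).1
    · intro a h v hv
      by_cases h0 : a ∈ A
      · rw [hP'1 a h h0] at hv; exact hNX (hP2 a h0 v hv)
      · rw [(hP'2 a h h0).2.2] at hv; exact hq2 v hv
    · intro a h a' h' hne
      by_cases h0 : a ∈ A
      · rw [hP'1 a h h0]
        by_cases h0' : a' ∈ A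
        · rw [hP'1 a' h' h0']; exact hP3 a h0 a' h0' hne
        · rw [(hP'2 a' h' h0').2.1]; exact hqP a h0
      · rw [(hP'2 a h h0).2.1]
        by_cases h0' : a' ∈ A
        · rw [hP'1 a' h' h0']; exact (hqP a' h0').symm
        · exfalso
          rw [Finset.mem_insert] at h h'
          rcases h with h | h
          · rcases h' with h' | h'
            · exact hne (h.trans h'.symm)
            · exact h0' h'
          · exact h0 h

/-- the threshold is finite -/
theorem imm_nonempty (k : ℕ) : ∃ d : ℝ, 0 < d ∧ ∀ (m : ℕ) (H : SimpleGraph (Fin m)),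
    d ≤ 2 * (H.edgeSet.ncard : ℝ) / (m : ℝ) →
    ∃ f : Fin k → Fin m, Function.Injective f ∧
      ∃ P : ∀ i j : Fin k, H.Walk (f i) (f j),
        (∀ i j : Fin k, i < j → (P i j).IsPath) ∧
        (∀ i j i' j' : Fin k, i < j → i' < j' → (i ≠ i' ∨ j ≠ j') →
          (P i j).edges.Disjoint (P i' j').edges) := by
  classical
  obtain ⟨D, hD⟩ := mader k (univ.filter (fun a : Fin k × Fin k => a.1 < a.2))
  refine ⟨D + 1, by positivity, ?_⟩
  intro m H hd
  rcases Nat.eq_zero_or_pos m with rfl | hm
  · exfalso
    simp at hd
    have : (0 : ℝ) ≤ D := Nat.cast_nonneg D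
    linarith
  have hmr : (0 : ℝ) < m := by exact_mod_cast hm
  rw [le_div_iff₀ hmr] at hd
  have h1 : (ec H univ univ : ℝ) = 2 * H.edgeSet.ncard := by exact_mod_cast ec_univ H
  have h2 : (D : ℝ) * m ≤ ec H univ univ := by rw [h1]; nlinarith
  have h3 : D * (univ : Finset (Fin m)).card ≤ ec H univ univ := by
    rw [Finset.card_univ, Fintype.card_fin]; exact_mod_cast h2
  obtain ⟨f, hf, hfU, P, hP1, hP2, hP3⟩ := hD m H univ (by
    rw [← Finset.card_pos, Finset.card_univ, Fintype.card_fin]; exact hm) h3
  have hmem : ∀ i j : Fin k, i < j → (i, j) ∈ univ.filter (fun a : Fin k × Fin k => a.1 < a.2) := by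
    intro i j h; rw [Finset.mem_filter]; exact ⟨Finset.mem_univ _, h⟩
  obtain ⟨f', hf', -, P', h4, -, h6⟩ := immIn_of (U := univ) f hf hfU
    ⟨fun i j h => P (i, j) (hmem i j h), fun i j h => hP1 _ _, fun i j h v _ => Finset.mem_univ v,
      fun i j i' j' h h' hne => hP3 _ _ _ _ (by
        intro heq
        rw [Prod.mk.injEq] at heq
        rcases hne with h0 | h0
        · exact h0 heq.1
        · exact h0 heq.2)⟩
  exact ⟨f', hf', P', h4, h6⟩

end Pool.Agent.H89.Imm
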