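import Mathlib

set_option autoImplicit false
set_option linter.unusedSectionVars false
set_option linter.unusedVariables false
set_option linter.unusedSimpArgs false

namespace Pool.Agent.H89.Imm

lemma exists_q0 (C : ℝ) (hC : 0 < C) : ∃ q0 : ℕ, ∀ q : ℕ, q0 ≤ q →
    5 ≤ q ∧ 1 ≤ Real.log q ∧ C * (Real.log q) ^ 4 ≤ q := by
  have h1 := (Real.isLittleO_pow_log_id_atTop (n := 4)).bound (c := 1 / C) (by positivity)
  have h2 := Filter.eventually_ge_atTop (Real.exp 1)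
  obtain ⟨x0, hx0⟩ := Filter.eventually_atTop.1 (h1.and h2)
  refine ⟨max ⌈x0⌉₊ 5, ?_⟩
  intro q hq
  have hq5 : 5 ≤ q := (le_max_right _ _).trans hq
  have hqx : x0 ≤ q := by
    have h3 : ⌈x0⌉₊ ≤ q := (le_max_left _ _).trans hq
    exact (Nat.le_ceil x0).trans (by exact_mod_cast h3)
  obtain ⟨h3, h4⟩ := hx0 q hqx
  refine ⟨hq5, ?_, ?_⟩
  · rw [Real.le_log_iff_exp_le (by linarith [Real.exp_pos 1])]
    exact h4
  · have h5 : ‖Real.log (q : ℝ) ^ 4‖ = Real.log q ^ 4 := by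
      rw [Real.norm_eq_abs, abs_of_nonneg (by positivity)]
    have h6 : ‖(id (q : ℝ))‖ = (q : ℝ) := by
      rw [id, Real.norm_eq_abs, abs_of_nonneg (Nat.cast_nonneg q)]
    rw [h5, h6] at h3
    rw [div_mul_eq_mul_div, one_mul, le_div_iff₀ hC] at h3
    linarith

theorem params {ε1 lam δ y K1 : ℝ} {B t0 A : ℕ} (hε0 : 0 < ε1) (hε1 : ε1 ≤ 1)
    (hK1 : 0 ≤ K1) (hgapy : lam - y = ε1 / 4) (hA : 1 ≤ A) :
    ∃ (q0 : ℕ) (α1 : ℝ), 0 ≤ α1 ∧ ∀ q m n : ℕ, q0 ≤ q → q ^ A ≤ m → m < (q + 1) ^ A → m ≤ n → 2 ≤ n →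
      ∃ (κ : ℝ) (s L : ℕ),
        κ = ε1 / 16 * (Real.log q * (1 / Real.log n + 1 / (1 + Real.log m) ^ 2)) ∧
        0 < κ ∧ κ ≤ 1 ∧ 1 / κ ≤ q ∧ K1 + 3 ≤ q ∧ B + 1 ≤ q ∧ 5 ≤ q ∧ (2 * t0) ^ 2 ≤ q ∧
        (B + 1) * (B * L + 6 * (B * L) ^ 2) + 1 ≤ q ∧ s ≤ q ∧ 1 ≤ s ∧ (B : ℝ) ≤ 2 * κ * s ∧
        2 ≤ (lam - y) * q ∧ K1 * s + 2 * B ≤ q ∧
        K1 * m < (1 + κ / (2 * (K1 + 1) * (B + 1))) ^ L ∧
        ((2 * t0 * s + B + 2 * t0 * B * (B * L + 1) : ℕ) : ℝ) ≤ α1 * Real.log n := by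
  -- constants
  set g : ℝ := 2 * A + 1 with hg
  have hg1 : 1 ≤ g := by
    have : (0 : ℝ) ≤ A := Nat.cast_nonneg A
    rw [hg]; linarith
  set c1 : ℝ := 16 * g ^ 2 / ε1 with hc1
  have hc10 : 0 < c1 := by rw [hc1]; positivity
  set c3 : ℝ := Real.log (K1 + 1) + g with hc3
  have hlogK : 0 ≤ Real.log (K1 + 1) := Real.log_nonneg (by linarith)
  have hc30 : 0 < c3 := by rw [hc3]; linarith
  set c4 : ℝ := 4 * (K1 + 1) * (B + 1) * c3 with hc4
  have hB0 : (0 : ℝ) ≤ B := Nat.cast_nonneg B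
  have ht00 : (0 : ℝ) ≤ t0 := Nat.cast_nonneg t0
  have hc40 : 0 < c4 := by rw [hc4]; positivity
  set c5 : ℝ := c4 * c1 + 2 with hc5
  have hc50 : 0 < c5 := by rw [hc5]; positivity
  set C : ℝ := c1 + (K1 + 3) + (B + 1) + (2 * t0) ^ 2 + (7 * (B + 1) ^ 3 * c5 ^ 2 + 1) +
    (B * c1 + 2) + 8 / ε1 + (K1 * (B * c1 + 2) + 2 * B) with hC
  have p1 : 0 < c1 := hc10
  have p2 : 0 ≤ K1 + 3 := by positivity
  have p3 : (0 : ℝ) ≤ B + 1 := by positivity
  have p4 : (0 : ℝ) ≤ (2 * t0) ^ 2 := by positivity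
  have p5 : (0 : ℝ) ≤ 7 * (B + 1) ^ 3 * c5 ^ 2 + 1 := by positivity
  have p6 : (0 : ℝ) ≤ B * c1 + 2 := by positivity
  have p7 : 0 ≤ 8 / ε1 := by positivity
  have p8 : (0 : ℝ) ≤ K1 * (B * c1 + 2) + 2 * B := by positivity
  have hC0 : 0 < C := by rw [hC]; positivity
  obtain ⟨q0, hq0⟩ := exists_q0 C hC0
  set d1 : ℝ := 16 / ε1 with hd1
  have hd10 : 0 < d1 := by rw [hd1]; positivity
  set α1 : ℝ := 2 * t0 * (B * d1) + 2 * t0 * B * (B * (c4 * d1)) +
    (2 * t0 * 2 + B + 2 * t0 * B * (B * 2 + 1)) / Real.log 2 with hα1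
  have hlog2 : 0 < Real.log 2 := Real.log_pos (by norm_num)
  refine ⟨q0, α1, by rw [hα1]; positivity, ?_⟩
  intro q m n hq hqm hmq hmn hn
  obtain ⟨hq5, hl1, hCq⟩ := hq0 q hq
  set l : ℝ := Real.log q with hl
  have hl0 : 0 < l := lt_of_lt_of_le one_pos hl1
  have hl4 : ∀ j ≤ 4, l ^ j ≤ l ^ 4 := fun j hj => pow_le_pow_right₀ hl1 hj
  have hl4' : 1 ≤ l ^ 4 := one_le_pow₀ hl1
  -- each constant times a power of `l`
  have hbound : ∀ c : ℝ, 0 ≤ c → c ≤ C → ∀ j ≤ 4, c * l ^ j ≤ q := by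
    intro c hc hcC j hj
    calc c * l ^ j ≤ C * l ^ 4 := by
          have := hl4 j hj
          gcongr
      _ ≤ q := hCq
  have hbound0 : ∀ c : ℝ, 0 ≤ c → c ≤ C → c ≤ q := by
    intro c hc hcC
    have := hbound c hc hcC 0 (by norm_num)
    simpa using this
  have hm1 : 1 ≤ m := le_trans (Nat.one_le_pow _ _ (by omega)) hqm
  have hmr : (1 : ℝ) ≤ m := by exact_mod_cast hm1
  have hqr : (5 : ℝ) ≤ q := by exact_mod_cast hq5
  have hlogm0 : 0 ≤ Real.log m := Real.log_nonneg hmr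
  have hlogn : Real.log 2 ≤ Real.log n := Real.log_le_log (by norm_num) (by exact_mod_cast hn)
  have hlogn0 : 0 < Real.log n := lt_of_lt_of_le hlog2 hlogn
  have hlogmn : Real.log m ≤ Real.log n := Real.log_le_log (by linarith only [hmr]) (by exact_mod_cast hmn)
  have hqm' : (q : ℝ) ≤ m := by
    have : q ≤ m := by
      calc q = q ^ 1 := (pow_one q).symm
        _ ≤ q ^ A := Nat.pow_le_pow_right (by omega) hA
        _ ≤ m := hqm
    exact_mod_cast this
  have hlm : l ≤ Real.log m := Real.log_le_log (by linarith only [hqr]) hqm'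
  have hln : l ≤ Real.log n := hlm.trans hlogmn
  have hlogm : 1 + Real.log m ≤ g * l := by
    have h1 : Real.log m ≤ A * Real.log (q + 1) := by
      rw [← Real.log_pow]
      apply Real.log_le_log (by linarith only [hmr])
      exact_mod_cast hmq.le
    have h2 : Real.log ((q : ℝ) + 1) ≤ 2 * l := by
      rw [hl, two_mul, ← Real.log_mul (by linarith only [hqr]) (by linarith only [hqr])]
      apply Real.log_le_log (by linarith only [hqr])
      nlinarith only [hqr]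
    have h3 : (A : ℝ) * Real.log (q + 1) ≤ A * (2 * l) := by gcongr
    rw [hg]; nlinarith only [h1, h3, hl1]
  -- κ
  set κ : ℝ := ε1 / 16 * (l * (1 / Real.log n + 1 / (1 + Real.log m) ^ 2)) with hκ
  have hκ0 : 0 < κ := by rw [hκ]; positivity
  have hκ1 : κ ≤ 1 := by
    have h1 : l * (1 / Real.log n) ≤ 1 := by
      rw [mul_one_div, div_le_one hlogn0]; exact hln
    have h2 : l * (1 / (1 + Real.log m) ^ 2) ≤ 1 := by
      rw [mul_one_div, div_le_one (by positivity)]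
      nlinarith only [hlm, hlogm0]
    have h3 : l * (1 / Real.log n + 1 / (1 + Real.log m) ^ 2) ≤ 2 := by
      rw [mul_add]; linarith only [h1, h2]
    calc κ = ε1 / 16 * (l * (1 / Real.log n + 1 / (1 + Real.log m) ^ 2)) := hκ
      _ ≤ ε1 / 16 * 2 := by gcongr
      _ ≤ 1 := by linarith only [hε1]
  have hinv1 : 1 / κ ≤ c1 * l := by
    rw [div_le_iff₀ hκ0]
    have h1 : 1 / (g * l) ^ 2 ≤ 1 / (1 + Real.log m) ^ 2 := by
      apply one_div_le_one_div_of_le (by positivity)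
      apply pow_le_pow_left₀ (by positivity) hlogm
    have h2 : ε1 / 16 * (l * (1 / (g * l) ^ 2)) ≤ κ := by
      rw [hκ]
      have : 0 ≤ 1 / Real.log n := by positivity
      gcongr
      linarith only [this, h1]
    have h3 : c1 * l * (ε1 / 16 * (l * (1 / (g * l) ^ 2))) = 1 := by
      rw [hc1]
      field_simp
    calc (1 : ℝ) = c1 * l * (ε1 / 16 * (l * (1 / (g * l) ^ 2))) := h3.symm
      _ ≤ c1 * l * κ := by gcongr
  have hinv2 : 1 / κ ≤ d1 * (Real.log n / l) := by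
    rw [div_le_iff₀ hκ0]
    have h2 : ε1 / 16 * (l * (1 / Real.log n)) ≤ κ := by
      rw [hκ]
      have : 0 ≤ 1 / (1 + Real.log m) ^ 2 := by positivity
      gcongr
      linarith only [this]
    have h3 : d1 * (Real.log n / l) * (ε1 / 16 * (l * (1 / Real.log n))) = 1 := by
      rw [hd1]
      field_simp
    calc (1 : ℝ) = d1 * (Real.log n / l) * (ε1 / 16 * (l * (1 / Real.log n))) := h3.symm
      _ ≤ d1 * (Real.log n / l) * κ := by gcongr
  -- s
  set s : ℕ := ⌈B * (1 / κ)⌉₊ + 1 with hs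
  have hsge : B * (1 / κ) ≤ s := by
    rw [hs]; push_cast
    have := Nat.le_ceil (B * (1 / κ) : ℝ)
    linarith only [this]
  have hsle : (s : ℝ) ≤ B * (1 / κ) + 2 := by
    rw [hs]; push_cast
    have := Nat.ceil_lt_add_one (show (0 : ℝ) ≤ B * (1 / κ) by positivity)
    linarith only [this]
  have hsl : (s : ℝ) ≤ (B * c1 + 2) * l := by
    have : B * (1 / κ) ≤ B * (c1 * l) := by gcongr
    nlinarith only [this, hsle, hl1]
  -- L
  set ρ : ℝ := κ / (2 * (K1 + 1) * (B + 1)) with hρ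
  have hρ0 : 0 < ρ := by rw [hρ]; positivity
  have hρ1 : ρ ≤ 1 := by
    rw [hρ, div_le_one (by positivity)]
    have : (1 : ℝ) ≤ 2 * (K1 + 1) * (B + 1) := by nlinarith only [hK1, hB0, mul_nonneg hK1 hB0]
    linarith only [this, hκ1]
  set X : ℝ := 2 / ρ * Real.log ((K1 + 1) * m) with hX
  have hlogKm : Real.log ((K1 + 1) * m) ≤ c3 * l := by
    rw [Real.log_mul (by linarith only [hK1]) (by linarith only [hmr]), hc3]
    have : Real.log (K1 + 1) * 1 ≤ Real.log (K1 + 1) * l := by gcongr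
    nlinarith only [this, hlogm]
  have hlogKm0 : 0 ≤ Real.log ((K1 + 1) * m) := Real.log_nonneg (by nlinarith only [hK1, hmr, mul_nonneg hK1 (zero_le_one.trans hmr)])
  have hX0 : 0 ≤ X := by rw [hX]; positivity
  have hXle : X ≤ c4 * (1 / κ) * l := by
    have h1 : 2 / ρ = 4 * (K1 + 1) * (B + 1) * (1 / κ) := by
      rw [hρ]; field_simp; ring
    rw [hX, h1]
    calc 4 * (K1 + 1) * (B + 1) * (1 / κ) * Real.log ((K1 + 1) * m)
        ≤ 4 * (K1 + 1) * (B + 1) * (1 / κ) * (c3 * l) := by gcongr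
      _ = c4 * (1 / κ) * l := by rw [hc4]; ring
  set L : ℕ := ⌈X⌉₊ + 1 with hL
  have hLge : X + 1 ≤ L := by
    rw [hL]; push_cast
    have := Nat.le_ceil X
    linarith only [this]
  have hLle : (L : ℝ) ≤ X + 2 := by
    rw [hL]; push_cast
    have := Nat.ceil_lt_add_one hX0
    linarith only [this]
  have hLl : (L : ℝ) ≤ c5 * l ^ 2 := by
    have h1 : c4 * (1 / κ) * l ≤ c4 * (c1 * l) * l := by gcongr
    have h2 : (2 : ℝ) ≤ 2 * l ^ 2 := by nlinarith only [hl1]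
    rw [hc5]
    calc (L : ℝ) ≤ X + 2 := hLle
      _ ≤ c4 * (c1 * l) * l + 2 * l ^ 2 := by linarith only [hXle, h1, h2]
      _ = (c4 * c1 + 2) * l ^ 2 := by ring
  refine ⟨κ, s, L, rfl, hκ0, hκ1, ?_, ?_, ?_, hq5, ?_, ?_, ?_, ?_, ?_, ?_, ?_, ?_, ?_⟩
  · calc 1 / κ ≤ c1 * l := hinv1
      _ = c1 * l ^ 1 := by ring
      _ ≤ q := hbound c1 p1.le (by rw [hC]; linarith only [p1, p2, p3, p4, p5, p6, p7, p8]) 1 (by norm_num)
  · exact hbound0 _ p2 (by rw [hC]; linarith only [p1, p2, p3, p4, p5, p6, p7, p8])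
  · have := hbound0 ((B : ℝ) + 1) p3 (by rw [hC]; linarith only [p1, p2, p3, p4, p5, p6, p7, p8])
    exact_mod_cast this
  · have := hbound0 ((2 * (t0 : ℝ)) ^ 2) p4 (by rw [hC]; linarith only [p1, p2, p3, p4, p5, p6, p7, p8])
    exact_mod_cast this
  · -- polynomial in `L`
    have h1 : (((B + 1) * (B * L + 6 * (B * L) ^ 2) + 1 : ℕ) : ℝ) ≤ (7 * (B + 1) ^ 3 * c5 ^ 2 + 1) * l ^ 4 := by
      have h2 : (B * L + 6 * (B * L) ^ 2 : ℕ) ≤ 7 * (B * L) ^ 2 := by
        have h3 : B * L ≤ (B * L) ^ 2 := by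
          rw [sq]; exact Nat.le_mul_self _
        omega
      have h4 : ((B * L + 6 * (B * L) ^ 2 : ℕ) : ℝ) ≤ 7 * ((B + 1) * (c5 * l ^ 2)) ^ 2 := by
        have h5 : ((B * L + 6 * (B * L) ^ 2 : ℕ) : ℝ) ≤ ((7 * (B * L) ^ 2 : ℕ) : ℝ) := by exact_mod_cast h2
        refine h5.trans ?_
        push_cast
        have h6 : (B : ℝ) * L ≤ (B + 1) * (c5 * l ^ 2) := by gcongr; linarith only
        have h7 : (0 : ℝ) ≤ (B : ℝ) * L := by positivity
        gcongr
      calc (((B + 1) * (B * L + 6 * (B * L) ^ 2) + 1 : ℕ) : ℝ)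
          = ((B : ℝ) + 1) * ((B * L + 6 * (B * L) ^ 2 : ℕ) : ℝ) + 1 := by push_cast; ring
        _ ≤ ((B : ℝ) + 1) * (7 * ((B + 1) * (c5 * l ^ 2)) ^ 2) + 1 * l ^ 4 := by
            rw [one_mul]
            exact add_le_add (mul_le_mul_of_nonneg_left h4 p3) hl4'
        _ = (7 * (B + 1) ^ 3 * c5 ^ 2 + 1) * l ^ 4 := by ring
    have h2 := h1.trans (hbound _ p5 (by rw [hC]; linarith only [p1, p2, p3, p4, p5, p6, p7, p8]) 4 le_rfl)
    exact_mod_cast h2
  · have h1 : (s : ℝ) ≤ (B * c1 + 2) * l ^ 1 := by rw [pow_one]; exact hsl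
    have h2 := h1.trans (hbound _ p6 (by rw [hC]; linarith only [p1, p2, p3, p4, p5, p6, p7, p8]) 1 (by norm_num))
    exact_mod_cast h2
  · rw [hs]; omega
  · have h1 : κ * (B * (1 / κ)) ≤ κ * s := by gcongr
    have h2 : κ * (B * (1 / κ)) = B := by field_simp
    have h3 : 0 ≤ κ * s := by positivity
    linarith only [h1, h2, h3]
  · rw [hgapy]
    have h1 := hbound0 _ p7 (by rw [hC]; linarith only [p1, p2, p3, p4, p5, p6, p7, p8])
    have h2 : ε1 / 4 * (8 / ε1) ≤ ε1 / 4 * q := by gcongr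
    have h3 : ε1 / 4 * (8 / ε1) = 2 := by field_simp; norm_num
    linarith only [h2, h3]
  · have h1 : K1 * s + 2 * B ≤ (K1 * (B * c1 + 2) + 2 * B) * l ^ 1 := by
      have h2 : K1 * (s : ℝ) ≤ K1 * ((B * c1 + 2) * l) := by gcongr
      have h3 : 2 * (B : ℝ) * 1 ≤ 2 * B * l := by gcongr
      rw [pow_one]
      calc K1 * s + 2 * B ≤ K1 * ((B * c1 + 2) * l) + 2 * B * l := by linarith only [h2, h3]
        _ = (K1 * (B * c1 + 2) + 2 * B) * l := by ring
    exact h1.trans (hbound _ p8 (by rw [hC]; linarith only [p1, p2, p3, p4, p5, p6, p7, p8]) 1 (by norm_num))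
  · -- exponential growth
    have h1 : ρ / 2 ≤ Real.log (1 + ρ) := by
      have h2 := Real.one_sub_inv_le_log_of_pos (show 0 < 1 + ρ by linarith only [hρ0])
      refine le_trans ?_ h2
      have h3 : 1 - (1 + ρ)⁻¹ = ρ / (1 + ρ) := by field_simp; ring
      rw [h3, div_le_div_iff₀ (by norm_num) (by linarith only [hρ0])]
      nlinarith only [hρ0, hρ1]
    have h2 : Real.log ((K1 + 1) * m) < L * Real.log (1 + ρ) := by
      have h3 : (X + 1) * (ρ / 2) ≤ L * Real.log (1 + ρ) := by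
        have : (0 : ℝ) ≤ ρ / 2 := by positivity
        exact mul_le_mul hLge h1 this (Nat.cast_nonneg L)
      have h4 : X * (ρ / 2) = Real.log ((K1 + 1) * m) := by
        rw [hX]; field_simp
      nlinarith only [h3, h4, hρ0]
    have h3 : (K1 + 1) * m < (1 + ρ) ^ L := by
      rw [← Real.log_lt_log_iff (by positivity) (by positivity), Real.log_pow]
      exact h2
    have h4 : K1 * (m : ℝ) ≤ (K1 + 1) * m := by nlinarith only [hmr]
    exact lt_of_le_of_lt h4 h3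
  · -- final bound
    have h1 : (s : ℝ) ≤ B * d1 * Real.log n + 2 := by
      have h2 : 1 / κ ≤ d1 * Real.log n := by
        refine hinv2.trans ?_
        have : Real.log n / l ≤ Real.log n := by
          rw [div_le_iff₀ hl0]; nlinarith only [hlogn0, hl1]
        gcongr
      have h3 : B * (1 / κ) ≤ B * (d1 * Real.log n) := by gcongr
      linarith only [h3, hsle]
    have h2 : (L : ℝ) ≤ c4 * d1 * Real.log n + 2 := by
      have h3 : c4 * (1 / κ) * l ≤ c4 * (d1 * (Real.log n / l)) * l := by gcongr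
      have h4 : c4 * (d1 * (Real.log n / l)) * l = c4 * d1 * Real.log n := by field_simp
      linarith only [h3, h4, hLle, hXle]
    have h3 : (2 * t0 * 2 + B + 2 * t0 * B * (B * 2 + 1) : ℝ) ≤
        (2 * t0 * 2 + B + 2 * t0 * B * (B * 2 + 1)) / Real.log 2 * Real.log n := by
      rw [div_mul_eq_mul_div, le_div_iff₀ hlog2]
      have : (0 : ℝ) ≤ 2 * t0 * 2 + B + 2 * t0 * B * (B * 2 + 1) := by positivity
      gcongr
    push_cast
    calc (2 * t0 * s + B + 2 * t0 * B * (B * L + 1) : ℝ)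
        ≤ 2 * t0 * (B * d1 * Real.log n + 2) + B + 2 * t0 * B * (B * (c4 * d1 * Real.log n + 2) + 1) := by
          gcongr
      _ = (2 * t0 * (B * d1) + 2 * t0 * B * (B * (c4 * d1))) * Real.log n +
          (2 * t0 * 2 + B + 2 * t0 * B * (B * 2 + 1)) := by ring
      _ ≤ (2 * t0 * (B * d1) + 2 * t0 * B * (B * (c4 * d1))) * Real.log n +
          (2 * t0 * 2 + B + 2 * t0 * B * (B * 2 + 1)) / Real.log 2 * Real.log n := by linarith only [h3]
      _ = α1 * Real.log n := by rw [hα1]; ring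

end Pool.Agent.H89.Imm
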