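import Pool.Agent.H89.Imm.Core
import Pool.Agent.H89.Imm.Mader
import Pool.Agent.H89.Imm.Params

set_option autoImplicit false
set_option linter.unusedSectionVars false
set_option linter.unusedVariables false
set_option linter.unusedSimpArgs false

namespace Pool.Agent.H89.Imm

open Finset SimpleGraph

/-- transfer along an embedding -/
lemma immIn_map {V V' : Type*} [DecidableEq V] {k : ℕ} {G : SimpleGraph V} {H : SimpleGraph V'}
    (φ : V' → V) (hφ : Function.Injective φ) (hH : H ≤ G.comap φ) {U : Finset V'} (h : ImmIn k H U) :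
    ImmIn k G (U.image φ) := by
  obtain ⟨f, hf, hfU, P, h1, h2, h3⟩ := h
  let ψ : H →g G := ⟨φ, fun h => hH h⟩
  refine ⟨fun i => φ (f i), hφ.comp hf, fun i => Finset.mem_image_of_mem φ (hfU i),
    fun i j => (P i j).map ψ, ?_, ?_, ?_⟩
  · intro i j hij
    exact Walk.IsPath.map hφ (h1 i j hij)
  · intro i j hij v hv
    rw [Walk.support_map, List.mem_map] at hv
    obtain ⟨x, hx, rfl⟩ := hv
    exact Finset.mem_image_of_mem φ (h2 i j hij x hx)
  · intro i j i' j' hij hij' hne
    have h4 := h3 i j i' j' hij hij' hne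
    intro g hg hg'
    rw [Walk.edges_map, List.mem_map] at hg hg'
    obtain ⟨a, ha, rfl⟩ := hg
    obtain ⟨a', ha', haa⟩ := hg'
    have : a' = a := Sym2.map.injective hφ haa
    subst this
    exact h4 ha ha'

theorem main_thm {k : ℕ} {d0 : ℝ} (hd0 : 0 ≤ d0) (hk : ImmProp k d0) {ε : ℝ} (hε : 0 < ε) :
    ∃ α : ℝ, ∀ (n : ℕ) (G : SimpleGraph (Fin n)), d0 + ε ≤ 2 * (G.edgeSet.ncard : ℝ) / (n : ℝ) →
      ∃ U : Finset (Fin n), (U.card : ℝ) ≤ α * Real.log n ∧ ImmIn k G U := by
  classical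
  set ε1 : ℝ := min ε 1 with hε1def
  have hε0 : 0 < ε1 := lt_min hε one_pos
  have hε1 : ε1 ≤ 1 := min_le_right _ _
  have hεε : ε1 ≤ ε := min_le_left _ _
  set a0 : ℝ := d0 + ε1 with ha0
  have ha00 : 0 < a0 := by rw [ha0]; linarith
  set δ : ℝ := ε1 / (4 * d0 + 2 * ε1) with hδ
  have hδ0 : 0 < δ := by rw [hδ]; positivity
  set lam : ℝ := a0 / (1 + 2 * δ) with hlam
  have hlam' : lam = d0 + ε1 / 2 := by
    rw [hlam, ha0, hδ]
    have h1 : (4 * d0 + 2 * ε1) ≠ 0 := by positivity
    rw [div_eq_iff (by positivity)]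
    field_simp
    ring
  have hlamδ : lam * δ = ε1 / 4 := by
    rw [hlam', hδ]
    have h1 : (4 * d0 + 2 * ε1) ≠ 0 := by positivity
    field_simp
    ring
  set y : ℝ := d0 + ε1 / 4 with hy
  have hgapy : lam - y = ε1 / 4 := by rw [hlam', hy]; ring
  have hyd : d0 < y := by rw [hy]; linarith
  have hylam : y < lam := by linarith
  set K1 : ℝ := a0 + 2 with hK1
  have hK10 : 0 ≤ K1 := by rw [hK1]; positivity
  set B : ℕ := ⌈y⌉₊ + 1 with hB
  have hyB : y ≤ B := by
    rw [hB]; push_cast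
    have := Nat.le_ceil y
    linarith
  set t0 : ℕ := B + ⌈2 * d0 * B / ε1⌉₊ + 1 with ht0
  have hBt : B ≤ t0 := by omega
  have ht0ne : NeZero t0 := ⟨by omega⟩
  have hgap : d0 * B < (y - d0) * (2 * t0) := by
    have h1 : 2 * d0 * B / ε1 < t0 := by
      rw [ht0]; push_cast
      have := Nat.le_ceil (2 * d0 * B / ε1)
      have hB0 : (0 : ℝ) ≤ B := Nat.cast_nonneg B
      linarith
    rw [div_lt_iff₀ hε0] at h1
    have h2 : y - d0 = ε1 / 4 := by rw [hy]; ring
    rw [h2]
    linarith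
  set a : ℕ := (2 * B + 1) * (2 * t0 ^ (B + 1)) + 4 with ha
  set A : ℕ := (2 * a + 8) * (B + 1) + 6 + a with hA
  have hA1 : 1 ≤ A := by omega
  obtain ⟨q0, α1, hα1, hpar⟩ := params (ε1 := ε1) (lam := lam) (δ := δ) (y := y) (K1 := K1) (B := B)
    (t0 := t0) (A := A) hε0 hε1 hK10 hgapy hA1
  have hlog2 : 0 < Real.log 2 := Real.log_pos (by norm_num)
  refine ⟨α1 + (q0 ^ A : ℕ) / Real.log 2, ?_⟩
  intro n G hG
  -- `n ≥ 2`
  have hn0 : n ≠ 0 := by
    rintro rfl
    simp at hG
    linarith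
  have hnr : (0 : ℝ) < n := by exact_mod_cast Nat.pos_of_ne_zero hn0
  rw [le_div_iff₀ hnr] at hG
  have hec : (ec G univ univ : ℝ) = 2 * G.edgeSet.ncard := by exact_mod_cast ec_univ G
  rw [← hec] at hG
  have hn2 : 2 ≤ n := by
    by_contra hcon
    have hn1 : n = 1 := by omega
    subst hn1
    have h1 : ec G univ univ = 0 := by
      unfold ec
      rw [Finset.card_eq_zero]
      ext ⟨x, z⟩
      simp only [mem_prs, Finset.notMem_empty, iff_false, not_and]
      intro _ _ hadj
      exact hadj.ne (Subsingleton.elim x z)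
    rw [h1] at hG
    simp at hG
    linarith
  have hG' : a0 * Fintype.card (Fin n) ≤ ec G univ univ := by
    rw [Fintype.card_fin]
    refine le_trans ?_ hG
    have : a0 ≤ d0 + ε := by rw [ha0]; linarith
    gcongr
  obtain ⟨W, hWne, H, hHG, hin, hdens, hcut⟩ := extremal G ha00 hδ0 (by rw [Fintype.card_fin]; exact hn2) hG'
  rw [Fintype.card_fin] at hcut
  set m : ℕ := Fintype.card W with hm
  have hmW : m = W.card := by rw [hm, Fintype.card_coe]
  have hm1 : 1 ≤ m := by rw [hmW]; exact hWne.card_pos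
  have hmn : m ≤ n := by
    rw [hmW]
    have := Finset.card_le_univ W
    rwa [Fintype.card_fin] at this
  have hlogn : Real.log 2 ≤ Real.log n := Real.log_le_log (by norm_num) (by exact_mod_cast hn2)
  have hlogn0 : 0 < Real.log n := lt_of_lt_of_le hlog2 hlogn
  -- it suffices to find an immersion in `H`
  suffices hsuff : ∃ U : Finset W, (U.card : ℝ) ≤ (α1 + (q0 ^ A : ℕ) / Real.log 2) * Real.log n ∧
      ImmIn k H U by
    obtain ⟨U, hU1, hU2⟩ := hsuff
    refine ⟨U.image (fun x : W => (x : Fin n)), ?_, immIn_map _ Subtype.val_injective hHG hU2⟩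
    refine le_trans ?_ hU1
    exact_mod_cast Finset.card_image_le
  by_cases hsmall : m < q0 ^ A
  · -- small case
    refine ⟨univ, ?_, ?_⟩
    · rw [Finset.card_univ, ← hm]
      have h1 : (m : ℝ) ≤ (q0 ^ A : ℕ) := by exact_mod_cast hsmall.le
      have h2 : ((q0 ^ A : ℕ) : ℝ) ≤ (q0 ^ A : ℕ) / Real.log 2 * Real.log n := by
        rw [div_mul_eq_mul_div, le_div_iff₀ hlog2]
        have : (0 : ℝ) ≤ (q0 ^ A : ℕ) := Nat.cast_nonneg _
        gcongr
      have h3 : 0 ≤ α1 * Real.log n := by positivity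
      rw [add_mul]
      linarith
    · apply dense_imm hk H univ
      · rw [← Finset.card_pos, Finset.card_univ, ← hm]; omega
      · have h1 := hdens ∅
        rw [ec_empty] at h1
        simp only [Finset.card_empty, Nat.cast_zero, sub_zero] at h1
        rw [Finset.card_univ, ← hm]
        have hmr : (0 : ℝ) < m := by exact_mod_cast hm1
        have h2 : d0 * m < lam * m := by
          have : d0 < lam := by linarith
          gcongr
        exact lt_of_lt_of_le h2 h1
  · -- large case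
    push Not at hsmall
    have hexq : ∃ q : ℕ, m < (q + 1) ^ A := by
      refine ⟨m, ?_⟩
      calc m < m + 1 := Nat.lt_succ_self m
        _ = (m + 1) ^ 1 := (pow_one _).symm
        _ ≤ (m + 1) ^ A := Nat.pow_le_pow_right (by omega) hA1
    obtain ⟨q, hq1, hq2⟩ : ∃ q : ℕ, q ^ A ≤ m ∧ m < (q + 1) ^ A := by
      refine ⟨Nat.find hexq, ?_, Nat.find_spec hexq⟩
      rcases Nat.eq_zero_or_pos (Nat.find hexq) with h0 | h0
      · rw [h0, zero_pow (by omega)]; omega
      · have h1 := Nat.find_min hexq (m := Nat.find hexq - 1) (by omega)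
        have h2 : Nat.find hexq - 1 + 1 = Nat.find hexq := by omega
        rw [h2] at h1
        exact not_lt.1 h1
    have hq0q : q0 ≤ q := by
      have h1 : q0 ^ A < (q + 1) ^ A := lt_of_le_of_lt hsmall hq2
      have h2 := lt_of_pow_lt_pow_left₀ A (Nat.zero_le _) h1
      omega
    obtain ⟨κ, s, L, hκ, hκ0, hκ1, hu, hu2, hBq, hq5, hqt, hqK, hsq, hs1, hsB, hlamq, hwq, hL, hfinal⟩ :=
      hpar q m n hq0q hq1 hq2 hmn hn2
    have hexp : ∀ X : Finset W, X.card ≤ m / q → 2 * κ * X.card ≤ cut H X := by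
      intro X hX
      have h1 : X.card * q ≤ m := by
        calc X.card * q ≤ m / q * q := Nat.mul_le_mul_right _ hX
          _ ≤ m := Nat.div_mul_le_self m q
      have h2 := hcut X q (by exact_mod_cast (by omega : 1 < q)) (by exact_mod_cast h1)
      refine le_trans (le_of_eq ?_) h2
      rw [hκ]
      have h3 : lam / 2 * (δ * Real.log q * (1 / Real.log n + 1 / (1 + Real.log m) ^ 2)) * (X.card : ℝ)
          = (lam * δ) / 2 * (Real.log q * (1 / Real.log n + 1 / (1 + Real.log m) ^ 2)) * X.card := by ring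
      rw [h3, hlamδ]
      ring
    obtain ⟨U, hU1, hU2⟩ := core (y := y) (lam := lam) hd0 hk hyd hylam H (M := m / q) (B := B) (q := q)
      (a := a) (s := s) (L := L) (t0 := t0) hκ0 hκ1 hu hK10 hu2 hBq hexp hin hdens rfl ha hq5 hqt hqK
      hsq hs1 hyB hsB hgap hlamq hwq hL hBt (by rw [← hA]; exact hq1)
    refine ⟨U, ?_, hU2⟩
    have h1 : (U.card : ℝ) ≤ ((2 * t0 * s + B + 2 * t0 * B * (B * L + 1) : ℕ) : ℝ) := by exact_mod_cast hU1
    have h2 : 0 ≤ (q0 ^ A : ℕ) / Real.log 2 * Real.log n := by positivity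
    rw [add_mul]
    linarith

end Pool.Agent.H89.Imm
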