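import Mathlib

set_option autoImplicit false
set_option linter.unusedSectionVars false
set_option linter.unusedVariables false
set_option linter.unusedSimpArgs false

namespace Pool.Agent.H89.Imm

open Finset

/-- average of a real function on a finite type -/
noncomputable def av {α : Type*} [Fintype α] (φ : α → ℝ) : ℝ := (∑ a, φ a) / Fintype.card α

section av
variable {α β : Type*} [Fintype α] [Fintype β]

lemma av_mono {φ ψ : α → ℝ} (h : ∀ a, φ a ≤ ψ a) : av φ ≤ av ψ := by
  unfold av; gcongr with a _; exact h a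

lemma av_nonneg {φ : α → ℝ} (h : ∀ a, 0 ≤ φ a) : 0 ≤ av φ :=
  div_nonneg (Finset.sum_nonneg (fun a _ => h a)) (Nat.cast_nonneg _)

lemma av_const [Nonempty α] (c : ℝ) : av (fun _ : α => c) = c := by
  unfold av; rw [Finset.sum_const, Finset.card_univ, nsmul_eq_mul]
  have : (Fintype.card α : ℝ) ≠ 0 := by positivity
  field_simp

lemma av_le_one [Nonempty α] {φ : α → ℝ} (h : ∀ a, φ a ≤ 1) : av φ ≤ 1 := by
  calc av φ ≤ av (fun _ : α => (1 : ℝ)) := av_mono h
    _ = 1 := av_const 1

lemma av_sum {ι : Type*} (s : Finset ι) (φ : ι → α → ℝ) :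
    av (fun a => ∑ i ∈ s, φ i a) = ∑ i ∈ s, av (φ i) := by
  unfold av; rw [Finset.sum_comm, Finset.sum_div]

lemma av_mul_left (c : ℝ) (φ : α → ℝ) : av (fun a => c * φ a) = c * av φ := by
  unfold av; rw [← Finset.mul_sum, mul_div_assoc]

lemma av_mul_right (c : ℝ) (φ : α → ℝ) : av (fun a => φ a * c) = av φ * c := by
  unfold av; rw [← Finset.sum_mul, div_mul_eq_mul_div]

lemma av_prod (φ : α × β → ℝ) : av φ = av (fun a => av (fun b => φ (a, b))) := by
  unfold av
  rw [Fintype.sum_prod_type, Fintype.card_prod, ← Finset.sum_div, div_div, Nat.cast_mul, mul_comm]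

lemma av_comm (φ : α → β → ℝ) : av (fun a => av (φ a)) = av (fun b => av (fun a => φ a b)) := by
  unfold av
  rw [← Finset.sum_div, ← Finset.sum_div, Finset.sum_comm, div_div, div_div, mul_comm]

lemma av_equiv (e : α ≃ β) (φ : β → ℝ) : av (fun a => φ (e a)) = av φ := by
  unfold av
  rw [e.sum_comp φ, Fintype.card_congr e]

lemma exists_lt_of_av_lt {φ ψ : α → ℝ} (h : av φ < av ψ) : ∃ a, φ a < ψ a := by
  by_contra hc
  push Not at hc
  exact absurd (av_mono hc) (not_le.2 h)

lemma pow_av_le [Nonempty α] {φ : α → ℝ} (h : ∀ a, 0 ≤ φ a) (n : ℕ) :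
    (av φ) ^ n ≤ av (fun a => φ a ^ n) := by
  have hc : (0 : ℝ) < Fintype.card α := by positivity
  have h2 := Real.pow_arith_mean_le_arith_mean_pow (univ : Finset α) (fun _ => 1 / (Fintype.card α : ℝ))
    φ (fun _ _ => by positivity) (by
      rw [Finset.sum_const, Finset.card_univ, nsmul_eq_mul]; field_simp) (fun a _ => h a) n
  have e1 : ∀ ψ : α → ℝ, ∑ a, (1 / (Fintype.card α : ℝ)) * ψ a = av ψ := by
    intro ψ
    unfold av
    rw [← Finset.mul_sum, one_div, mul_comm, div_eq_mul_inv]
  rw [e1, e1] at h2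
  exact h2

lemma av_pi_prod {ι : Type*} [Fintype ι] [DecidableEq ι] (φ : ι → α → ℝ) :
    av (fun H : ι → α => ∏ i, φ i (H i)) = ∏ i, av (φ i) := by
  unfold av
  rw [Finset.prod_div_distrib, Finset.prod_const, Finset.card_univ, Fintype.card_fun, Nat.cast_pow]
  congr 1
  rw [Finset.prod_univ_sum, Fintype.piFinset_univ]

end av

/-- the box inequality -/
theorem box {V ι : Type*} [Fintype V] [Nonempty V] [Fintype ι] [DecidableEq ι] : ∀ (b : ℕ) (g : (Fin b → V) → ℝ),
    (∀ h, 0 ≤ g h) →
    (av g) ^ (Fintype.card ι ^ b) ≤ av (fun H : Fin b → ι → V => ∏ τ : Fin b → ι, g (fun j => H j (τ j))) := by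
  intro b
  induction b with
  | zero =>
    intro g hg
    rw [pow_zero, pow_one]
    have h1 : ∀ H : Fin 0 → ι → V, ∏ τ : Fin 0 → ι, g (fun j => H j (τ j)) = g Fin.elim0 := by
      intro H
      rw [Fintype.prod_unique]
      congr 1
      funext j; exact j.elim0
    simp only [h1]
    rw [av_const]
    have h2 : ∀ h : Fin 0 → V, g h = g Fin.elim0 := by
      intro h; congr 1; funext j; exact j.elim0
    have h3 : g = fun _ => g Fin.elim0 := by funext h; exact h2 h
    rw [h3, av_const]
  | succ b ih =>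
    intro g hg
    -- split off the coordinate 0
    have e1 : av g = av (fun x : V => av (fun h' : Fin b → V => g (Fin.cons x h'))) := by
      rw [← av_equiv (Fin.consEquiv (fun _ : Fin (b + 1) => V)) g, av_prod]
      rfl
    have e2 : av (fun H : Fin (b + 1) → ι → V =>
        ∏ τ : Fin (b + 1) → ι, g (fun j => H j (τ j)))
        = av (fun H' : Fin b → ι → V => (av (fun x : V => ∏ τ' : Fin b → ι,
            g (Fin.cons x (fun j => H' j (τ' j))))) ^ Fintype.card ι) := by
      rw [← av_equiv (Fin.consEquiv (fun _ : Fin (b + 1) => (ι → V))), av_prod, av_comm]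
      congr 1
      funext H'
      have h1 : ∀ H0 : ι → V, ∏ τ : Fin (b + 1) → ι,
          g (fun j => ((Fin.consEquiv (fun _ : Fin (b + 1) => (ι → V))) (H0, H')) j (τ j))
          = ∏ a : ι, ∏ τ' : Fin b → ι, g (Fin.cons (H0 a) (fun j => H' j (τ' j))) := by
        intro H0
        rw [← (Fin.consEquiv (fun _ : Fin (b + 1) => ι)).prod_comp, Fintype.prod_prod_type]
        refine Finset.prod_congr rfl (fun a _ => Finset.prod_congr rfl (fun τ' _ => ?_))
        congr 1
        funext j
        refine Fin.cases ?_ (fun i => ?_) j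
        · rfl
        · rfl
      simp only [h1]
      have h2 := av_pi_prod (ι := ι) (fun _ x => ∏ τ' : Fin b → ι,
        g (Fin.cons x (fun j => H' j (τ' j))))
      rw [h2, Finset.prod_const, Finset.card_univ]
    rw [e1, e2]
    have hprod : ∀ (x : V) (H' : Fin b → ι → V), 0 ≤ ∏ τ' : Fin b → ι,
        g (Fin.cons x (fun j => H' j (τ' j))) := fun x H' => Finset.prod_nonneg (fun _ _ => hg _)
    rcases isEmpty_or_nonempty (Fin b → ι → V) with hemp | hne
    · exfalso
      exact hemp.elim (fun _ _ => Classical.arbitrary V)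
    calc (av (fun x : V => av (fun h' : Fin b → V => g (Fin.cons x h')))) ^ (Fintype.card ι ^ (b + 1))
        = ((av (fun x : V => av (fun h' : Fin b → V => g (Fin.cons x h')))) ^ (Fintype.card ι ^ b)) ^ Fintype.card ι := by
          rw [← pow_mul, pow_succ]
      _ ≤ (av (fun x : V => (av (fun h' : Fin b → V => g (Fin.cons x h'))) ^ (Fintype.card ι ^ b))) ^ Fintype.card ι := by
          refine pow_le_pow_left₀ (pow_nonneg (av_nonneg (fun x => av_nonneg (fun h' => hg _))) _) ?_ _
          exact pow_av_le (fun x => av_nonneg (fun h' => hg _)) _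
      _ ≤ (av (fun x : V => av (fun H' : Fin b → ι → V => ∏ τ' : Fin b → ι,
            g (Fin.cons x (fun j => H' j (τ' j)))))) ^ Fintype.card ι := by
          refine pow_le_pow_left₀ (av_nonneg (fun x => pow_nonneg (av_nonneg (fun h' => hg _)) _)) ?_ _
          refine av_mono (fun x => ?_)
          exact ih (fun h' => g (Fin.cons x h')) (fun h' => hg _)
      _ = (av (fun H' : Fin b → ι → V => av (fun x : V => ∏ τ' : Fin b → ι,
            g (Fin.cons x (fun j => H' j (τ' j)))))) ^ Fintype.card ι := by rw [av_comm]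
      _ ≤ av (fun H' : Fin b → ι → V => (av (fun x : V => ∏ τ' : Fin b → ι,
            g (Fin.cons x (fun j => H' j (τ' j))))) ^ Fintype.card ι) :=
          pow_av_le (fun H' => av_nonneg (fun x => hprod x H')) _

/-- functions of disjoint sets of coordinates are independent -/
theorem indep {J W : Type*} [Fintype J] [DecidableEq J] [Fintype W] [Nonempty W] (A B : Set J)
    (hAB : Disjoint A B) (φ ψ : (J → W) → ℝ)
    (hφ : ∀ H H' : J → W, (∀ i ∈ A, H i = H' i) → φ H = φ H')
    (hψ : ∀ H H' : J → W, (∀ i ∈ B, H i = H' i) → ψ H = ψ H') :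
    av (fun H => φ H * ψ H) = av φ * av ψ := by
  classical
  let mix : (J → W) → (J → W) → (J → W) := fun H H' i => if i ∈ A then H i else H' i
  let e : (J → W) × (J → W) ≃ (J → W) × (J → W) :=
    { toFun := fun p => (mix p.1 p.2, mix p.2 p.1)
      invFun := fun p => (mix p.1 p.2, mix p.2 p.1)
      left_inv := by
        rintro ⟨H, H'⟩
        simp only [mix, Prod.mk.injEq]
        constructor <;> funext i <;> by_cases hi : i ∈ A <;> simp [hi]
      right_inv := by
        rintro ⟨H, H'⟩
        simp only [mix, Prod.mk.injEq]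
        constructor <;> funext i <;> by_cases hi : i ∈ A <;> simp [hi] }
  have h1 : av (fun p : (J → W) × (J → W) => φ p.1 * ψ p.2) = av φ * av ψ := by
    rw [av_prod]
    simp only [av_mul_left, av_mul_right]
  have h2 : av (fun p : (J → W) × (J → W) => φ p.1 * ψ p.1) = av (fun H => φ H * ψ H) := by
    rw [av_prod]
    simp only [av_const]
  rw [← h1, ← h2, ← av_equiv e (fun p : (J → W) × (J → W) => φ p.1 * ψ p.1)]
  congr 1
  funext p
  have h3 : φ (mix p.1 p.2) = φ p.1 := by
    apply hφ; intro i hi; simp [mix, hi]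
  have h4 : ψ (mix p.1 p.2) = ψ p.2 := by
    apply hψ; intro i hi
    have : i ∉ A := fun hA => Set.disjoint_left.1 hAB hA hi
    simp [mix, this]
  show φ (mix p.1 p.2) * ψ (mix p.1 p.2) = φ p.1 * ψ p.2
  rw [h3, h4]

/-- averages of functions of some of the coordinates -/
theorem marginal {J K W : Type*} [Fintype J] [DecidableEq J] [Fintype K] [DecidableEq K] [Fintype W]
    [Nonempty W] (σ : K → J) (hσ : Function.Injective σ) (φ : (K → W) → ℝ) :
    av (fun H : J → W => φ (fun k => H (σ k))) = av φ := by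
  classical
  let e := Equiv.piEquivPiSubtypeProd (fun i : J => i ∈ Set.range σ) (fun _ => W)
  rw [← av_equiv e.symm (fun H : J → W => φ (fun k => H (σ k))), av_prod]
  have h1 : ∀ (x : {i // i ∈ Set.range σ} → W) (y : {i // ¬ i ∈ Set.range σ} → W),
      φ (fun k => (e.symm (x, y)) (σ k)) = φ (fun k => x ⟨σ k, k, rfl⟩) := by
    intro x y
    congr 1
    funext k
    simp [e, Equiv.piEquivPiSubtypeProd]
  simp only [h1, av_const]
  let e2 : K ≃ {i // i ∈ Set.range σ} := Equiv.ofInjective σ hσ
  have h2 : ∀ x : {i // i ∈ Set.range σ} → W, (fun k => x ⟨σ k, k, rfl⟩) = (Equiv.arrowCongr e2 (Equiv.refl W)).symm x := by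
    intro x; funext k; rfl
  simp only [h2]
  exact av_equiv (Equiv.arrowCongr e2 (Equiv.refl W)).symm φ

/-- greedy choice of deleted sets -/
theorem greedy {E : Type*} [Fintype E] [DecidableEq E] (Q : Finset E → E → ℝ) (dm T : ℕ)
    {c0 S0 θ : ℝ} (hθ : 0 < θ) (hc0 : 0 ≤ c0) (hS0 : 0 ≤ S0)
    (q0 : ∀ D : Finset E, ∀ e, 0 ≤ Q D e)
    (q1 : ∀ D : Finset E, D.card ≤ dm → ∀ e ∈ D, Q D e = 0)
    (q2 : ∀ D : Finset E, D.card ≤ dm → ∀ e, Q D e ≤ c0)
    (q3 : ∀ D : Finset E, D.card ≤ dm → ∑ e, Q D e ≤ S0)
    (hT : T * S0 ≤ θ * dm) :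
    ∃ D : ℕ → Finset E, (∀ t < T, (D t).card ≤ dm) ∧ ∀ e, ∑ t ∈ range T, Q (D t) e ≤ θ + c0 := by
  classical
  let hit : (E → ℝ) → Finset E := fun a => univ.filter (fun e => θ ≤ a e)
  let acc : ℕ → E → ℝ := fun t => Nat.rec (fun _ => 0) (fun _ a e => a e + Q (hit a) e) t
  have acc0 : acc 0 = fun _ => 0 := rfl
  have accS : ∀ t, acc (t + 1) = fun e => acc t e + Q (hit (acc t)) e := fun t => rfl
  have main : ∀ t ≤ T, (∀ e, 0 ≤ acc t e ∧ acc t e ≤ θ + c0) ∧ ∑ e, acc t e ≤ t * S0 := by
    intro t
    induction t with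
    | zero => intro _; simp only [acc0]; refine ⟨fun e => ⟨le_rfl, by positivity⟩, by simp⟩
    | succ t ih =>
      intro ht
      obtain ⟨h1, h2⟩ := ih (by omega)
      have hcard : (hit (acc t)).card ≤ dm := by
        have h3 : θ * (hit (acc t)).card ≤ ∑ e, acc t e := by
          calc θ * (hit (acc t)).card = ∑ e ∈ hit (acc t), θ := by
                rw [Finset.sum_const, nsmul_eq_mul]; ring
            _ ≤ ∑ e ∈ hit (acc t), acc t e := by
                refine Finset.sum_le_sum (fun e he => ?_)
                simp only [hit, Finset.mem_filter] at he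
                exact he.2
            _ ≤ ∑ e, acc t e :=
                Finset.sum_le_sum_of_subset_of_nonneg (Finset.subset_univ _) (fun e _ _ => (h1 e).1)
        have h4 : (t : ℝ) * S0 ≤ T * S0 := by
          have : (t : ℝ) ≤ T := by exact_mod_cast (by omega : t ≤ T)
          gcongr
        have h5 : θ * (hit (acc t)).card ≤ θ * dm := by linarith
        have h6 := le_of_mul_le_mul_left h5 hθ
        exact_mod_cast h6
      rw [accS]
      refine ⟨fun e => ⟨add_nonneg (h1 e).1 (q0 _ _), ?_⟩, ?_⟩
      · by_cases he : e ∈ hit (acc t)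
        · simp only
          rw [q1 _ hcard e he, add_zero]; exact (h1 e).2
        · have h3 : acc t e < θ := by
            simp only [hit, Finset.mem_filter, Finset.mem_univ, true_and, not_le] at he
            exact he
          have := q2 _ hcard e
          simp only
          linarith
      · rw [Finset.sum_add_distrib]
        have := q3 _ hcard
        push_cast
        linarith
  have hcardall : ∀ t < T, (hit (acc t)).card ≤ dm := by
    intro t ht
    obtain ⟨h1, h2⟩ := main t ht.le
    have h3 : θ * (hit (acc t)).card ≤ ∑ e, acc t e := by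
      calc θ * (hit (acc t)).card = ∑ e ∈ hit (acc t), θ := by
            rw [Finset.sum_const, nsmul_eq_mul]; ring
        _ ≤ ∑ e ∈ hit (acc t), acc t e := by
            refine Finset.sum_le_sum (fun e he => ?_)
            simp only [hit, Finset.mem_filter] at he
            exact he.2
        _ ≤ ∑ e, acc t e :=
            Finset.sum_le_sum_of_subset_of_nonneg (Finset.subset_univ _) (fun e _ _ => (h1 e).1)
    have h4 : (t : ℝ) * S0 ≤ T * S0 := by
      have : (t : ℝ) ≤ T := by exact_mod_cast ht.le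
      gcongr
    have h5 : θ * (hit (acc t)).card ≤ θ * dm := by linarith
    have h6 := le_of_mul_le_mul_left h5 hθ
    exact_mod_cast h6
  refine ⟨fun t => hit (acc t), hcardall, ?_⟩
  intro e
  have h1 : ∀ n, ∑ t ∈ range n, Q (hit (acc t)) e = acc n e := by
    intro n
    induction n with
    | zero => simp [acc0]
    | succ n ih => rw [Finset.sum_range_succ, ih, accS]
  rw [h1]
  exact ((main T le_rfl).1 e).2

end Pool.Agent.H89.Imm
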