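import Pool.Agent.H89.Imm.Flow5
import Pool.Agent.H89.Imm.Cut

set_option autoImplicit false
set_option linter.unusedSectionVars false
set_option linter.unusedVariables false
set_option linter.unusedSimpArgs false

namespace Pool.Agent.H89.Imm

open Finset SimpleGraph

variable {V : Type*} [DecidableEq V] [Fintype V]

open Classical in
/-- one round of exploration of the residual network -/
noncomputable def nxt (N : SimpleGraph V) (f : V → V → ℤ) (X : Finset V) : Finset V :=
  X ∪ univ.filter (fun v => ∃ u ∈ X, N.Adj u v ∧ f u v ≤ 0)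

/-- exploration of the residual network -/
noncomputable def bfs (N : SimpleGraph V) (f : V → V → ℤ) (S : Finset V) : ℕ → Finset V
  | 0 => S
  | t + 1 => nxt N f (bfs N f S t)

lemma bfs_mono (N : SimpleGraph V) (f : V → V → ℤ) (S : Finset V) {t t' : ℕ} (h : t ≤ t') :
    bfs N f S t ⊆ bfs N f S t' := by
  induction h with
  | refl => exact Finset.Subset.refl _
  | step h ih => exact ih.trans (Finset.subset_union_left)

lemma subset_bfs (N : SimpleGraph V) (f : V → V → ℤ) (S : Finset V) (t : ℕ) : S ⊆ bfs N f S t :=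
  bfs_mono N f S (Nat.zero_le t)

lemma bfs_walk {N : SimpleGraph V} {f : V → V → ℤ} {S : Finset V} (t : ℕ) : ∀ v ∈ bfs N f S t,
    ∃ s ∈ S, ∃ p : N.Walk v s, p.length ≤ t ∧ ∀ dt ∈ p.darts, f dt.snd dt.fst ≤ 0 := by
  classical
  induction t with
  | zero =>
    intro v hv
    exact ⟨v, hv, Walk.nil, by simp, by simp⟩
  | succ t ih =>
    intro v hv
    unfold bfs nxt at hv
    rw [Finset.mem_union, Finset.mem_filter] at hv
    rcases hv with hv | ⟨-, u, hu, hadj, hfu⟩
    · obtain ⟨s, hs, p, h1, h2⟩ := ih v hv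
      exact ⟨s, hs, p, by omega, h2⟩
    · obtain ⟨s, hs, p, h1, h2⟩ := ih u hu
      refine ⟨s, hs, Walk.cons hadj.symm p, by simp; omega, ?_⟩
      intro dt hdt
      rw [Walk.darts_cons, List.mem_cons] at hdt
      rcases hdt with rfl | hdt
      · exact hfu
      · exact h2 dt hdt

lemma aug_exists {N : SimpleGraph V} {S : Finset V} {d : V → ℤ} {f : V → V → ℤ}
    (hf : IsFlow N S d f) {t : ℕ} {v : V} (hv : v ∈ bfs N f S t) (hvS : v ∉ S) :
    ∃ F, IsFlow N S (fun x => d x + one v x) F ∧ (arcs F).card ≤ (arcs f).card + t := by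
  classical
  obtain ⟨s, hs, p0, h1, h2⟩ := bfs_walk t v hv
  set p := p0.bypass with hp0
  have hp : p.IsPath := p0.bypass_isPath
  have hlen : p.length ≤ t := (p0.length_bypass_le_length).trans h1
  have hres : ∀ dt ∈ p.darts, f dt.snd dt.fst ≤ 0 := fun dt hdt =>
    h2 dt (p0.darts_bypass_subset_darts hdt)
  have hval : ∀ x y, ind p x y < 0 → f x y ≤ 0 := by
    intro x y hxy
    have h3 : 0 < ind p y x := by rw [ind_anti]; omega
    obtain ⟨dt, hdt, h4, h5⟩ := ind_pos_dart p h3
    have h6 := hres dt hdt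
    rw [h4, h5] at h6
    exact h6
  refine ⟨fun x y => f x y - ind p x y, ⟨?_, ?_, ?_, ?_⟩, ?_⟩
  · intro x y
    rw [hf.anti x y, ind_anti p x y]; ring
  · intro x y
    by_cases h3 : ind p x y < 0
    · have := hval x y h3
      have := ind_path_ge p hp x y
      omega
    · have := hf.le x y
      omega
  · intro x y hne
    by_cases h3 : ind p x y = 0
    · apply hf.adj; intro h4; apply hne; simp [h3, h4]
    · exact (ind_ne_zero p h3).2.2
  · intro x hx
    rw [Finset.sum_sub_distrib, hf.div x hx, ind_div]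
    have : x ≠ s := by rintro rfl; exact hx hs
    simp only [one, if_neg this]; ring
  · have hsub : arcs (fun x y => f x y - ind p x y) ⊆
        arcs f ∪ (p.darts.toFinset).image (fun dt => (dt.snd, dt.fst)) := by
      rintro ⟨x, y⟩ hxy
      rw [mem_arcs] at hxy
      rw [Finset.mem_union, mem_arcs, Finset.mem_image]
      by_cases h3 : 0 < f x y
      · left; exact h3
      · right
        have h4 : 0 < ind p y x := by rw [ind_anti]; omega
        obtain ⟨dt, hdt, h5, h6⟩ := ind_pos_dart p h4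
        exact ⟨dt, by simpa using hdt, by rw [h5, h6]⟩
    refine (Finset.card_le_card hsub).trans ((Finset.card_union_le _ _).trans ?_)
    refine add_le_add le_rfl (Finset.card_image_le.trans ((List.toFinset_card_le _).trans ?_))
    rw [Walk.length_darts]; exact hlen

/-- one round of growth -/
lemma growth {N : SimpleGraph V} {S : Finset V} {d : V → ℤ} {f : V → V → ℤ}
    (hf : IsFlow N S d f) {X : Finset V} (hSX : S ⊆ X) {j : ℤ} (hj : ∑ v ∈ Xᶜ, d v ≤ j) :
    ∃ r : ℕ, (cut N X : ℤ) ≤ j + 2 * r ∧ vol N X + r ≤ vol N (nxt N f X) := by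
  classical
  set R := (prs N X Xᶜ).filter (fun p => f p.1 p.2 ≤ 0) with hR
  set Q := (prs N X Xᶜ).filter (fun p => ¬ f p.1 p.2 ≤ 0) with hQ
  refine ⟨R.card, ?_, ?_⟩
  · have h1 : cut N X = R.card + Q.card := by
      unfold cut ec
      rw [hR, hQ, Finset.card_filter_add_card_filter_not]
    have h2 : ∑ v ∈ Xᶜ, ∑ u, f u v = ∑ v ∈ Xᶜ, d v :=
      Finset.sum_congr rfl (fun v hv => hf.div v (fun h => (Finset.mem_compl.1 hv) (hSX h)))
    have h3 : ∑ v ∈ Xᶜ, ∑ u, f u v = ∑ v ∈ Xᶜ, ∑ u ∈ X, f u v + ∑ v ∈ Xᶜ, ∑ u ∈ Xᶜ, f u v := by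
      rw [← Finset.sum_add_distrib]
      refine Finset.sum_congr rfl (fun v _ => ?_)
      rw [Finset.sum_add_sum_compl]
    have h4 : ∑ v ∈ Xᶜ, ∑ u ∈ Xᶜ, f u v = 0 := by
      have h5 : ∑ v ∈ Xᶜ, ∑ u ∈ Xᶜ, f u v = - ∑ v ∈ Xᶜ, ∑ u ∈ Xᶜ, f u v := by
        conv_lhs => rw [Finset.sum_comm]
        rw [← Finset.sum_neg_distrib]
        refine Finset.sum_congr rfl (fun v _ => ?_)
        rw [← Finset.sum_neg_distrib]
        exact Finset.sum_congr rfl (fun u _ => hf.anti v u)
      omega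
    have h5 : ∑ v ∈ Xᶜ, ∑ u ∈ X, f u v = ∑ p ∈ prs N X Xᶜ, f p.1 p.2 := by
      rw [Finset.sum_comm, ← Finset.sum_product' X Xᶜ f]
      symm
      apply Finset.sum_subset
      · rintro ⟨u, v⟩ huv
        rw [mem_prs] at huv
        exact Finset.mem_product.2 ⟨huv.1, huv.2.1⟩
      · rintro ⟨u, v⟩ huv hn
        rw [Finset.mem_product] at huv
        by_contra hne
        exact hn (mem_prs.2 ⟨huv.1, huv.2, hf.adj u v hne⟩)
    have h6 : ∑ p ∈ prs N X Xᶜ, f p.1 p.2 = ∑ p ∈ R, f p.1 p.2 + ∑ p ∈ Q, f p.1 p.2 := by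
      rw [hR, hQ, Finset.sum_filter_add_sum_filter_not]
    have h7 : - (R.card : ℤ) ≤ ∑ p ∈ R, f p.1 p.2 := by
      have := Finset.card_nsmul_le_sum R (fun p => f p.1 p.2) (-1) (fun p _ => hf.ge _ _)
      simpa using this
    have h8 : (Q.card : ℤ) ≤ ∑ p ∈ Q, f p.1 p.2 := by
      have := Finset.card_nsmul_le_sum Q (fun p => f p.1 p.2) 1 (fun p hp => by
        rw [hQ, Finset.mem_filter] at hp; omega)
      simpa using this
    rw [h1]; push_cast
    linarith
  · have hsplit : nxt N f X = X ∪ (nxt N f X \ X) := by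
      rw [Finset.union_sdiff_of_subset]; exact Finset.subset_union_left
    have h1 : vol N (nxt N f X) = vol N X + vol N (nxt N f X \ X) := by
      conv_lhs => rw [hsplit]
      unfold vol; rw [ec_union_left N disjoint_sdiff_self_right]
    rw [h1]
    refine Nat.add_le_add_left ?_ _
    unfold vol ec
    refine Finset.card_le_card_of_injOn Prod.swap ?_ (Prod.swap_injective.injOn)
    rintro ⟨u, v⟩ huv
    rw [hR, Finset.mem_coe, Finset.mem_filter, mem_prs] at huv
    obtain ⟨⟨hu, hv, hadj⟩, hfuv⟩ := huv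
    rw [Finset.mem_coe, Prod.swap_prod_mk, mem_prs]
    refine ⟨?_, Finset.mem_univ _, hadj.symm⟩
    rw [Finset.mem_sdiff]
    refine ⟨?_, Finset.mem_compl.1 hv⟩
    unfold nxt
    rw [Finset.mem_union, Finset.mem_filter]
    right
    exact ⟨Finset.mem_univ _, u, hu, hadj, hfuv⟩

/-- the exploration stays away from isolated vertices -/
lemma bfs_disjoint {N : SimpleGraph V} {f : V → V → ℤ} {S Z : Finset V}
    (hZ : ∀ z ∈ Z, ∀ y, ¬ N.Adj y z) (hSZ : Disjoint S Z) (t : ℕ) : Disjoint (bfs N f S t) Z := by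
  classical
  induction t with
  | zero => exact hSZ
  | succ t ih =>
    unfold bfs nxt
    rw [Finset.disjoint_union_left]
    refine ⟨ih, ?_⟩
    rw [Finset.disjoint_left]
    intro v hv hvZ
    rw [Finset.mem_filter] at hv
    obtain ⟨-, u, -, hadj, -⟩ := hv
    exact hZ v hvZ u hadj

/-- hypotheses on the network of a source -/
structure Net (N : SimpleGraph V) (S Z : Finset V) (b M : ℕ) (B κ K1 : ℝ) : Prop where
  iso : ∀ z ∈ Z, ∀ y, ¬ N.Adj y z
  disj : Disjoint S Z
  cutb : ∀ X, S ⊆ X → Disjoint X Z → X.card ≤ M → b ≤ cut N X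
  exp : ∀ X, S ⊆ X → Disjoint X Z → X.card ≤ M → κ * X.card ≤ cut N X + B
  inner : ∀ X, (ec N X X : ℝ) ≤ K1 * X.card

/-- the exploration is large after `L` rounds -/
theorem reach {N : SimpleGraph V} {S Z : Finset V} {b M : ℕ} {B κ K1 : ℝ}
    (hN : Net N S Z b M B κ K1) (hκ : 0 < κ) (hκ1 : κ ≤ 1) (hK1 : 0 ≤ K1) (hB : 0 ≤ B) (hbB : (b : ℝ) ≤ B)
    {d : V → ℤ} {f : V → V → ℤ} (hf : IsFlow N S d f) (hd : ∀ v, 0 ≤ d v)
    (hj : ∑ v, d v + 1 ≤ b) {L : ℕ}
    (hL : K1 * Fintype.card V < (1 + κ / (2 * (K1 + 1) * (B + 1))) ^ L) :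
    M < (bfs N f S L).card := by
  by_contra hcon
  push Not at hcon
  set ρ := κ / (2 * (K1 + 1) * (B + 1)) with hρ
  have hρ0 : 0 ≤ ρ := by positivity
  have hle : ∀ t ≤ L, (bfs N f S t).card ≤ M := fun t ht =>
    (Finset.card_le_card (bfs_mono N f S ht)).trans hcon
  have hstep : ∀ t ≤ L, 1 ≤ vol N (bfs N f S t) ∧ (1 + ρ) * vol N (bfs N f S t) ≤ vol N (bfs N f S (t + 1)) := by
    intro t ht
    set X := bfs N f S t with hX
    have hSX : S ⊆ X := subset_bfs N f S t
    have hXZ : Disjoint X Z := bfs_disjoint hN.iso hN.disj t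
    have hD : ∑ v ∈ Xᶜ, d v ≤ (b : ℤ) - 1 := by
      have : ∑ v ∈ Xᶜ, d v ≤ ∑ v, d v :=
        Finset.sum_le_sum_of_subset_of_nonneg (Finset.subset_univ _) (fun v _ _ => hd v)
      omega
    obtain ⟨r, hr1, hr2⟩ := growth hf hSX hD
    have hcb := hN.cutb X hSX hXZ (hle t ht)
    have hexp := hN.exp X hSX hXZ (hle t ht)
    have hinner := hN.inner X
    have hr0 : 1 ≤ r := by omega
    have hvol : (vol N X : ℝ) = ec N X X + cut N X := by rw [vol_eq]; push_cast; ring
    have hr1' : (cut N X : ℝ) ≤ b - 1 + 2 * r := by exact_mod_cast hr1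
    have hr0' : (1 : ℝ) ≤ r := by exact_mod_cast hr0
    have hr2' : (vol N X : ℝ) + r ≤ vol N (nxt N f X) := by exact_mod_cast hr2
    refine ⟨?_, ?_⟩
    · have hd0 : 0 ≤ ∑ v, d v := Finset.sum_nonneg (fun v _ => hd v)
      rw [vol_eq]; omega
    · -- `κ vol ≤ (K1+1) (cut + B)`
      have h1 : κ * vol N X ≤ (K1 + 1) * (cut N X + B) := by
        rw [hvol]
        have h2 : κ * (ec N X X : ℝ) ≤ K1 * (cut N X + B) := by
          calc κ * (ec N X X : ℝ) ≤ κ * (K1 * X.card) := by gcongr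
            _ = K1 * (κ * X.card) := by ring
            _ ≤ K1 * (cut N X + B) := by gcongr
        have h3 : κ * (cut N X : ℝ) ≤ 1 * cut N X := by gcongr
        nlinarith
      -- `κ vol ≤ 2 (K1+1) (B+1) r`
      have h4 : (cut N X : ℝ) + B ≤ 2 * (B + 1) * r := by nlinarith
      have h5 : κ * vol N X ≤ (2 * (K1 + 1) * (B + 1)) * r := by
        calc κ * vol N X ≤ (K1 + 1) * (cut N X + B) := h1
          _ ≤ (K1 + 1) * (2 * (B + 1) * r) := by gcongr
          _ = _ := by ring
      have h6 : ρ * vol N X ≤ r := by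
        rw [hρ, div_mul_eq_mul_div, div_le_iff₀ (by positivity)]
        linarith
      show (1 + ρ) * (vol N X : ℝ) ≤ vol N (nxt N f X)
      linarith
  have hpow : ∀ t ≤ L, (1 + ρ) ^ t ≤ vol N (bfs N f S t) := by
    intro t
    induction t with
    | zero =>
      intro h0
      have := (hstep 0 h0).1
      rw [pow_zero]; exact_mod_cast this
    | succ t ih =>
      intro ht
      have h1 := ih (by omega)
      have h2 := (hstep t (by omega)).2
      calc (1 + ρ) ^ (t + 1) = (1 + ρ) * (1 + ρ) ^ t := by ring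
        _ ≤ (1 + ρ) * vol N (bfs N f S t) := by gcongr
        _ ≤ _ := h2
  have h1 := hpow L le_rfl
  have h2 : (vol N (bfs N f S L) : ℝ) ≤ K1 * Fintype.card V := by
    have h3 : vol N (bfs N f S L) ≤ vol N univ := vol_mono N (Finset.subset_univ _)
    have h4 := hN.inner univ
    have h5 : vol N univ = ec N univ univ := rfl
    rw [Finset.card_univ] at h4
    rw [h5] at h3
    have h6 : (vol N (bfs N f S L) : ℝ) ≤ ec N univ univ := by exact_mod_cast h3
    linarith
  linarith

/-- good tuples of hubs -/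
def GoodTuple (N : SimpleGraph V) (S : Finset V) (K : ℕ) {n : ℕ} (h : Fin n → V) : Prop :=
  Function.Injective h ∧ (∀ j, h j ∉ S) ∧ ∃ f, IsFlow N S (dem univ h) f ∧ (arcs f).card ≤ K

lemma dem_total {n : ℕ} (h : Fin n → V) : ∑ v, dem univ h v = n := by
  unfold dem
  rw [Finset.sum_comm]
  have : ∀ j : Fin n, ∑ v : V, one (h j) v = 1 := by
    intro j; unfold one; simp
  simp [this]

lemma dem_nonneg {n : ℕ} (h : Fin n → V) (v : V) : 0 ≤ dem univ h v :=
  Finset.sum_nonneg (fun j _ => by unfold one; split_ifs <;> simp)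

lemma dem_cons {n : ℕ} (x : V) (h : Fin n → V) :
    dem univ (Fin.cons x h : Fin (n + 1) → V) = fun v => dem univ h v + one x v := by
  funext v
  unfold dem
  rw [Fin.sum_univ_succ]
  simp only [Fin.cons_zero, Fin.cons_succ]
  ring

open Classical in
/-- many good tuples -/
theorem count_tuples {N : SimpleGraph V} {S Z : Finset V} {b M : ℕ} {B κ K1 : ℝ}
    (hN : Net N S Z b M B κ K1) (hκ : 0 < κ) (hκ1 : κ ≤ 1) (hK1 : 0 ≤ K1) (hB : 0 ≤ B) (hbB : (b : ℝ) ≤ B)
    {L : ℕ} (hL : K1 * Fintype.card V < (1 + κ / (2 * (K1 + 1) * (B + 1))) ^ L)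
    {c : ℕ} (hc : c + S.card + b ≤ M) :
    ∀ n ≤ b, c ^ n ≤ (univ.filter (fun h : Fin n → V => GoodTuple N S (n * L) h)).card := by
  intro n
  induction n with
  | zero =>
    intro _
    rw [pow_zero]
    apply Finset.card_pos.2
    refine ⟨Fin.elim0, ?_⟩
    rw [Finset.mem_filter]
    refine ⟨Finset.mem_univ _, ?_⟩
    refine ⟨fun a => a.elim0, fun a => a.elim0, fun _ _ => 0, ⟨?_, ?_, ?_, ?_⟩, ?_⟩
    · intro u v; simp
    · intro u v; norm_num
    · intro u v h; simp at h
    · intro v _; simp [dem]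
    · have : arcs (fun _ _ : V => (0 : ℤ)) = ∅ := by
        ext ⟨x, y⟩; simp [mem_arcs]
      rw [this]; simp
  | succ n ih =>
    intro hn
    have ih' := ih (by omega)
    set A := univ.filter (fun h : Fin n → V => GoodTuple N S (n * L) h) with hA
    -- extensions
    have hext : ∀ h ∈ A, ∃ E : Finset V, c ≤ E.card ∧ ∀ x ∈ E,
        GoodTuple N S ((n + 1) * L) (Fin.cons x h : Fin (n + 1) → V) := by
      intro h hh
      rw [hA, Finset.mem_filter] at hh
      obtain ⟨-, hinj, hS, f, hf, hfc⟩ := hh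
      have hr := reach hN hκ hκ1 hK1 hB hbB hf (dem_nonneg h) (by rw [dem_total]; omega) hL
      refine ⟨(bfs N f S L) \ (S ∪ univ.image h), ?_, ?_⟩
      · have h1 := Finset.le_card_sdiff (S ∪ univ.image h) (bfs N f S L)
        have h2 : (S ∪ univ.image h).card ≤ S.card + n := by
          refine (Finset.card_union_le _ _).trans (add_le_add le_rfl ?_)
          exact Finset.card_image_le.trans (by simp)
        omega
      · intro x hx
        rw [Finset.mem_sdiff, Finset.mem_union, not_or] at hx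
        obtain ⟨hx1, hx2, hx3⟩ := hx
        have hx4 : ∀ j, h j ≠ x := by
          intro j hj; exact hx3 (Finset.mem_image.2 ⟨j, Finset.mem_univ _, hj⟩)
        refine ⟨?_, ?_, ?_⟩
        · rw [Fin.cons_injective_iff]
          exact ⟨by rintro ⟨j, hj⟩; exact hx4 j hj, hinj⟩
        · intro j
          refine Fin.cases ?_ ?_ j
          · simpa using hx2
          · intro i; simpa using hS i
        · obtain ⟨F, hF, hFc⟩ := aug_exists hf hx1 hx2
          refine ⟨F, ?_, ?_⟩
          · rw [dem_cons]; exact hF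
          · calc (arcs F).card ≤ (arcs f).card + L := hFc
              _ ≤ n * L + L := by omega
              _ = _ := by ring
    choose! E hE1 hE2 using hext
    have hcard : (A.sigma (fun h => E h)).card ≤
        (univ.filter (fun h : Fin (n + 1) → V => GoodTuple N S ((n + 1) * L) h)).card := by
      refine Finset.card_le_card_of_injOn (fun y => (Fin.cons y.2 y.1 : Fin (n + 1) → V)) ?_ ?_
      · rintro ⟨h, x⟩ hy
        rw [Finset.mem_coe, Finset.mem_sigma] at hy
        rw [Finset.mem_coe, Finset.mem_filter]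
        exact ⟨Finset.mem_univ _, hE2 h hy.1 x hy.2⟩
      · rintro ⟨h, x⟩ _ ⟨h', x'⟩ _ heq
        have := Fin.cons_injective2 heq
        obtain ⟨rfl, rfl⟩ := this
        rfl
    refine le_trans ?_ hcard
    rw [Finset.card_sigma]
    calc c ^ (n + 1) = c ^ n * c := by ring
      _ ≤ A.card * c := Nat.mul_le_mul_right _ ih'
      _ = ∑ h ∈ A, c := by rw [Finset.sum_const, smul_eq_mul]
      _ ≤ ∑ h ∈ A, (E h).card := Finset.sum_le_sum (fun h hh => hE1 h hh)

end Pool.Agent.H89.Imm
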