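import Pool.Agent.H89.Imm.Laminar
import Pool.Agent.H89.Imm.Reach

set_option autoImplicit false
set_option linter.unusedSectionVars false
set_option linter.unusedVariables false
set_option linter.unusedSimpArgs false

namespace Pool.Agent.H89.Imm

open Finset SimpleGraph

variable {V : Type*} [DecidableEq V] [Fintype V]

/-- a source set `S` with own edges `E`, flow value `b` -/
structure Src (H : SimpleGraph V) (M B b : ℕ) (S : Finset V) (E : Finset (Sym2 V)) (w : V) (β : ℕ) :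
    Prop where
  mem : w ∈ S
  le : β ≤ B
  cut : ∀ X : Finset V, w ∈ X → X.card ≤ M → β ≤ cut H X
  own : ∀ (D : Finset (Sym2 V)) (X : Finset V), S ⊆ X →
    Imm.cut (H.deleteEdges (D : Set (Sym2 V))) X + b ≤
      Imm.cut (H.deleteEdges ((D : Set (Sym2 V)) ∪ (E : Set (Sym2 V)))) X + β

theorem robust (H : SimpleGraph V) {M B u dm : ℕ} {κ K1 : ℝ} (hκ : 0 < κ) (hu : 1 / κ ≤ u)
    (hK1 : 0 ≤ K1) (hu2 : K1 + 3 ≤ u) (hu3 : B ≤ u) (hdm : 1 ≤ dm)
    (hexp : ∀ X : Finset V, X.card ≤ M → 2 * κ * X.card ≤ cut H X)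
    (hin : ∀ X : Finset V, (ec H X X : ℝ) ≤ K1 * X.card)
    (hM : 2 * (u ^ 3 * dm) ≤ M) (D : Finset (Sym2 V)) (hD : D.card ≤ dm) :
    ∃ (D' : Finset (Sym2 V)) (Z Bad : Finset V), D ⊆ D' ∧ Z.card ≤ u * dm ∧
      Bad.card ≤ 2 * u ^ 5 * dm ^ 2 ∧
      ∀ (S : Finset V) (E : Finset (Sym2 V)) (b : ℕ) (w : V) (β : ℕ), Src H M B b S E w β →
        w ∉ Bad → Disjoint S Z → ∀ M2 : ℕ, M2 + Z.card ≤ M →
        Net (H.deleteEdges ((D' : Set (Sym2 V)) ∪ (E : Set (Sym2 V)))) S Z b M2 B κ K1 := by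
  classical
  obtain ⟨Z, hZ1, hZ2, hZ3⟩ := trim H D hκ hexp
  have hu1 : (1 : ℝ) ≤ u := by linarith
  have hu1' : 1 ≤ u := by exact_mod_cast hu1
  have huk : 1 ≤ u * κ := by
    rw [div_le_iff₀ hκ] at hu; exact hu
  have hDr : (D.card : ℝ) ≤ dm := by exact_mod_cast hD
  have hZr : (Z.card : ℝ) ≤ u * dm := by
    have h1 : (Z.card : ℝ) ≤ u * (κ * Z.card) := by
      have : (Z.card : ℝ) * 1 ≤ Z.card * (u * κ) := by gcongr
      linarith
    calc (Z.card : ℝ) ≤ u * (κ * Z.card) := h1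
      _ ≤ u * D.card := by gcongr
      _ ≤ u * dm := by gcongr
  have hZn : Z.card ≤ u * dm := by exact_mod_cast hZr
  set EZ : Finset (Sym2 V) := (prs H Z univ).image (fun p => s(p.1, p.2)) with hEZ
  set D' : Finset (Sym2 V) := D ∪ EZ with hD'
  have hD'mem : ∀ e, e ∈ D' ↔ e ∈ D ∨ (e ∈ H.edgeSet ∧ ∃ z ∈ Z, z ∈ e) := by
    intro e
    rw [hD', Finset.mem_union]
    apply or_congr_right
    rw [hEZ, Finset.mem_image]
    constructor
    · rintro ⟨⟨x, y⟩, hxy, rfl⟩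
      rw [mem_prs] at hxy
      exact ⟨hxy.2.2, x, hxy.1, by simp⟩
    · rintro ⟨he, z, hz, hze⟩
      obtain ⟨y, rfl⟩ := Sym2.mem_iff_exists.1 hze
      exact ⟨(z, y), mem_prs.2 ⟨hz, Finset.mem_univ _, he⟩, rfl⟩
  have hEZcard : (EZ.card : ℝ) ≤ K1 * (u * dm) + 2 * dm := by
    have h1 : EZ.card ≤ ec H Z univ := Finset.card_image_le
    have h2 : (ec H Z univ : ℝ) = ec H Z Z + cut H Z := by
      have : vol H Z = ec H Z Z + cut H Z := vol_eq H Z
      unfold vol at this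
      rw [this]; push_cast; ring
    have h3 := hin Z
    have h4 : (cut H Z : ℝ) ≤ 2 * dm := by
      have : (cut H Z : ℝ) ≤ 2 * D.card := by exact_mod_cast hZ2
      linarith
    have h5 : (EZ.card : ℝ) ≤ ec H Z univ := by exact_mod_cast h1
    have h6 : K1 * (Z.card : ℝ) ≤ K1 * (u * dm) := by gcongr
    linarith
  have hdm' : (1 : ℝ) ≤ dm := by exact_mod_cast hdm
  have hD'card : (D'.card : ℝ) ≤ u ^ 2 * dm := by
    have h1 : (D'.card : ℝ) ≤ D.card + EZ.card := by exact_mod_cast Finset.card_union_le D EZ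
    have h2 : (D'.card : ℝ) ≤ dm + (K1 * (u * dm) + 2 * dm) := by linarith
    have h3 : (dm : ℝ) + (K1 * (u * dm) + 2 * dm) ≤ u ^ 2 * dm := by
      have h4 : (3 : ℝ) + K1 * u ≤ u ^ 2 := by nlinarith
      nlinarith
    linarith
  have hD'n : D'.card ≤ u ^ 2 * dm := by exact_mod_cast hD'card
  -- small sets
  have hs : ∀ X : Finset V, X.card ≤ M → cut (H.deleteEdges (D' : Set (Sym2 V))) X < B →
      X.card ≤ u ^ 3 * dm := by
    intro X hX hcut
    have h1 := cut_delete H D' X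
    have h2 := hexp X hX
    have h3 : (cut H X : ℝ) ≤ B + u ^ 2 * dm := by
      have : (cut H X : ℝ) ≤ cut (H.deleteEdges (D' : Set (Sym2 V))) X + D'.card := by exact_mod_cast h1
      have h4 : (cut (H.deleteEdges (D' : Set (Sym2 V))) X : ℝ) ≤ B := by exact_mod_cast hcut.le
      linarith
    have h4 : (X.card : ℝ) ≤ u * (κ * X.card) := by
      have : (X.card : ℝ) * 1 ≤ X.card * (u * κ) := by gcongr
      linarith
    have hBu : (B : ℝ) ≤ u := by exact_mod_cast hu3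
    have h5 : (X.card : ℝ) ≤ u ^ 3 * dm := by
      have h6 : κ * X.card ≤ (u + u ^ 2 * dm) / 2 := by linarith
      have h7 : (u : ℝ) + u ^ 2 * dm ≤ 2 * (u ^ 2 * dm) := by
        have : (u : ℝ) * 1 ≤ u * (u * dm) := by
          gcongr
          nlinarith
        nlinarith
      calc (X.card : ℝ) ≤ u * (κ * X.card) := h4
        _ ≤ u * ((u + u ^ 2 * dm) / 2) := by gcongr
        _ ≤ u * (u ^ 2 * dm) := by gcongr; linarith
        _ = u ^ 3 * dm := by ring
    exact_mod_cast h5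
  have hM1 : 1 ≤ M := by
    have : 1 ≤ u ^ 3 * dm := Nat.mul_pos (pow_pos hu1' 3) hdm
    omega
  obtain ⟨Bad, hBad1, hBad2⟩ := few_bad H D' (B := B) hM1 hs hM
  refine ⟨D', Z, Bad, Finset.subset_union_left, hZn, ?_, ?_⟩
  · calc Bad.card ≤ 2 * D'.card * (u ^ 3 * dm) := hBad1
      _ ≤ 2 * (u ^ 2 * dm) * (u ^ 3 * dm) := by gcongr
      _ = 2 * u ^ 5 * dm ^ 2 := by ring
  · intro S E b w β hsrc hw hSZ M2 hM2
    have hcutD : ∀ X : Finset V, S ⊆ X → X.card ≤ M2 →
        β ≤ cut (H.deleteEdges (D' : Set (Sym2 V))) X := fun X hSX hX =>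
      hBad2 w hw β hsrc.le hsrc.cut X (hSX hsrc.mem) (by omega)
    refine ⟨?_, hSZ, ?_, ?_, ?_⟩
    · intro z hz y hadj
      rw [SimpleGraph.deleteEdges_adj] at hadj
      apply hadj.2
      left
      have : s(y, z) ∈ D' := (hD'mem _).2 (Or.inr ⟨hadj.1, z, hz, by simp⟩)
      simpa using this
    · intro X hSX hXZ hX
      have h1 := hsrc.own D' X hSX
      have h2 := hcutD X hSX hX
      omega
    · intro X hSX hXZ hX
      have h1 := hsrc.own D' X hSX
      have h2 := hZ3 D' hD'mem X hXZ (by omega)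
      have h3 : (cut (H.deleteEdges (D' : Set (Sym2 V))) X : ℝ) + b ≤
          cut (H.deleteEdges ((D' : Set (Sym2 V)) ∪ (E : Set (Sym2 V)))) X + β := by exact_mod_cast h1
      have h4 : (β : ℝ) ≤ B := by exact_mod_cast hsrc.le
      have h5 : (0 : ℝ) ≤ b := by positivity
      linarith
    · intro X
      have h1 : ec (H.deleteEdges ((D' : Set (Sym2 V)) ∪ (E : Set (Sym2 V)))) X X ≤ ec H X X :=
        ec_mono_graph (SimpleGraph.deleteEdges_le _) X X
      have h2 : (ec (H.deleteEdges ((D' : Set (Sym2 V)) ∪ (E : Set (Sym2 V)))) X X : ℝ) ≤ ec H X X := by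
        exact_mod_cast h1
      exact h2.trans (hin X)

end Pool.Agent.H89.Imm
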