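import Pool.Agent.H89.Imm.Robust
import Pool.Agent.H89.Imm.Config

set_option autoImplicit false
set_option linter.unusedSectionVars false
set_option linter.unusedVariables false
set_option linter.unusedSimpArgs false

namespace Pool.Agent.H89.Imm

open Finset SimpleGraph

variable {V : Type*} [DecidableEq V] [Fintype V]

/-- (possible) edges touching `S` -/
def tch (S : Finset V) : Finset (Sym2 V) := univ.filter (fun e => ∃ v ∈ S, v ∈ e)

lemma mem_tch {S : Finset V} {e : Sym2 V} : e ∈ tch S ↔ ∃ v ∈ S, v ∈ e := by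
  unfold tch; simp

lemma ID_mono {p q : Prop} (h : p → q) : ID p ≤ ID q := by
  by_cases hp : p
  · rw [ID_true hp, ID_true (h hp)]
  · rw [ID_false hp]; exact ID_nonneg _

lemma ID_or {p q : Prop} : ID (p ∨ q) ≤ ID p + ID q := by
  by_cases hp : p
  · rw [ID_true (Or.inl hp), ID_true hp]; linarith [ID_nonneg q]
  · by_cases hq : q
    · rw [ID_true (Or.inr hq), ID_true hq]; linarith [ID_nonneg p]
    · rw [ID_false (by tauto)]; exact add_nonneg (ID_nonneg _) (ID_nonneg _)

lemma av_add {α : Type*} [Fintype α] (φ ψ : α → ℝ) : av (fun a => φ a + ψ a) = av φ + av ψ := by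
  simp only [av, Finset.sum_add_distrib, add_div]

lemma av_ID {α : Type*} [Fintype α] (p : α → Prop) [DecidablePred p] :
    av (fun a => ID (p a)) = ((univ.filter p).card : ℝ) / Fintype.card α := by
  unfold av
  congr 1
  rw [Finset.card_filter]
  push_cast
  refine Finset.sum_congr rfl (fun a _ => ?_)
  by_cases h : p a
  · rw [ID_true h, if_pos h]
  · rw [ID_false h, if_neg h]

/-- few sources touch a given edge -/
lemma few_touch {𝓕 : Type*} [Fintype 𝓕] [Nonempty 𝓕] (S : 𝓕 → Finset V)
    (hdisj : ∀ i j, i ≠ j → Disjoint (S i) (S j)) (e : Sym2 V) :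
    av (fun i => ID (e ∈ tch (S i))) ≤ 2 / Fintype.card 𝓕 := by
  classical
  rw [av_ID]
  have hc : (0 : ℝ) < Fintype.card 𝓕 := by positivity
  rw [div_le_div_iff_of_pos_right hc]
  have h1 : (univ.filter (fun i => e ∈ tch (S i))).card ≤ 2 := by
    induction e using Sym2.ind with
    | _ x y =>
      have h2 : univ.filter (fun i => s(x, y) ∈ tch (S i)) ⊆
          univ.filter (fun i => x ∈ S i) ∪ univ.filter (fun i => y ∈ S i) := by
        intro i hi
        rw [Finset.mem_filter, mem_tch] at hi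
        obtain ⟨-, v, hv, hve⟩ := hi
        rw [Finset.mem_union, Finset.mem_filter, Finset.mem_filter]
        rw [Sym2.mem_iff] at hve
        rcases hve with rfl | rfl
        · left; exact ⟨Finset.mem_univ _, hv⟩
        · right; exact ⟨Finset.mem_univ _, hv⟩
      have h3 : ∀ z, (univ.filter (fun i => z ∈ S i)).card ≤ 1 := by
        intro z
        rw [Finset.card_le_one]
        intro i hi j hj
        rw [Finset.mem_filter] at hi hj
        by_contra hne
        exact Finset.disjoint_left.1 (hdisj i j hne) hi.2 hj.2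
      refine (Finset.card_le_card h2).trans ((Finset.card_union_le _ _).trans ?_)
      have := h3 x
      have := h3 y
      omega
  exact_mod_cast h1

lemma len_le {G : SimpleGraph V} {u v : V} {p : G.Walk u v} (hp : p.IsPath) {K : ℕ}
    {A : Finset (Sym2 V)} (hA : A.card ≤ K) (hs : ∀ e ∈ p.edges, e ∈ A) : p.length ≤ K := by
  classical
  have h1 : p.edges.Nodup := hp.isTrail.edges_nodup
  have h2 : p.edges.toFinset ⊆ A := by
    intro e he; exact hs e (by simpa using he)
  have h3 := Finset.card_le_card h2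
  rw [List.toFinset_card_of_nodup h1, Walk.length_edges] at h3
  omega

/-- the system of roles -/
theorem roles (H : SimpleGraph V) {M B u dm b : ℕ} {κ K1 : ℝ} (hκ : 0 < κ) (hκ1 : κ ≤ 1)
    (hu : 1 / κ ≤ u)
    (hK1 : 0 ≤ K1) (hu2 : K1 + 3 ≤ u) (hu3 : B ≤ u) (hdm : 1 ≤ dm)
    (hexp : ∀ X : Finset V, X.card ≤ M → 2 * κ * X.card ≤ cut H X)
    (hin : ∀ X : Finset V, (ec H X X : ℝ) ≤ K1 * X.card)
    (hM : 2 * (u ^ 3 * dm) ≤ M)
    {𝓕 : Type*} [Fintype 𝓕] [DecidableEq 𝓕] [Nonempty 𝓕] [Nonempty V]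
    (S : 𝓕 → Finset V) (E : 𝓕 → Finset (Sym2 V)) (w : 𝓕 → V) (β : 𝓕 → ℕ)
    (hsrc : ∀ i, Src H M B b (S i) (E i) (w i) (β i))
    (hdisj : ∀ i j, i ≠ j → Disjoint (S i) (S j)) (hbB : b ≤ B) {s : ℕ} (hs : ∀ i, (S i).card ≤ s)
    {L : ℕ} (hL : K1 * Fintype.card V < (1 + κ / (2 * (K1 + 1) * (B + 1))) ^ L)
    {t0 : ℕ} [NeZero t0] (hb : b ≤ t0)
    (hfam : 2 * (u * dm + 2 * u ^ 5 * dm ^ 2) ≤ Fintype.card 𝓕)
    {c : ℕ} (hc : c + s + b + u * dm ≤ M)
    {T : ℕ} (hT : 1 ≤ T) {θ : ℝ} (hθ : 0 < θ)
    (hTd : T * (((b * L : ℕ) : ℝ) + b * (((b * L : ℕ) : ℝ) + 2 * ((b * L : ℕ) : ℝ) * (3 * ((b * L : ℕ) : ℝ)))) ≤ θ * dm)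
    {κc : ℝ} (hκc : (θ + (1 + b)) / T + 2 / Fintype.card 𝓕 ≤ κc)
    (hmain : (2 * t0 : ℝ) ^ 2 * (κc * (((b * L : ℕ) : ℝ) + 1)) <
      (1 / 2 * ((c : ℝ) / Fintype.card V) ^ b) ^ (2 * t0 ^ (b + 1))) :
    ∃ (i : Bool × ZMod t0 → 𝓕) (σ : Bool × ZMod t0 → Fin b → V) (hb : Fin b → ZMod t0 → V)
      (P : (r : Bool × ZMod t0) → (j : Fin b) → H.Walk (hb j (sig t0 r j)) (σ r j)),
      (∀ r s, r ≠ s → i r ≠ i s) ∧ (∀ r j, σ r j ∈ S (i r)) ∧
      (∀ r j, (P r j).length ≤ b * L) ∧
      (∀ r j, ∀ e ∈ (P r j).edges, e ∉ E (i r)) ∧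
      (∀ r s, r ≠ s → ∀ j, ∀ e ∈ (P r j).edges, e ∉ tch (S (i s))) ∧
      (∀ r j s j', (r ≠ s ∨ j ≠ j') → ¬ (j = j' ∧ sig t0 r j = sig t0 s j') →
        List.Disjoint (P r j).edges (P s j').edges) := by
  classical
  obtain ⟨wt, hwt⟩ := exists_gen (V := V)
  set K : ℕ := b * L with hKdef
  have hrob := robust H hκ hu hK1 hu2 hu3 hdm hexp hin hM
  choose! D' Z Bad hDD' hZ hBad hNet using hrob
  -- network
  let N : Finset (Sym2 V) → 𝓕 → SimpleGraph V := fun D i =>
    H.deleteEdges ((D' D : Set (Sym2 V)) ∪ (E i : Set (Sym2 V)))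
  have hNH : ∀ D i, N D i ≤ H := fun D i => SimpleGraph.deleteEdges_le _
  have hND : ∀ D i, D.card ≤ dm → ∀ e ∈ D, e ∉ (N D i).edgeSet := by
    intro D i hD e he heN
    have h1 : e ∈ D' D := hDD' D hD he
    simp only [N, SimpleGraph.edgeSet_deleteEdges, Set.mem_sdiff, Set.mem_union,
      Finset.mem_coe, not_or] at heN
    exact heN.2.1 h1
  have hNE : ∀ D i, ∀ e ∈ (N D i).edgeSet, e ∉ E i := by
    intro D i e he hE
    simp only [N, SimpleGraph.edgeSet_deleteEdges, Set.mem_sdiff, Set.mem_union,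
      Finset.mem_coe, not_or] at he
    exact he.2.2 hE
  let FF : Finset (Sym2 V) → 𝓕 → (Fin b → V) → Finset (Sym2 V) := fun D i h =>
    EF wt (N D i) (S i) (dem univ h) K
  let EP : Fin b → Finset (Sym2 V) → 𝓕 → (Fin b → V) → Finset (Sym2 V) := fun j D i h =>
    EPlus wt (N D i) (S i) (dem (univ.erase j) h) K
  let Q : Finset (Sym2 V) → Sym2 V → ℝ := fun D e =>
    av (fun h : Fin b → V => av (fun i : 𝓕 => ID (e ∈ FF D i h))) +
      ∑ j : Fin b, av (fun h : Fin b → V => av (fun i : 𝓕 => ID (e ∈ EP j D i h)))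
  have avnn : ∀ (f : (Fin b → V) → 𝓕 → Prop), 0 ≤ av (fun h => av (fun i => ID (f h i))) := fun f =>
    av_nonneg (fun h => av_nonneg (fun i => ID_nonneg _))
  have avle : ∀ (f : (Fin b → V) → 𝓕 → Prop), av (fun h => av (fun i => ID (f h i))) ≤ 1 := fun f =>
    av_le_one (fun h => av_le_one (fun i => ID_le_one _))
  have hsumav : ∀ (f : (Fin b → V) → 𝓕 → Finset (Sym2 V)) (k : ℝ), (∀ h i, ((f h i).card : ℝ) ≤ k) →
      ∑ e : Sym2 V, av (fun h => av (fun i => ID (e ∈ f h i))) ≤ k := by
    intro f k hk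
    have h1 : ∑ e : Sym2 V, av (fun h => av (fun i => ID (e ∈ f h i)))
        = av (fun h => av (fun i => ((f h i).card : ℝ))) := by
      rw [← av_sum]
      congr 1
      funext h
      rw [← av_sum]
      congr 1
      funext i
      exact sum_ID_mem (f h i)
    rw [h1]
    calc av (fun h => av (fun i => ((f h i).card : ℝ))) ≤ av (fun _ : Fin b → V => av (fun _ : 𝓕 => k)) :=
          av_mono (fun h => av_mono (fun i => hk h i))
      _ = k := by rw [av_const, av_const]
  obtain ⟨D, hDc, hDs⟩ := greedy Q dm T (c0 := 1 + b)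
    (S0 := (K : ℝ) + b * ((K : ℝ) + 2 * K * (3 * K))) (θ := θ) hθ (by positivity) (by positivity)
    (fun D e => add_nonneg (avnn _) (Finset.sum_nonneg (fun j _ => avnn _)))
    (by
      intro D hD e he
      have h1 : ∀ h i, ID (e ∈ FF D i h) = 0 := fun h i =>
        ID_false (fun hm => hND D i hD e he (EF_subset hwt hm))
      have h2 : ∀ j h i, ID (e ∈ EP j D i h) = 0 := fun j h i =>
        ID_false (fun hm => hND D i hD e he (EPlus_subset hwt hm))
      simp only [Q, h1, h2, av_const, Finset.sum_const_zero, add_zero])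
    (by
      intro D hD e
      refine add_le_add (avle _) ?_
      calc ∑ j : Fin b, av (fun h : Fin b → V => av (fun i : 𝓕 => ID (e ∈ EP j D i h)))
          ≤ ∑ j : Fin b, (1 : ℝ) := Finset.sum_le_sum (fun j _ => avle _)
        _ = b := by simp)
    (by
      intro D hD
      simp only [Q, Finset.sum_add_distrib]
      refine add_le_add ?_ ?_
      · exact hsumav (fun h i => FF D i h) K (fun h i => by exact_mod_cast card_EF hwt _ _ _ _)
      · rw [Finset.sum_comm]
        calc ∑ j : Fin b, ∑ e : Sym2 V, av (fun h : Fin b → V => av (fun i : 𝓕 => ID (e ∈ EP j D i h)))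
            ≤ ∑ j : Fin b, ((K : ℝ) + 2 * K * (3 * K)) := Finset.sum_le_sum (fun j _ =>
              hsumav (fun h i => EP j D i h) _ (fun h i => by exact_mod_cast card_EPlus hwt _ _ _ _))
          _ = _ := by rw [Finset.sum_const, Finset.card_univ, Fintype.card_fin, nsmul_eq_mul])
    hTd
  -- the probability space
  have hneT : NeZero T := ⟨by omega⟩
  have hneFT : Nonempty (Fin T) := ⟨⟨0, by omega⟩⟩
  let Ω := Fin T × 𝓕
  let F : Ω → (Fin b → V) → Finset (Sym2 V) := fun ω h => FF (D ω.1) ω.2 h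
  let Gn : Ω → (Fin b → V) → Finset (Sym2 V) := fun ω h => F ω h ∪ tch (S ω.2)
  let C : Fin b → Ω → (Fin b → V) → Finset (Sym2 V) := fun j ω h => EP j (D ω.1) ω.2 h ∪ tch (S ω.2)
  let Succ : Ω → (Fin b → V) → Prop := fun ω h => GoodTuple (N (D ω.1) ω.2) (S ω.2) K h
  have hTr : (0 : ℝ) < T := by exact_mod_cast hT
  have hFr : (0 : ℝ) < Fintype.card 𝓕 := by positivity
  -- congestion
  have hcong : ∀ (f : Finset (Sym2 V) → 𝓕 → (Fin b → V) → Finset (Sym2 V)) (e : Sym2 V),
      (∀ D, av (fun h : Fin b → V => av (fun i : 𝓕 => ID (e ∈ f D i h))) ≤ Q D e) →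
      av (fun h : Fin b → V => av (fun ω : Ω => ID (e ∈ f (D ω.1) ω.2 h ∪ tch (S ω.2)))) ≤ κc := by
    intro f e hf
    have h1 : av (fun h : Fin b → V => av (fun ω : Ω => ID (e ∈ f (D ω.1) ω.2 h ∪ tch (S ω.2))))
        ≤ av (fun h : Fin b → V => av (fun ω : Ω => ID (e ∈ f (D ω.1) ω.2 h))) +
          av (fun h : Fin b → V => av (fun ω : Ω => ID (e ∈ tch (S ω.2)))) := by
      rw [← av_add]
      refine av_mono (fun h => ?_)
      rw [← av_add]
      refine av_mono (fun ω => ?_)
      rw [Finset.mem_union]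
      exact ID_or
    have h2 : av (fun h : Fin b → V => av (fun ω : Ω => ID (e ∈ tch (S ω.2)))) ≤ 2 / Fintype.card 𝓕 := by
      rw [av_const]
      rw [av_prod]
      simp only
      rw [av_const]
      exact few_touch S hdisj e
    have h3 : av (fun h : Fin b → V => av (fun ω : Ω => ID (e ∈ f (D ω.1) ω.2 h))) ≤ (θ + (1 + b)) / T := by
      have h4 : ∀ h : Fin b → V, av (fun ω : Ω => ID (e ∈ f (D ω.1) ω.2 h)) =
          av (fun t : Fin T => av (fun i : 𝓕 => ID (e ∈ f (D t) i h))) := by
        intro h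
        rw [av_prod]
      simp only [h4]
      rw [av_comm]
      have h5 : ∀ t : Fin T, av (fun h : Fin b → V => av (fun i : 𝓕 => ID (e ∈ f (D t) i h))) ≤ Q (D t) e :=
        fun t => hf (D t)
      refine (av_mono h5).trans ?_
      unfold av
      rw [Fintype.card_fin, Fin.sum_univ_eq_sum_range (fun t => Q (D t) e) T]
      gcongr
      exact hDs e
    linarith
  -- success
  have hsucc : 1 / 2 * ((c : ℝ) / Fintype.card V) ^ b ≤
      av (fun h : Fin b → V => av (fun ω : Ω => ID (Succ ω h))) := by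
    rw [av_comm]
    have h4 : av (fun ω : Ω => av (fun h : Fin b → V => ID (Succ ω h))) =
        av (fun t : Fin T => av (fun i : 𝓕 => av (fun h : Fin b → V =>
          ID (GoodTuple (N (D t) i) (S i) K h)))) := by
      rw [av_prod]
    rw [h4]
    have h5 : ∀ t : Fin T, 1 / 2 * ((c : ℝ) / Fintype.card V) ^ b ≤ av (fun i : 𝓕 =>
        av (fun h : Fin b → V => ID (GoodTuple (N (D t) i) (S i) K h))) := by
      intro t
      have hDt := hDc t t.2
      set G : Finset 𝓕 := univ.filter (fun i => w i ∉ Bad (D t) ∧ Disjoint (S i) (Z (D t))) with hG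
      have hGc : (Fintype.card 𝓕 : ℝ) ≤ 2 * G.card := by
        have h6 : (univ : Finset 𝓕) ⊆ G ∪ (univ.filter (fun i => w i ∈ Bad (D t)) ∪
            univ.filter (fun i => ¬ Disjoint (S i) (Z (D t)))) := by
          intro i _
          rw [Finset.mem_union, Finset.mem_union, Finset.mem_filter, Finset.mem_filter, Finset.mem_filter]
          by_cases h7 : w i ∈ Bad (D t)
          · right; left; exact ⟨Finset.mem_univ _, h7⟩
          · by_cases h8 : Disjoint (S i) (Z (D t))
            · left; exact ⟨Finset.mem_univ _, h7, h8⟩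
            · right; right; exact ⟨Finset.mem_univ _, h8⟩
        have h7 : (univ.filter (fun i => w i ∈ Bad (D t))).card ≤ (Bad (D t)).card := by
          refine Finset.card_le_card_of_injOn w (fun i hi => ?_) ?_
          · rw [Finset.mem_coe, Finset.mem_filter] at hi; exact hi.2
          · intro i _ j _ hij
            by_contra hne
            exact Finset.disjoint_left.1 (hdisj i j hne) (hsrc i).mem (by rw [hij]; exact (hsrc j).mem)
        have h8 : (univ.filter (fun i => ¬ Disjoint (S i) (Z (D t)))).card ≤ (Z (D t)).card := by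
          have h9 : ∀ i ∈ univ.filter (fun i => ¬ Disjoint (S i) (Z (D t))), ∃ z, z ∈ S i ∧ z ∈ Z (D t) := by
            intro i hi
            rw [Finset.mem_filter] at hi
            exact Finset.not_disjoint_iff.1 hi.2
          choose! z hz1 hz2 using h9
          refine Finset.card_le_card_of_injOn z (fun i hi => hz2 i hi) ?_
          intro i hi j hj hij
          by_contra hne
          exact Finset.disjoint_left.1 (hdisj i j hne) (hz1 i hi) (by rw [hij]; exact hz1 j hj)
        have h9 : Fintype.card 𝓕 ≤ G.card + ((Bad (D t)).card + (Z (D t)).card) := by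
          rw [← Finset.card_univ]
          refine (Finset.card_le_card h6).trans ((Finset.card_union_le _ _).trans ?_)
          refine add_le_add le_rfl ((Finset.card_union_le _ _).trans (add_le_add h7 h8))
        have h10 := hZ (D t) hDt
        have h11 := hBad (D t) hDt
        have h12 : Fintype.card 𝓕 ≤ 2 * G.card := by omega
        exact_mod_cast h12
      have hgood : ∀ i ∈ G, ((c : ℝ) / Fintype.card V) ^ b ≤
          av (fun h : Fin b → V => ID (GoodTuple (N (D t) i) (S i) K h)) := by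
        intro i hi
        rw [hG, Finset.mem_filter] at hi
        have hMZ : (M - u * dm) + (Z (D t)).card ≤ M := by
          have := hZ (D t) hDt
          omega
        have hnet := hNet (D t) hDt (S i) (E i) b (w i) (β i) (hsrc i) hi.2.1 hi.2.2 (M - u * dm) hMZ
        have hcount := count_tuples hnet hκ hκ1 hK1 (Nat.cast_nonneg B) (by exact_mod_cast hbB) hL
          (c := c) (by have := hs i; omega) b le_rfl
        rw [av_ID, Fintype.card_fun, Fintype.card_fin, div_pow, Nat.cast_pow]
        refine div_le_div_of_nonneg_right ?_ (by positivity)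
        have hc2 : c ^ b ≤ (univ.filter (fun h : Fin b → V => GoodTuple (N (D t) i) (S i) K h)).card := by
          convert hcount using 2
        exact_mod_cast hc2
      unfold av
      rw [le_div_iff₀ hFr]
      calc 1 / 2 * ((c : ℝ) / Fintype.card V) ^ b * Fintype.card 𝓕
          ≤ 1 / 2 * ((c : ℝ) / Fintype.card V) ^ b * (2 * G.card) := by gcongr
        _ = ∑ i ∈ G, ((c : ℝ) / Fintype.card V) ^ b := by
            rw [Finset.sum_const, nsmul_eq_mul]; ring
        _ ≤ ∑ i ∈ G, av (fun h : Fin b → V => ID (GoodTuple (N (D t) i) (S i) K h)) :=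
            Finset.sum_le_sum hgood
        _ ≤ _ := Finset.sum_le_sum_of_subset_of_nonneg (Finset.subset_univ _)
            (fun i _ _ => av_nonneg (fun h => ID_nonneg _))
    calc 1 / 2 * ((c : ℝ) / Fintype.card V) ^ b
        = av (fun _ : Fin T => 1 / 2 * ((c : ℝ) / Fintype.card V) ^ b) := by rw [av_const]
      _ ≤ _ := av_mono h5
  have hκc0 : 0 ≤ κc := le_trans (by positivity) hκc
  have hcEP : ∀ (j : Fin b) (D : Finset (Sym2 V)) (i : 𝓕) (h h' : Fin b → V),
      (∀ j' ≠ j, h j' = h' j') → EP j D i h = EP j D i h' := by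
    intro j D i h h' hh
    have : dem (univ.erase j) h = dem (univ.erase j) h' := by
      funext v
      unfold dem
      refine Finset.sum_congr rfl (fun j' hj' => ?_)
      rw [hh j' (Finset.ne_of_mem_erase hj')]
    simp only [EP, this]
  obtain ⟨Hb, ω, hS, hid, hns, hsh⟩ := config (Ω := Ω) (V := V) (E := Sym2 V) (I := 𝓕) hb Succ F Gn C
    (fun j ω h h' hh => by
      simp only [C]
      rw [hcEP j (D ω.1) ω.2 h h' hh])
    (fun ω => ω.2) (K := (K : ℝ)) (κc := κc) (p := 1 / 2 * ((c : ℝ) / Fintype.card V) ^ b)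
    hκc0 (by positivity) (by positivity)
    (fun ω h => by
      simp only [F, FF]
      exact_mod_cast card_EF hwt _ _ _ _)
    (fun e => hcong FF e (fun D => by
      simp only [Q]
      have : 0 ≤ ∑ j : Fin b, av (fun h : Fin b → V => av (fun i : 𝓕 => ID (e ∈ EP j D i h))) :=
        Finset.sum_nonneg (fun j _ => avnn _)
      linarith))
    (fun j e => hcong (EP j) e (fun D => by
      simp only [Q]
      have h1 : 0 ≤ av (fun h : Fin b → V => av (fun i : 𝓕 => ID (e ∈ FF D i h))) := avnn _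
      have h2 : av (fun h : Fin b → V => av (fun i : 𝓕 => ID (e ∈ EP j D i h))) ≤
          ∑ j : Fin b, av (fun h : Fin b → V => av (fun i : 𝓕 => ID (e ∈ EP j D i h))) :=
        Finset.single_le_sum (f := fun j => av (fun h : Fin b → V => av (fun i : 𝓕 => ID (e ∈ EP j D i h))))
          (fun j _ => avnn _) (Finset.mem_univ j)
      linarith))
    (fun ω' => by
      rw [av_prod]
      simp only
      rw [av_const, av_ID]
      have h1 : (univ.filter (fun i => i = ω'.2)).card = 1 := by
        rw [Finset.filter_eq' univ ω'.2]; simp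
      rw [h1]
      refine le_trans ?_ hκc
      have h2 : (0 : ℝ) ≤ (θ + (1 + b)) / T := by positivity
      have h3 : ((1 : ℕ) : ℝ) / (Fintype.card 𝓕 : ℝ) ≤ 2 / Fintype.card 𝓕 := by
        gcongr; norm_num
      linarith)
    hsucc hmain
  -- the paths
  have hrole : ∀ r : Bool × ZMod t0, ∃ P : (j : Fin b) → (s : V) × (N (D (ω r).1) (ω r).2).Walk (hub r Hb j) s,
      (∀ j, (P j).1 ∈ S (ω r).2) ∧
      (∀ j, (P j).2.IsPath) ∧
      (∀ j, ∀ e ∈ (P j).2.edges, e ∈ F (ω r) (hub r Hb)) ∧
      (∀ j j', j ≠ j' → List.Disjoint (P j).2.edges (P j').2.edges) ∧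
      (∀ j0 j, j ≠ j0 → ∀ e ∈ (P j).2.edges, e ∈ EP j0 (D (ω r).1) (ω r).2 (hub r Hb)) := by
    intro r
    obtain ⟨h1, h2, h3⟩ := hS r
    exact role hwt (hub r Hb) h2 K h3
  choose P hP1 hP2 hP3 hP4 hP5 using hrole
  let P' : (r : Bool × ZMod t0) → (j : Fin b) → H.Walk (Hb j (sig t0 r j)) (P r j).1 := fun r j =>
    (P r j).2.mapLe (hNH (D (ω r).1) (ω r).2)
  have hedge : ∀ r j, (P' r j).edges = (P r j).2.edges := by
    intro r j
    show ((P r j).2.mapLe (hNH (D (ω r).1) (ω r).2)).edges = (P r j).2.edges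
    simp [Walk.mapLe]
  have hlen : ∀ r j, (P' r j).length = (P r j).2.length := by
    intro r j
    show ((P r j).2.mapLe (hNH (D (ω r).1) (ω r).2)).length = (P r j).2.length
    simp [Walk.mapLe]
  refine ⟨fun r => (ω r).2, fun r j => (P r j).1, Hb, P', ?_, ?_, ?_, ?_, ?_, ?_⟩
  · intro r s hrs; exact hid r s hrs
  · intro r j; exact hP1 r j
  · intro r j
    show (P' r j).length ≤ K
    rw [hlen]
    exact len_le (hP2 r j) (card_EF hwt _ _ _ _) (hP3 r j)
  · intro r j e he
    have he1 : e ∈ (P r j).2.edges := by rw [← hedge]; exact he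
    exact hNE _ _ e (Walk.edges_subset_edgeSet _ he1)
  · intro r s hrs j e he ht
    have he1 : e ∈ (P r j).2.edges := by rw [← hedge]; exact he
    have heF := hP3 r j e he1
    by_cases hshare : ∃ j1 : Fin b, sig t0 s j1 = sig t0 r j1
    · obtain ⟨j1, hj1⟩ := hshare
      have h1 := hsh s r hrs.symm j1 hj1
      exact Finset.disjoint_left.1 h1 (Finset.mem_union_right _ ht) heF
    · push Not at hshare
      have h1 := hns s r hrs.symm hshare
      exact Finset.disjoint_left.1 h1 (Finset.mem_union_right _ ht) heF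
  · intro r j s j' hne hnsh e he he'
    have he1 : e ∈ (P r j).2.edges := by rw [← hedge]; exact he
    have he2 : e ∈ (P s j').2.edges := by rw [← hedge]; exact he'
    by_cases hrs : r = s
    · subst hrs
      have hjj : j ≠ j' := by
        rcases hne with h | h
        · exact absurd rfl h
        · exact h
      exact hP4 r j j' hjj he1 he2
    · have heF := hP3 r j e he1
      have heF' := hP3 s j' e he2
      by_cases hshare : ∃ j1 : Fin b, sig t0 r j1 = sig t0 s j1
      · obtain ⟨j1, hj1⟩ := hshare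
        by_cases hj : j = j1
        · by_cases hj' : j' = j1
          · exact hnsh ⟨hj.trans hj'.symm, by rw [hj, hj']; exact hj1⟩
          · have h1 := hsh s r (Ne.symm hrs) j1 hj1.symm
            exact Finset.disjoint_left.1 h1 (Finset.mem_union_left _ (hP5 s j1 j' hj' e he2)) heF
        · have h1 := hsh r s hrs j1 hj1
          exact Finset.disjoint_left.1 h1 (Finset.mem_union_left _ (hP5 r j1 j hj e he1)) heF'
      · push Not at hshare
        have h1 := hns r s hrs hshare
        exact Finset.disjoint_left.1 h1 (Finset.mem_union_left _ heF) heF'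

end Pool.Agent.H89.Imm
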